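import Pool.Agent.RHE.Basic

/-! # RHE-NodB: critical points of `R` for real `a i`

PLAN. `R` is a product of linear factors, so for `x` with `R(x) ≠ 0` (`x ≠ a i`)
`R'(x) = R(x) L(x)`, `L(x) = ∑ e i/(x - a i)` (logarithmic derivative of a product,
`Polynomial.eval_derivative...` or `logDeriv_prod`; or `deriv` of the function), and
`R''(x) = R'(x) L(x) - R(x) ∑ e i/(x - a i)²` (both sides are derivatives of functions which agree on an open
set). Let `R'(s) = 0`, `R(s) ≠ 0`. Then `L(s) = 0`; `Im L(s) = - Im s ∑ e i/‖s - a i‖²` (all terms `> 0`, `r > 0`,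
`D.r_pos`), so `Im s = 0`; and `R''(s) = - R(s) ∑ e i/(s - a i)²`, where for real `s` the sum is a positive
real number. -/

namespace Pool.Agent.RHE

open Polynomial

namespace Dat

variable (D : Dat)

private theorem nodB_der {x : ℂ} (hx : ∀ i, x - D.a i ≠ 0) :
    D.R.derivative.eval x = D.R.eval x * ∑ i, (D.e i : ℂ) / (x - D.a i) := by
  rw [Dat.R, derivative_C_mul, derivative_prod_finset, eval_mul, eval_mul, eval_C, mul_assoc]
  congr 1
  rw [eval_finsetSum, eval_prod, Finset.mul_sum]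
  refine Finset.sum_congr rfl fun i _ => ?_
  rw [eval_mul, eval_prod, derivative_X_sub_C_pow, ← Finset.prod_erase_mul Finset.univ _ (Finset.mem_univ i),
    mul_assoc]
  congr 1
  have h1 : D.e i = D.e i - 1 + 1 := (Nat.sub_add_cancel (D.he i)).symm
  have h2 : (x - D.a i) ^ D.e i = (x - D.a i) ^ (D.e i - 1) * (x - D.a i) := by
    conv_lhs => rw [h1]
    rw [pow_succ]
  rw [eval_mul, eval_pow, eval_pow, eval_sub, eval_X, eval_C, eval_C, h2]
  have h3 := hx i
  field_simp

theorem crit_real (a : Fin D.r → ℝ) (ha : ∀ i, D.a i = (a i : ℂ)) {s : ℂ}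
    (hR : D.R.eval s ≠ 0) (hs : D.R.derivative.eval s = 0) :
    ∃ β : ℝ, s = (β : ℂ) ∧ ∑ i, (D.e i : ℝ) / (β - a i) = 0 ∧
      D.R.derivative.derivative.eval s ≠ 0 := by
  have hsa : ∀ i, s - D.a i ≠ 0 := fun i h => hR (D.R_eval_eq_zero.2 ⟨i, sub_eq_zero.1 h⟩)
  have hL : ∑ i, (D.e i : ℂ) / (s - D.a i) = 0 := by
    have h1 := D.nodB_der hsa
    rw [hs] at h1
    rcases mul_eq_zero.1 h1.symm with h2 | h2
    · exact absurd h2 hR
    · exact h2
  -- the second derivative
  have hev : ∀ᶠ x in nhds s, ∀ i, x - D.a i ≠ 0 := by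
    rw [Filter.eventually_all]
    intro i
    have h1 : ContinuousAt (fun x : ℂ => x - D.a i) s := by fun_prop
    exact h1.eventually_ne (hsa i)
  have hd1 : HasDerivAt (fun x => D.R.derivative.eval x) (D.R.derivative.derivative.eval s) s :=
    D.R.derivative.hasDerivAt s
  have hd2 : HasDerivAt (fun x : ℂ => ∑ i, (D.e i : ℂ) / (x - D.a i))
      (∑ i, -((D.e i : ℂ) / (s - D.a i) ^ 2)) s := by
    refine HasDerivAt.fun_sum fun i _ => ?_
    have h1 : HasDerivAt (fun x : ℂ => x - D.a i) 1 s := (hasDerivAt_id s).sub_const _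
    have h2 := (hasDerivAt_const s (D.e i : ℂ)).fun_div h1 (hsa i)
    rw [zero_mul, zero_sub, mul_one, neg_div] at h2
    exact h2
  have hd3 : HasDerivAt (fun x => D.R.eval x * ∑ i, (D.e i : ℂ) / (x - D.a i))
      (D.R.derivative.eval s * ∑ i, (D.e i : ℂ) / (s - D.a i) +
        D.R.eval s * ∑ i, -((D.e i : ℂ) / (s - D.a i) ^ 2)) s := (D.R.hasDerivAt s).mul hd2
  have hd4 : HasDerivAt (fun x => D.R.derivative.eval x)
      (D.R.derivative.eval s * ∑ i, (D.e i : ℂ) / (s - D.a i) +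
        D.R.eval s * ∑ i, -((D.e i : ℂ) / (s - D.a i) ^ 2)) s :=
    hd3.congr_of_eventuallyEq (hev.mono fun x hx => D.nodB_der hx)
  have hR2 := hd1.unique hd4
  rw [hL, mul_zero, zero_add, Finset.sum_neg_distrib] at hR2
  -- `s` is real
  have hr := D.r_pos
  have hNe : (Finset.univ : Finset (Fin D.r)).Nonempty := ⟨⟨0, hr⟩, Finset.mem_univ _⟩
  have him : s.im * ∑ i, (D.e i : ℝ) / Complex.normSq (s - D.a i) = 0 := by
    have h1 := congrArg Complex.im hL
    rw [Complex.im_sum, Complex.zero_im] at h1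
    rw [Finset.mul_sum, ← neg_eq_zero, ← Finset.sum_neg_distrib, ← h1]
    refine Finset.sum_congr rfl fun i _ => ?_
    have h2 : ((D.e i : ℂ) / (s - D.a i)).im = (D.e i : ℝ) * (-(s - D.a i).im / Complex.normSq (s - D.a i)) := by
      rw [div_eq_mul_inv, ← Complex.ofReal_natCast, Complex.im_ofReal_mul, Complex.inv_im]
    rw [h2, Complex.sub_im, ha i, Complex.ofReal_im, sub_zero]
    ring
  have hpos : 0 < ∑ i, (D.e i : ℝ) / Complex.normSq (s - D.a i) := by
    refine Finset.sum_pos (fun i _ => ?_) hNe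
    exact div_pos (Nat.cast_pos.2 (D.he i)) (Complex.normSq_pos.2 (hsa i))
  have hsim : s.im = 0 := by
    rcases mul_eq_zero.1 him with h1 | h1
    · exact h1
    · exact absurd h1 hpos.ne'
  have hsre : s = ((s.re : ℝ) : ℂ) := Complex.ext rfl (by rw [Complex.ofReal_im, hsim])
  have hba : ∀ i, s.re - a i ≠ 0 := by
    intro i h
    apply hsa i
    rw [hsre, ha i, ← Complex.ofReal_sub, h, Complex.ofReal_zero]
  refine ⟨s.re, hsre, ?_, ?_⟩
  · have h1 : ((∑ i, (D.e i : ℝ) / (s.re - a i) : ℝ) : ℂ) = ∑ i, (D.e i : ℂ) / (s - D.a i) := by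
      rw [Complex.ofReal_sum]
      refine Finset.sum_congr rfl fun i _ => ?_
      rw [Complex.ofReal_div, Complex.ofReal_sub, ← hsre, ha i, Complex.ofReal_natCast]
    rw [hL] at h1
    exact Complex.ofReal_eq_zero.1 h1
  · rw [hR2]
    refine mul_ne_zero hR (neg_ne_zero.2 ?_)
    have h1 : ((∑ i, (D.e i : ℝ) / (s.re - a i) ^ 2 : ℝ) : ℂ) = ∑ i, (D.e i : ℂ) / (s - D.a i) ^ 2 := by
      rw [Complex.ofReal_sum]
      refine Finset.sum_congr rfl fun i _ => ?_
      rw [Complex.ofReal_div, Complex.ofReal_pow, Complex.ofReal_sub, ← hsre, ha i, Complex.ofReal_natCast]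
    rw [← h1]
    refine Complex.ofReal_ne_zero.2 (Finset.sum_pos (fun i _ => ?_) hNe).ne'
    exact div_pos (Nat.cast_pos.2 (D.he i)) (by have h2 := hba i; positivity)

end Dat

end Pool.Agent.RHE
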