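import Pool.Agent.RHE.NodA
import Pool.Agent.RHE.NodB

/-! Real data with `F = 0` at the real double points satisfy `Good`. -/

namespace Pool.Agent.RHE

namespace Dat

variable (D : Dat)

/-- for real `a i` (and complex `c`) it is enough that `F` vanishes at the real double points -/
theorem good_of_real (a : Fin D.r → ℝ) (ha : ∀ i, D.a i = (a i : ℂ))
    (hn : ∀ β : ℝ, D.R.eval (β : ℂ) ≠ 0 → D.Δ.eval (β : ℂ) = 0 →
      ∑ i, (D.e i : ℝ) / (β - a i) = 0 → D.F (β : ℂ) = 0) : D.Good := by
  refine D.good_of fun s hs hR => ?_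
  by_cases h : D.R.derivative.eval s = 0
  · obtain ⟨β, rfl, h1, h2⟩ := D.crit_real a ha hR h
    exact Or.inr ⟨hn β hR hs h1, h2⟩
  · exact Or.inl h

end Dat

end Pool.Agent.RHE
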