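import Pool.Agent.RHE.Basic

/-! # RHE-PerA: small translations of a loop

PLAN. Let `ξ' = ξ + ε`. The set `{ξ t}` is compact and disjoint from the finite set `S`, so `ξ t + ε ∉ S` for
small `ε`, all `t`; and `Δ(ξ t + ε)/Δ(ξ t) → 1` uniformly in `t` (compactness of `[0, 2π]`, periodicity), so it
is in `Complex.slitPlane` for `‖ε‖ < ε₁`. Put
`ω'(t) = (Q(ξ t + ε) + (ω t - (ω t)⁻¹) * exp (log (Δ(ξ t + ε)/Δ(ξ t)) / 2)) / 2`:
`C²`, periodic, `(2ω' - Q)² = Δ(ξ t + ε)` (`Pt.disc`), so `Pt (ξ' t) (ω' t)`. The integrand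
`ρ ξ' ω' t` is (after writing the derivative of `ω'` explicitly, e.g. `ω''/ω' = R'(ξ')/(ω' - ω'⁻¹) ξ'`-type
formula: differentiate `ω'² - Q(ξ') ω' + 1 = 0`) a continuous function of `(ε, t)` near `{0} × [0, 2π]`, so
the integral is continuous in `ε` at `0` (`intervalIntegral.continuousAt_of_dominated_interval` or
`ContinuousOn` + compactness), hence `≠ 0` for small `ε`; at `ε = 0` it is the given one. -/

namespace Pool.Agent.RHE

open Polynomial

private theorem pa_poly (P : ℂ[X]) {f : ℝ → ℂ} {n : WithTop ℕ∞} (hf : ContDiff ℝ n f) :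
    ContDiff ℝ n fun t => P.eval (f t) := by
  have h1 : ContDiff ℂ n fun x : ℂ => Polynomial.aeval x P := Polynomial.contDiff_aeval P n
  have h2 : ContDiff ℝ n fun x : ℂ => Polynomial.aeval x P := h1.restrict_scalars ℝ
  exact h2.comp hf

/-- the integral over a compact interval is continuous in the parameter -/
private theorem pa_int (J : ℂ → ℝ → ℝ) {r : ℝ} (hr : 0 < r)
    (hJ : ContinuousOn (fun p : ℂ × ℝ => J p.1 p.2) (Metric.closedBall 0 r ×ˢ Set.Icc 0 (2 * Real.pi)))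
    (hI : ∫ t in (0 : ℝ)..(2 * Real.pi), J 0 t ≠ 0) :
    ∃ ε₀ > (0 : ℝ), ε₀ ≤ r ∧ ∀ ε : ℂ, ‖ε‖ < ε₀ → ∫ t in (0 : ℝ)..(2 * Real.pi), J ε t ≠ 0 := by
  have hpi : 0 < 2 * Real.pi := by positivity
  have hK : IsCompact (Metric.closedBall (0 : ℂ) r ×ˢ Set.Icc (0 : ℝ) (2 * Real.pi)) :=
    (isCompact_closedBall _ _).prod isCompact_Icc
  have hu := hK.uniformContinuousOn_of_continuous hJ
  rw [Metric.uniformContinuousOn_iff] at hu
  obtain ⟨I, hIe⟩ : ∃ I : ℝ, I = ∫ t in (0 : ℝ)..(2 * Real.pi), J 0 t := ⟨_, rfl⟩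
  rw [← hIe] at hI
  have hIp : 0 < |I| := abs_pos.2 hI
  obtain ⟨δ, hδ, hd⟩ := hu (|I| / (2 * (2 * Real.pi))) (by positivity)
  have hci : ∀ ε : ℂ, ‖ε‖ ≤ r → IntervalIntegrable (J ε) MeasureTheory.volume 0 (2 * Real.pi) := by
    intro ε hε
    apply ContinuousOn.intervalIntegrable
    rw [Set.uIcc_of_le hpi.le]
    have h1 : ContinuousOn (fun t : ℝ => ((ε, t) : ℂ × ℝ)) (Set.Icc 0 (2 * Real.pi)) :=
      (Continuous.prodMk continuous_const continuous_id).continuousOn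
    exact hJ.comp h1 fun t ht => ⟨by simpa using hε, ht⟩
  refine ⟨min δ r, lt_min hδ hr, min_le_right _ _, fun ε hε h0 => ?_⟩
  have hε1 : ‖ε‖ < δ := lt_of_lt_of_le hε (min_le_left _ _)
  have hε2 : ‖ε‖ ≤ r := (lt_of_lt_of_le hε (min_le_right _ _)).le
  have h1 : ∫ t in (0 : ℝ)..(2 * Real.pi), (J ε t - J 0 t) = - I := by
    rw [intervalIntegral.integral_sub (hci ε hε2) (hci 0 (by simpa using hr.le)), h0, hIe, zero_sub]
  have h2 : ‖∫ t in (0 : ℝ)..(2 * Real.pi), (J ε t - J 0 t)‖ ≤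
      |I| / (2 * (2 * Real.pi)) * |2 * Real.pi - 0| := by
    apply intervalIntegral.norm_integral_le_of_norm_le_const
    intro t ht
    rw [Set.uIoc_of_le hpi.le] at ht
    have ht' : t ∈ Set.Icc (0 : ℝ) (2 * Real.pi) := ⟨ht.1.le, ht.2⟩
    have h3 := hd (ε, t) ⟨by simpa using hε2, ht'⟩ (0, t) ⟨by simpa using hr.le, ht'⟩ (by
      rw [Prod.dist_eq]
      simpa using hε1)
    rw [Real.dist_eq] at h3
    exact h3.le
  rw [h1, norm_neg, Real.norm_eq_abs, sub_zero, abs_of_pos hpi] at h2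
  have h3 : |I| / (2 * (2 * Real.pi)) * (2 * Real.pi) = |I| / 2 := by
    field_simp
  rw [h3] at h2
  linarith

namespace Dat

variable {D : Dat}

/-- the logarithmic derivative of `w` along a path -/
private theorem pa_deriv {ξ ω : ℝ → ℂ} (hξ : Differentiable ℝ ξ) (hω : Differentiable ℝ ω)
    (hp : ∀ t, D.Pt (ξ t) (ω t)) (t : ℝ) :
    deriv ω t / ω t = D.R.derivative.eval (ξ t) * deriv ξ t / (ω t - (ω t)⁻¹) := by
  have h1 : HasDerivAt ω (deriv ω t) t := (hω t).hasDerivAt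
  have h2 : HasDerivAt ξ (deriv ξ t) t := (hξ t).hasDerivAt
  have h3 : HasDerivAt (fun t => D.Q.eval (ξ t)) (D.Q.derivative.eval (ξ t) * deriv ξ t) t :=
    HasDerivAt.comp t (D.Q.hasDerivAt (ξ t)) h2
  have h4 : HasDerivAt (fun t => ω t ^ 2 - D.Q.eval (ξ t) * ω t + 1)
      (((2 : ℕ) : ℂ) * ω t ^ (2 - 1) * deriv ω t -
        (D.Q.derivative.eval (ξ t) * deriv ξ t * ω t + D.Q.eval (ξ t) * deriv ω t)) t :=
    ((h1.pow 2).sub (h3.mul h1)).add_const 1
  have h5 : (fun t => ω t ^ 2 - D.Q.eval (ξ t) * ω t + 1) = fun _ => 0 := by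
    funext s
    exact (hp s).2
  rw [h5] at h4
  have h6 := h4.unique (hasDerivAt_const t (0 : ℂ))
  have hQ : D.Q.derivative = D.R.derivative := by
    unfold Dat.Q
    rw [derivative_add, derivative_C, add_zero]
  rw [hQ, (hp t).Q_eq] at h6
  have hw := (hp t).w_ne
  have hs := (hp t).sub_inv_ne
  rw [div_eq_div_iff hw hs]
  norm_num at h6
  linear_combination h6

theorem Loop.shift {ξ ω : ℝ → ℂ} (h : D.Loop ξ ω)
    (hI : ∫ t in (0 : ℝ)..(2 * Real.pi), D.ρ ξ ω t ≠ 0) :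
    ∃ ε₀ > (0 : ℝ), ∀ ε : ℂ, ‖ε‖ < ε₀ → ∃ ω' : ℝ → ℂ, D.Loop (fun t => ξ t + ε) ω' ∧
      ∫ t in (0 : ℝ)..(2 * Real.pi), D.ρ (fun t => ξ t + ε) ω' t ≠ 0 := by
  have hpi : 0 < 2 * Real.pi := by positivity
  have cξ : Continuous ξ := h.cξ.continuous
  have cω : Continuous ω := h.cω.continuous
  have cdξ : Continuous (deriv ξ) := h.cξ.continuous_deriv (by norm_num)
  -- the ratio of the discriminants
  obtain ⟨G, hG⟩ : ∃ G : ℂ × ℝ → ℂ, G = fun p => D.Δ.eval (ξ p.2 + p.1) / D.Δ.eval (ξ p.2) := ⟨_, rfl⟩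
  have cG : Continuous G := by
    rw [hG]
    refine Continuous.div ?_ ?_ fun p => (h.pt p.2).Δ_ne
    · exact D.Δ.continuous.comp ((cξ.comp continuous_snd).add continuous_fst)
    · exact D.Δ.continuous.comp (cξ.comp continuous_snd)
  obtain ⟨U, hU⟩ : ∃ U : Set (ℂ × ℝ), U = {p | ξ p.2 + p.1 ∈ (D.S : Set ℂ)ᶜ ∧ G p ∈ Complex.slitPlane} :=
    ⟨_, rfl⟩
  have hUo : IsOpen U := by
    rw [hU]
    exact (D.isOpen_compl_S.preimage ((cξ.comp continuous_snd).add continuous_fst)).inter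
      (Complex.isOpen_slitPlane.preimage cG)
  have hU0 : ∀ t, ((0 : ℂ), t) ∈ U := by
    intro t
    rw [hU]
    refine ⟨?_, ?_⟩
    · show ξ t + 0 ∈ _
      rw [add_zero]
      simpa using (h.pt t).notMem
    · rw [hG]
      show D.Δ.eval (ξ t + 0) / D.Δ.eval (ξ t) ∈ _
      rw [add_zero, div_self (h.pt t).Δ_ne]
      exact Complex.one_mem_slitPlane
  obtain ⟨u, v, hu, -, hsu, hsv, huv⟩ := generalized_tube_lemma (isCompact_singleton (x := (0 : ℂ)))
    (isCompact_Icc (a := (0 : ℝ)) (b := 2 * Real.pi)) hUo (by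
      rintro ⟨x, t⟩ ⟨hx, -⟩
      rw [Set.mem_singleton_iff] at hx
      have hx' : x = 0 := hx
      rw [hx']
      exact hU0 t)
  obtain ⟨r1, hr1, hb1⟩ := Metric.isOpen_iff.1 hu 0 (hsu rfl)
  -- all t by periodicity
  have hper : ∀ ε : ℂ, ‖ε‖ < r1 → ∀ t, (ε, t) ∈ U := by
    intro ε hε t
    obtain ⟨s, hs, hst⟩ := h.pξ.exists_mem_Ico₀ hpi t
    have h1 : (ε, s) ∈ U := huv ⟨hb1 (by simpa using hε), hsv ⟨hs.1, hs.2.le⟩⟩
    rw [hU] at h1 ⊢
    rw [hG] at h1 ⊢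
    obtain ⟨h2, h3⟩ := h1
    refine ⟨?_, ?_⟩
    · show ξ t + ε ∈ _
      rw [hst]
      exact h2
    · show D.Δ.eval (ξ t + ε) / D.Δ.eval (ξ t) ∈ _
      rw [hst]
      exact h3
  -- the square root of the ratio
  obtain ⟨s, hs⟩ : ∃ s : ℂ × ℝ → ℂ, s = fun p => Complex.exp (Complex.log (G p) / 2) := ⟨_, rfl⟩
  have hs2 : ∀ p ∈ U, s p ^ 2 = G p := by
    intro p hp
    rw [hU] at hp
    rw [hs]
    show Complex.exp (Complex.log (G p) / 2) ^ 2 = G p
    rw [← Complex.exp_nat_mul]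
    have h1 : ((2 : ℕ) : ℂ) * (Complex.log (G p) / 2) = Complex.log (G p) := by
      push_cast
      ring
    rw [h1, Complex.exp_log (Complex.slitPlane_ne_zero hp.2)]
  have hsne : ∀ p, s p ≠ 0 := by
    intro p
    rw [hs]
    exact Complex.exp_ne_zero _
  have cs : ContinuousOn s U := by
    rw [hs]
    refine Complex.continuous_exp.comp_continuousOn ?_
    refine ContinuousOn.div_const ?_ 2
    refine ContinuousOn.clog cG.continuousOn fun p hp => ?_
    rw [hU] at hp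
    exact hp.2
  -- the new path
  obtain ⟨Ω, hΩ⟩ : ∃ Ω : ℂ → ℝ → ℂ, Ω = fun ε t =>
      (D.Q.eval (ξ t + ε) + (ω t - (ω t)⁻¹) * s (ε, t)) / 2 := ⟨_, rfl⟩
  have hΩs : ∀ ε t, 2 * Ω ε t - D.Q.eval (ξ t + ε) = (ω t - (ω t)⁻¹) * s (ε, t) := by
    intro ε t
    rw [hΩ]
    ring
  have hpt : ∀ ε t, (ε, t) ∈ U → D.Pt (ξ t + ε) (Ω ε t) := by
    intro ε t hεt
    have h1 := hs2 _ hεt
    have h2 := hΩs ε t
    rw [hU] at hεt
    have h3 : ((ω t - (ω t)⁻¹) * s (ε, t)) ^ 2 = D.Δ.eval (ξ t + ε) := by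
      rw [mul_pow, (h.pt t).disc, h1, hG]
      show D.Δ.eval (ξ t) * (D.Δ.eval (ξ t + ε) / D.Δ.eval (ξ t)) = _
      exact mul_div_cancel₀ _ (h.pt t).Δ_ne
    refine ⟨by simpa using hεt.1, ?_⟩
    rw [← h2, Dat.Δ_eval] at h3
    linear_combination h3 / 4
  have hΩ0 : ∀ t, Ω 0 t = ω t := by
    intro t
    rw [hΩ]
    show (D.Q.eval (ξ t + 0) + (ω t - (ω t)⁻¹) * s (0, t)) / 2 = ω t
    have h1 : s (0, t) = 1 := by
      rw [hs, hG]
      show Complex.exp (Complex.log (D.Δ.eval (ξ t + 0) / D.Δ.eval (ξ t)) / 2) = 1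
      rw [add_zero, div_self (h.pt t).Δ_ne, Complex.log_one, zero_div, Complex.exp_zero]
    rw [h1, add_zero, (h.pt t).Q_eq]
    ring
  have hΩinv : ∀ ε t, (ε, t) ∈ U → Ω ε t - (Ω ε t)⁻¹ = (ω t - (ω t)⁻¹) * s (ε, t) := by
    intro ε t hεt
    rw [← hΩs, (hpt ε t hεt).Q_eq]
    ring
  have hloop : ∀ ε : ℂ, ‖ε‖ < r1 → D.Loop (fun t => ξ t + ε) (Ω ε) := by
    intro ε hε
    have cξ' : ContDiff ℝ 2 (fun t => ξ t + ε) := h.cξ.add contDiff_const
    refine ⟨cξ', ?_, ?_, ?_, fun t => hpt ε t (hper ε hε t)⟩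
    · rw [hΩ]
      refine ContDiff.div_const (ContDiff.add (pa_poly D.Q cξ') (ContDiff.mul ?_ ?_)) 2
      · exact h.cω.sub (h.cω.inv fun t => (h.pt t).w_ne)
      · rw [hs, hG]
        refine ContDiff.cexp (ContDiff.div_const ?_ 2)
        rw [contDiff_iff_contDiffAt]
        intro t
        have h1 : ContDiff ℝ 2 fun t => D.Δ.eval (ξ t + ε) / D.Δ.eval (ξ t) := by
          simp only [div_eq_mul_inv]
          exact (pa_poly D.Δ cξ').mul ((pa_poly D.Δ h.cξ).inv fun t => (h.pt t).Δ_ne)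
        have h2 : D.Δ.eval (ξ t + ε) / D.Δ.eval (ξ t) ∈ Complex.slitPlane := by
          have h3 := hper ε hε t
          rw [hU, hG] at h3
          exact h3.2
        have h3 : ContDiffAt ℝ 2 Complex.log (D.Δ.eval (ξ t + ε) / D.Δ.eval (ξ t)) :=
          (Complex.contDiffAt_log h2).restrict_scalars ℝ
        exact h3.comp t h1.contDiffAt
    · intro t
      show ξ (t + 2 * Real.pi) + ε = ξ t + ε
      rw [h.pξ t]
    · intro t
      rw [hΩ, hs, hG]
      show (D.Q.eval (ξ (t + 2 * Real.pi) + ε) + (ω (t + 2 * Real.pi) - (ω (t + 2 * Real.pi))⁻¹) *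
        Complex.exp (Complex.log (D.Δ.eval (ξ (t + 2 * Real.pi) + ε) /
          D.Δ.eval (ξ (t + 2 * Real.pi))) / 2)) / 2 = _
      rw [h.pξ t, h.pω t]
  -- the integrand
  obtain ⟨J, hJ⟩ : ∃ J : ℂ → ℝ → ℝ, J = fun ε t =>
      D.Φ (ξ t + ε) * (D.R.derivative.eval (ξ t + ε) * deriv ξ t / ((ω t - (ω t)⁻¹) * s (ε, t))).im -
        Real.log ‖Ω ε t‖ * (D.F (ξ t + ε) * deriv ξ t).im := ⟨_, rfl⟩
  have hJρ : ∀ ε : ℂ, ‖ε‖ < r1 → ∀ t, D.ρ (fun t => ξ t + ε) (Ω ε) t = J ε t := by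
    intro ε hε t
    have hl := hloop ε hε
    have h1 := pa_deriv (hl.cξ.differentiable (by norm_num)) (hl.cω.differentiable (by norm_num)) hl.pt t
    have h2 : deriv (fun t => ξ t + ε) t = deriv ξ t := deriv_add_const ε
    rw [h2] at h1
    unfold Dat.ρ
    rw [h1, h2, hΩinv ε t (hper ε hε t), hJ]
  have hI0 : ∫ t in (0 : ℝ)..(2 * Real.pi), J 0 t ≠ 0 := by
    have h1 : (fun t => J 0 t) = fun t => D.ρ ξ ω t := by
      funext t
      rw [← hJρ 0 (by simpa using hr1) t]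
      have h2 : (fun t => ξ t + 0) = ξ := by
        funext t
        rw [add_zero]
      have h3 : Ω 0 = ω := funext hΩ0
      rw [h2, h3]
    rw [h1]
    exact hI
  have hcJ : ContinuousOn (fun p : ℂ × ℝ => J p.1 p.2)
      (Metric.closedBall 0 (r1 / 2) ×ˢ Set.Icc 0 (2 * Real.pi)) := by
    have hsub : Metric.closedBall (0 : ℂ) (r1 / 2) ×ˢ Set.Icc (0 : ℝ) (2 * Real.pi) ⊆ U := by
      rintro ⟨ε, t⟩ ⟨h1, -⟩
      have h2 : ‖ε‖ ≤ r1 / 2 := by simpa using h1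
      exact hper ε (by linarith) t
    refine ContinuousOn.mono ?_ hsub
    have hcx : Continuous fun p : ℂ × ℝ => ξ p.2 + p.1 := (cξ.comp continuous_snd).add continuous_fst
    have hne : ∀ p ∈ U, ∀ i, ξ p.2 + p.1 - D.a i ≠ 0 := by
      intro p hp i
      rw [hU] at hp
      exact D.sub_a_ne (by simpa using hp.1) i
    have hcw : Continuous fun p : ℂ × ℝ => ω p.2 - (ω p.2)⁻¹ :=
      (cω.comp continuous_snd).sub ((cω.comp continuous_snd).inv₀ fun p => (h.pt p.2).w_ne)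
    have hcd : Continuous fun p : ℂ × ℝ => deriv ξ p.2 := cdξ.comp continuous_snd
    have hcs : ContinuousOn (fun p : ℂ × ℝ => s (p.1, p.2)) U := cs
    rw [hJ]
    refine ContinuousOn.sub (ContinuousOn.mul ?_ ?_) (ContinuousOn.mul ?_ ?_)
    · unfold Dat.Φ
      refine continuousOn_finsetSum _ fun i _ => ?_
      refine ContinuousOn.mul continuousOn_const ?_
      refine ContinuousOn.log ?_ fun p hp => norm_ne_zero_iff.2 (hne p hp i)
      exact (hcx.sub continuous_const).norm.continuousOn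
    · refine Complex.continuous_im.comp_continuousOn ?_
      refine ContinuousOn.div ?_ ?_ ?_
      · exact ((D.R.derivative.continuous.comp hcx).mul hcd).continuousOn
      · exact hcw.continuousOn.mul hcs
      · intro p _
        exact mul_ne_zero (h.pt p.2).sub_inv_ne (hsne _)
    · refine ContinuousOn.log ?_ fun p hp => norm_ne_zero_iff.2 (hpt p.1 p.2 hp).w_ne
      refine ContinuousOn.norm ?_
      rw [hΩ]
      refine ContinuousOn.div_const (ContinuousOn.add ?_ (hcw.continuousOn.mul hcs)) 2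
      exact (D.Q.continuous.comp hcx).continuousOn
    · refine Complex.continuous_im.comp_continuousOn ?_
      refine ContinuousOn.mul ?_ hcd.continuousOn
      unfold Dat.F
      refine continuousOn_finsetSum _ fun i _ => ?_
      exact ContinuousOn.div continuousOn_const (hcx.sub continuous_const).continuousOn
        fun p hp => hne p hp i
  obtain ⟨ε₀, hε₀, hle, hfin⟩ := pa_int J (by linarith : (0 : ℝ) < r1 / 2) hcJ hI0
  refine ⟨ε₀, hε₀, fun ε hε => ⟨Ω ε, hloop ε (by linarith), ?_⟩⟩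
  have h1 : (fun t => D.ρ (fun t => ξ t + ε) (Ω ε) t) = fun t => J ε t :=
    funext fun t => hJρ ε (by linarith) t
  rw [h1]
  exact hfin ε hε

end Dat

end Pool.Agent.RHE
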