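import Mathlib

/-! # RHE-PerB (Mathlib only): a small translation of a `C¹` curve avoids all algebraic numbers

PLAN. For an algebraic number `α` the set `{α - ξ t}` is the range of a `C¹` map `ℝ → ℂ`, so its Hausdorff
dimension is at most `1` (`ContDiff.dimH_range_le`); the algebraic numbers are countable
(`Algebraic.countable ℚ ℂ`), so the union has `dimH ≤ 1 < 2` (`dimH_iUnion`, `dimH_bUnion`,
`Complex.finrank_real_complex`), so its complement is dense (`dense_compl_of_dimH_lt_finrank`); take `ε` in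
the complement with `‖ε‖ < ε₀`. `Transcendental ℚ y` is `¬ IsAlgebraic ℚ y`. -/

namespace Pool.Agent.RHE

theorem exists_shift {ξ : ℝ → ℂ} (hξ : ContDiff ℝ 1 ξ) {ε₀ : ℝ} (h : 0 < ε₀) :
    ∃ ε : ℂ, ‖ε‖ < ε₀ ∧ ∀ t, Transcendental ℚ (ξ t + ε) := by
  have hA : ({a : ℂ | IsAlgebraic ℚ a}).Countable := Algebraic.countable ℚ ℂ
  have hdim : dimH (⋃ a ∈ {a : ℂ | IsAlgebraic ℚ a}, Set.range fun t => a - ξ t) <
      (Module.finrank ℝ ℂ : ENNReal) := by
    rw [dimH_bUnion hA]
    refine lt_of_le_of_lt (b := 1) ?_ ?_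
    · refine iSup₂_le fun a _ => ?_
      have h1 : ContDiff ℝ 1 (fun t => a - ξ t) := contDiff_const.sub hξ
      have h2 := h1.dimH_range_le
      rw [Module.finrank_self] at h2
      exact_mod_cast h2
    · rw [Complex.finrank_real_complex]
      norm_num
  have hd := dense_compl_of_dimH_lt_finrank hdim
  obtain ⟨ε, hε, hε'⟩ := hd.exists_dist_lt 0 h
  refine ⟨ε, ?_, fun t hal => hε ?_⟩
  · rw [dist_comm, dist_zero_right] at hε'
    exact hε'
  · rw [Set.mem_iUnion₂]
    exact ⟨ξ t + ε, hal, t, by simp⟩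

end Pool.Agent.RHE
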