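import Pool.Agent.RHE.Core
import Pool.Agent.RHE.PerA
import Pool.Agent.RHE.PerB
import Pool.Agent.RHE.Nod

/-! Output of the analytic block of project RHE. -/

namespace Pool.Agent.RHE

namespace Dat

/-- **Output.** There is a twice continuously differentiable loop on the curve, with transcendental
`x`-coordinates, along which the regulator of `∑ z i {x - a i, w}` is not zero. -/
theorem an (D : Dat) (hG : D.Good) : ∃ ξ ω : ℝ → ℂ, D.Loop ξ ω ∧ (∀ t, Transcendental ℚ (ξ t)) ∧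
    ∫ t in (0 : ℝ)..(2 * Real.pi), D.ρ ξ ω t ≠ 0 := by
  have h := D.not_loopsZero hG
  unfold LoopsZero at h
  push Not at h
  obtain ⟨ξ, ω, hl, hI⟩ := h
  obtain ⟨ε₀, hε₀, h1⟩ := hl.shift hI
  obtain ⟨ε, hε, ht⟩ := exists_shift (hl.cξ.of_le (by norm_num)) hε₀
  obtain ⟨ω', hl', hI'⟩ := h1 ε hε
  exact ⟨fun t => ξ t + ε, ω', hl', ht, hI'⟩

end Dat

end Pool.Agent.RHE
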