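import Mathlib

/-! # RHE-Lin (Mathlib only): finitely many functionals suffice

PLAN. Let `A = span ℝ (range v) ≤ (Fin r → ℝ)`, and `A' = {y | ∀ γ, ∑ i, y i * v γ i = 0}`. `dim A + dim A' = r`
(e.g. `A'` is the kernel of the map to the dual of `A`, or `dualAnnihilator`/`Matrix` rank-nullity for a finite
matrix). By `hN`, `A' ∩ ker N = 0` where `N y = (N k y)_k : (Fin r → ℝ) → (Fin d → ℝ)`, so `dim A' ≤ d`, so
`dim A ≥ r - d`. Choose `γ : Fin n → Γ` such that `v (γ j)` is a basis of `A` (`exists_linearIndependent`,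
`Submodule.exists_fun_fin_finrank_span_eq` or similar), `n = dim A`. The matrix `M i j = v (γ j) i` has
column rank `n`, so row rank `n`: `finrank (span (range fun i j => v (γ j) i)) = n`
(`Matrix.rank_transpose`, `Matrix.rank_eq_finrank_span_row/cols`). -/

namespace Pool.Agent.RHE

theorem exists_finite_family {r d : ℕ} {Γ : Type*} (v : Γ → Fin r → ℝ)
    (N : Fin d → ((Fin r → ℝ) →ₗ[ℝ] ℝ))
    (hN : ∀ y : Fin r → ℝ, y ≠ 0 → (∀ k, N k y = 0) → ∃ γ, ∑ i, y i * v γ i ≠ 0) :
    ∃ (n : ℕ) (γ : Fin n → Γ),
      r ≤ Module.finrank ℝ (Submodule.span ℝ (Set.range fun (i : Fin r) (j : Fin n) => v (γ j) i)) + d := by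
  obtain ⟨f, hf1, hf2, -⟩ := Submodule.exists_fun_fin_finrank_span_eq ℝ (Set.range v)
  choose γ hγ using hf1
  refine ⟨_, γ, ?_⟩
  have h0 := LinearMap.finrank_range_add_finrank_ker
    (Fintype.linearCombination ℝ (fun (i : Fin r) j => v (γ j) i))
  rw [Fintype.range_linearCombination, Module.finrank_fin_fun] at h0
  have h1 : Module.finrank ℝ (LinearMap.ker (Fintype.linearCombination ℝ (fun (i : Fin r) j => v (γ j) i))) ≤ d := by
    have h2 : Function.Injective ((LinearMap.pi N).comp
        (LinearMap.ker (Fintype.linearCombination ℝ (fun (i : Fin r) j => v (γ j) i))).subtype) := by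
      rw [← LinearMap.ker_eq_bot, LinearMap.ker_eq_bot']
      rintro ⟨y, hy⟩ hy2
      have hy3 : ∀ k, N k y = 0 := fun k => congrFun hy2 k
      by_contra hne
      have hy0 : y ≠ 0 := fun h => hne (Subtype.ext h)
      obtain ⟨g, hg⟩ := hN y hy0 hy3
      apply hg
      have h3 : Submodule.span ℝ (Set.range v) ≤ LinearMap.ker (Fintype.linearCombination ℝ y) := by
        rw [← hf2, Submodule.span_le]
        rintro _ ⟨j, rfl⟩
        have h4 := congrFun (LinearMap.mem_ker.1 hy) j
        rw [Fintype.linearCombination_apply, Finset.sum_apply] at h4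
        show Fintype.linearCombination ℝ y (f j) = 0
        rw [Fintype.linearCombination_apply, ← hγ j]
        refine (Finset.sum_congr rfl fun i _ => ?_).trans h4
        show v (γ j) i • y i = y i • v (γ j) i
        rw [smul_eq_mul, smul_eq_mul, mul_comm]
      have h5 := h3 (Submodule.subset_span ⟨g, rfl⟩)
      rw [LinearMap.mem_ker, Fintype.linearCombination_apply] at h5
      rw [← h5]
      refine Finset.sum_congr rfl fun i _ => ?_
      rw [smul_eq_mul, mul_comm]
    have h6 := LinearMap.finrank_le_finrank_of_injective h2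
    rwa [Module.finrank_fin_fun] at h6
  omega

end Pool.Agent.RHE
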