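import Pool.Agent.RHE.Lam

/-! # RHE-AsyA: estimates near `a i`

PLAN. Write `t = ‖x - a i‖`, `n = e i ≥ 1`. Near `a i`:
* `R = (x - a i)^n R₁`, `R₁(a i) ≠ 0` (product over `j ≠ i`), so `c₁ t^n ≤ ‖R‖ ≤ C₁ t^n ≤ C₁ t` and
  `‖R'‖ ≤ C₂ t^(n-1)` (product rule);
* `‖F‖ ≤ C₃/t`, `|Φ| ≤ C₄ (1 + |log t|)`;
* `‖Q‖ ≤ C₅`; `|log‖w‖| ≤ C₆ √‖R‖ ≤ C₇ t^(n/2)` (`Pt.log_le_sqrt`);
* `Δ = (Q - 2)(Q + 2)`, `Q(a i) = κ`. If `|κ| < 2`, `‖Δ‖ ≥ c₈ > 0`. If `κ = ±2`, `Δ = R (R ± 4)`, `‖Δ‖ ≥ c₈ ‖R‖`. In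
  all cases `‖Δ‖ ≥ c₉ ‖R‖`, and `‖Δ‖ ≥ c₉ t^n`.
So `gN = ‖R‖ ‖F‖/√‖Δ‖ ≤ C √‖R‖ ‖F‖ ≤ C t^(n/2 - 1) ≤ C t^(-1/2)`; `|log‖w‖ Φ| ≤ C t^(1/2) (1 + |log t|) ≤ C`;
`|Φ| ‖R'‖/√‖Δ‖ ≤ C (1 + |log t|) t^(n - 1 - n/2) ≤ C (1 + |log t|) t^(-1/2) ≤ C t^(-3/4)`;
`|log‖w‖| ‖F‖ ≤ C t^(n/2 - 1)`. Use `t < 1`. (`|log t| ≤ 4 t^(-1/4)`: `Real.abs_log_mul_self_rpow_lt` or
`Real.add_one_le_exp`.) `x ∉ S`: `S` is finite, so the punctured ball avoids it. -/

namespace Pool.Agent.RHE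

open Polynomial Filter Topology

/-- the auxiliary variable `u = t ^ (-1/4)` -/
private theorem asyA_u {t : ℝ} (h0 : 0 < t) (h1 : t < 1) : ∃ u : ℝ, 1 ≤ u ∧ t * u ^ 4 = 1 ∧
    √t * u ^ 2 = 1 ∧ t ^ (-(3 / 4) : ℝ) = u ^ 3 ∧ 1 + |Real.log t| ≤ 4 * u := by
  refine ⟨t ^ (-(1 / 4) : ℝ), ?_, ?_, ?_, ?_, ?_⟩
  · exact Real.one_le_rpow_of_pos_of_le_one_of_nonpos h0 h1.le (by norm_num)
  · rw [← Real.rpow_natCast, ← Real.rpow_mul h0.le]
    nth_rewrite 1 [← Real.rpow_one t]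
    rw [← Real.rpow_add h0]
    norm_num
  · rw [Real.sqrt_eq_rpow, ← Real.rpow_natCast, ← Real.rpow_mul h0.le, ← Real.rpow_add h0]
    norm_num
  · rw [← Real.rpow_natCast, ← Real.rpow_mul h0.le]
    norm_num
  · have hu : 0 < t ^ (-(1 / 4) : ℝ) := Real.rpow_pos_of_pos h0 _
    have h2 := Real.log_le_sub_one_of_pos hu
    rw [Real.log_rpow h0] at h2
    rw [abs_of_neg (Real.log_neg h0 h1)]
    linarith

namespace Dat

variable (D : Dat)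

/-- the cofactor of `(X - a i) ^ e i` -/
private noncomputable def asyA_R₁ (i : Fin D.r) : ℂ[X] :=
  C D.c * ∏ j ∈ Finset.univ.erase i, (X - C (D.a j)) ^ D.e j

private theorem asyA_R (i : Fin D.r) : D.R = (X - C (D.a i)) ^ D.e i * D.asyA_R₁ i := by
  classical
  rw [R, asyA_R₁, ← Finset.mul_prod_erase Finset.univ _ (Finset.mem_univ i)]
  ring

private theorem asyA_R₁_ne (i : Fin D.r) : (D.asyA_R₁ i).eval (D.a i) ≠ 0 := by
  classical
  rw [asyA_R₁, eval_mul, eval_C, eval_prod]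
  refine mul_ne_zero D.hc (Finset.prod_ne_zero_iff.2 fun j hj => ?_)
  simp only [eval_pow, eval_sub, eval_X, eval_C]
  refine pow_ne_zero _ (sub_ne_zero.2 fun h => ?_)
  exact (Finset.ne_of_mem_erase hj) (D.ha h).symm

private theorem asyA_bdd {f : ℂ → ℂ} {a : ℂ} (h : ContinuousAt f a) : ∀ᶠ x in 𝓝 a, ‖f x‖ ≤ ‖f a‖ + 1 := by
  have := h.norm.eventually_lt (continuousAt_const (y := ‖f a‖ + 1)) (by linarith)
  filter_upwards [this] with x hx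
  exact hx.le

private theorem asyA_low {f : ℂ → ℂ} {a : ℂ} (h : ContinuousAt f a) (h0 : f a ≠ 0) :
    ∀ᶠ x in 𝓝 a, ‖f a‖ / 2 ≤ ‖f x‖ := by
  have := (continuousAt_const (y := ‖f a‖ / 2)).eventually_lt h.norm (by
    have := norm_pos_iff.2 h0
    linarith)
  filter_upwards [this] with x hx
  exact hx.le

private theorem asyA_Δ (i : Fin D.r) : ∃ c₉ : ℝ, 0 < c₉ ∧ ∀ᶠ x in 𝓝 (D.a i),
    c₉ * ‖D.R.eval x‖ ≤ ‖D.Δ.eval x‖ := by
  have hRa : D.R.eval (D.a i) = 0 := D.R_eval_eq_zero.2 ⟨i, rfl⟩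
  have hR1 : ∀ᶠ x in 𝓝 (D.a i), ‖D.R.eval x‖ < 1 := by
    have := (D.R.continuous.continuousAt (x := D.a i)).norm.eventually_lt
      (continuousAt_const (y := (1 : ℝ))) (by rw [hRa]; simp)
    exact this
  by_cases hκ : |D.κ| = 2
  · refine ⟨3, by norm_num, ?_⟩
    filter_upwards [hR1] with x hx
    have hk2 : (D.κ : ℂ) ^ 2 = 4 := by
      have : D.κ ^ 2 = 4 := by rw [← sq_abs, hκ]; norm_num
      exact_mod_cast this
    have e : D.Δ.eval x = (D.R.eval x) * (D.R.eval x + 2 * D.κ) := by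
      rw [D.Δ_eval, D.Q_eval]
      linear_combination hk2
    have h2 : ‖(2 * D.κ : ℂ)‖ = 4 := by
      rw [norm_mul, Complex.norm_real, Real.norm_eq_abs, hκ]
      norm_num
    have h3 : 3 ≤ ‖D.R.eval x + 2 * D.κ‖ := by
      have h4 : ‖(2 * D.κ : ℂ)‖ ≤ ‖D.R.eval x + 2 * D.κ‖ + ‖D.R.eval x‖ := by
        have : (2 * D.κ : ℂ) = (D.R.eval x + 2 * D.κ) - D.R.eval x := by ring
        conv_lhs => rw [this]
        exact norm_sub_le _ _
      rw [h2] at h4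
      linarith
    rw [e, norm_mul, mul_comm]
    exact mul_le_mul_of_nonneg_left h3 (norm_nonneg _)
  · have hlt : |D.κ| < 2 := lt_of_le_of_ne D.hκ hκ
    have hΔa : D.Δ.eval (D.a i) ≠ 0 := by
      rw [D.Δ_eval, D.Q_eval, hRa, zero_add]
      intro h
      have h1 : D.κ ^ 2 - 4 = 0 := by exact_mod_cast h
      have h2 : |D.κ| ^ 2 < 2 ^ 2 := pow_lt_pow_left₀ hlt (abs_nonneg _) (by norm_num)
      rw [sq_abs] at h2
      linarith
    refine ⟨‖D.Δ.eval (D.a i)‖ / 2, by have := norm_pos_iff.2 hΔa; positivity, ?_⟩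
    filter_upwards [hR1, asyA_low (D.Δ.continuous.continuousAt (x := D.a i)) hΔa] with x hx hx2
    calc ‖D.Δ.eval (D.a i)‖ / 2 * ‖D.R.eval x‖ ≤ ‖D.Δ.eval (D.a i)‖ / 2 * 1 := by gcongr
      _ ≤ _ := by rw [mul_one]; exact hx2

private theorem asyA_F (i : Fin D.r) : ∃ C₃ : ℝ, 0 ≤ C₃ ∧ ∀ᶠ x in 𝓝 (D.a i), x ≠ D.a i →
    ‖x - D.a i‖ < 1 → ‖D.F x‖ * ‖x - D.a i‖ ≤ C₃ := by
  classical
  set F₂ : ℂ → ℂ := fun x => ∑ j ∈ Finset.univ.erase i, (D.z j : ℂ) / (x - D.a j) with hF₂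
  have hc : ContinuousAt F₂ (D.a i) := by
    refine tendsto_finsetSum _ fun j hj => ?_
    have hj' : D.a i - D.a j ≠ 0 := sub_ne_zero.2 fun h => (Finset.ne_of_mem_erase hj) (D.ha h).symm
    exact ContinuousAt.div continuousAt_const (continuousAt_id.sub continuousAt_const) hj'
  refine ⟨|D.z i| + (‖F₂ (D.a i)‖ + 1), by positivity, ?_⟩
  filter_upwards [asyA_bdd hc] with x hx hne ht
  have hx0 : 0 < ‖x - D.a i‖ := norm_pos_iff.2 (sub_ne_zero.2 hne)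
  have e : D.F x = (D.z i : ℂ) / (x - D.a i) + F₂ x := by
    rw [F, hF₂, ← Finset.add_sum_erase Finset.univ _ (Finset.mem_univ i)]
  have h1 : ‖D.F x‖ ≤ |D.z i| / ‖x - D.a i‖ + (‖F₂ (D.a i)‖ + 1) := by
    rw [e]
    refine (norm_add_le _ _).trans ?_
    rw [norm_div, Complex.norm_real, Real.norm_eq_abs]
    gcongr
  calc ‖D.F x‖ * ‖x - D.a i‖ ≤ (|D.z i| / ‖x - D.a i‖ + (‖F₂ (D.a i)‖ + 1)) * ‖x - D.a i‖ := by gcongr
    _ = |D.z i| + (‖F₂ (D.a i)‖ + 1) * ‖x - D.a i‖ := by field_simp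
    _ ≤ |D.z i| + (‖F₂ (D.a i)‖ + 1) * 1 := by gcongr
    _ = _ := by ring

private theorem asyA_Φ (i : Fin D.r) : ∃ C₄ : ℝ, 0 ≤ C₄ ∧ ∀ᶠ x in 𝓝 (D.a i),
    |D.Φ x| ≤ C₄ * (1 + |Real.log ‖x - D.a i‖|) := by
  classical
  set Φ₂ : ℂ → ℝ := fun x => ∑ j ∈ Finset.univ.erase i, D.z j * Real.log ‖x - D.a j‖ with hΦ₂
  have hc : ContinuousAt Φ₂ (D.a i) := by
    refine tendsto_finsetSum _ fun j hj => ?_
    have hj' : D.a i - D.a j ≠ 0 := sub_ne_zero.2 fun h => (Finset.ne_of_mem_erase hj) (D.ha h).symm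
    have h1 : ContinuousAt (fun x : ℂ => ‖x - D.a j‖) (D.a i) :=
      (continuousAt_id.sub continuousAt_const).norm
    exact (continuousAt_const.mul (h1.log (norm_ne_zero_iff.2 hj')))
  have hb : ∀ᶠ x in 𝓝 (D.a i), |Φ₂ x| < |Φ₂ (D.a i)| + 1 :=
    hc.abs.eventually_lt (continuousAt_const (y := |Φ₂ (D.a i)| + 1)) (by linarith)
  refine ⟨|D.z i| + (|Φ₂ (D.a i)| + 1), by positivity, ?_⟩
  filter_upwards [hb] with x hx
  have e : D.Φ x = D.z i * Real.log ‖x - D.a i‖ + Φ₂ x := by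
    rw [Φ, hΦ₂, ← Finset.add_sum_erase Finset.univ _ (Finset.mem_univ i)]
  rw [e]
  refine (abs_add_le _ _).trans ?_
  rw [abs_mul]
  have h1 := abs_nonneg (Real.log ‖x - D.a i‖)
  have h2 := abs_nonneg (D.z i)
  have h3 := abs_nonneg (Φ₂ (D.a i))
  nlinarith [mul_nonneg h3 h1]

theorem asyA (i : Fin D.r) : ∃ C : ℝ, ∃ δ > (0 : ℝ), ∀ x : ℂ, 0 < ‖x - D.a i‖ →
    ‖x - D.a i‖ < δ → x ∉ D.S ∧ ∀ w, D.Pt x w →
      (1 + |Real.log ‖w‖ * D.Φ x|) * D.gN x ≤ C * ‖x - D.a i‖ ^ (-(3 / 4) : ℝ) ∧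
      D.rN x w ≤ C * ‖x - D.a i‖ ^ (-(3 / 4) : ℝ) := by
  obtain ⟨c₉, hc₉, hΔ⟩ := D.asyA_Δ i
  obtain ⟨C₃, hC₃, hF⟩ := D.asyA_F i
  obtain ⟨C₄, hC₄, hΦ⟩ := D.asyA_Φ i
  set R₁ := D.asyA_R₁ i with hR₁
  set n := D.e i with hn
  have hn1 : 1 ≤ n := D.he i
  have hRe : D.R = (X - C (D.a i)) ^ n * R₁ := D.asyA_R i
  have hR₁0 : R₁.eval (D.a i) ≠ 0 := D.asyA_R₁_ne i
  set m₁ := ‖R₁.eval (D.a i)‖ / 2 with hm₁
  have hm₁0 : 0 < m₁ := by have := norm_pos_iff.2 hR₁0; positivity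
  set M₁ := ‖R₁.eval (D.a i)‖ + 1 with hM₁
  have hM₁0 : 0 < M₁ := by positivity
  set M₂ := ‖R₁.derivative.eval (D.a i)‖ + 1 with hM₂
  have hM₂0 : 0 < M₂ := by positivity
  set C₅ := ‖D.Q.eval (D.a i)‖ + 1 with hC₅
  have hC₅0 : 0 < C₅ := by positivity
  -- the constants
  set G := √M₁ * C₃ / √c₉ with hG
  have hG0 : 0 ≤ G := by positivity
  set Lc := (C₅ + 1) ^ 2 * √M₁ with hLc
  have hLc0 : 0 ≤ Lc := by positivity
  set C₂ := n * M₁ + M₂ with hC₂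
  have hC₂0 : 0 ≤ C₂ := by positivity
  set C' := (1 + 4 * Lc * C₄) * G + (4 * C₄ * C₂ / (√c₉ * √m₁) + Lc * C₃) with hC'
  have main : ∀ᶠ x in 𝓝 (D.a i), x ≠ D.a i → x ∉ D.S ∧ ∀ w, D.Pt x w →
      (1 + |Real.log ‖w‖ * D.Φ x|) * D.gN x ≤ C' * ‖x - D.a i‖ ^ (-(3 / 4) : ℝ) ∧
      D.rN x w ≤ C' * ‖x - D.a i‖ ^ (-(3 / 4) : ℝ) := by
    have hball : ∀ᶠ x in 𝓝 (D.a i), ‖x - D.a i‖ < 1 := by
      have := Metric.ball_mem_nhds (D.a i) (zero_lt_one (α := ℝ))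
      filter_upwards [this] with x hx
      rwa [Metric.mem_ball, dist_eq_norm] at hx
    filter_upwards [hΔ, hF, hΦ, hball, asyA_bdd (R₁.continuous.continuousAt (x := D.a i)),
      asyA_low (R₁.continuous.continuousAt (x := D.a i)) hR₁0,
      asyA_bdd (R₁.derivative.continuous.continuousAt (x := D.a i)),
      asyA_bdd (D.Q.continuous.continuousAt (x := D.a i))] with x hΔx hFx hΦx hx1 hxM₁ hxm₁ hxM₂ hxQ hne
    set t := ‖x - D.a i‖ with ht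
    have ht0 : 0 < t := norm_pos_iff.2 (sub_ne_zero.2 hne)
    obtain ⟨u, hu1, hu4, hu2, hu3, hulog⟩ := asyA_u ht0 hx1
    have hu0 : 0 < u := by linarith
    have hRx : ‖D.R.eval x‖ = t ^ n * ‖R₁.eval x‖ := by
      rw [hRe, eval_mul, eval_pow, norm_mul, norm_pow]
      simp [ht]
    have hR1pos : 0 < ‖R₁.eval x‖ := lt_of_lt_of_le hm₁0 hxm₁
    have hRpos : 0 < ‖D.R.eval x‖ := by
      rw [hRx]
      positivity
    have hΔpos : 0 < ‖D.Δ.eval x‖ := lt_of_lt_of_le (mul_pos hc₉ hRpos) hΔx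
    have htn : t ^ n ≤ t := by
      calc t ^ n ≤ t ^ 1 := pow_le_pow_of_le_one ht0.le hx1.le hn1
        _ = t := pow_one t
    refine ⟨D.notMem_S.2 ⟨norm_pos_iff.1 hRpos, norm_pos_iff.1 hΔpos⟩, fun w hw => ?_⟩
    -- bounds
    have hsR : √‖D.R.eval x‖ ≤ √M₁ * √t := by
      rw [← Real.sqrt_mul hM₁0.le]
      apply Real.sqrt_le_sqrt
      rw [hRx]
      calc t ^ n * ‖R₁.eval x‖ ≤ t * M₁ := by gcongr
        _ = M₁ * t := mul_comm _ _
    have hsΔ : √c₉ * √‖D.R.eval x‖ ≤ √‖D.Δ.eval x‖ := by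
      rw [← Real.sqrt_mul hc₉.le]
      exact Real.sqrt_le_sqrt hΔx
    have hsRpos : 0 < √‖D.R.eval x‖ := Real.sqrt_pos.2 hRpos
    have hsc : 0 < √c₉ := Real.sqrt_pos.2 hc₉
    have hsm : 0 < √m₁ := Real.sqrt_pos.2 hm₁0
    have hsΔpos : 0 < √‖D.Δ.eval x‖ := Real.sqrt_pos.2 hΔpos
    have hst : √t = 1 / u ^ 2 := by
      rw [eq_div_iff (by positivity)]
      exact hu2
    have htu : t = 1 / u ^ 4 := by
      rw [eq_div_iff (by positivity)]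
      exact hu4
    have hFu : ‖D.F x‖ ≤ C₃ * u ^ 4 := by
      have h1 := hFx hne hx1
      have h2 : ‖D.F x‖ = ‖D.F x‖ * t * u ^ 4 := by
        rw [mul_assoc, hu4, mul_one]
      rw [h2]
      gcongr
    have hgN : D.gN x ≤ G * u ^ 2 := by
      have h1 : D.gN x ≤ √‖D.R.eval x‖ * ‖D.F x‖ / √c₉ := by
        rw [gN, div_le_div_iff₀ hsΔpos hsc]
        calc ‖D.R.eval x‖ * ‖D.F x‖ * √c₉ = (√‖D.R.eval x‖ * ‖D.F x‖) * (√c₉ * √‖D.R.eval x‖) := by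
              nth_rewrite 1 [← Real.mul_self_sqrt (norm_nonneg (D.R.eval x))]
              ring
          _ ≤ (√‖D.R.eval x‖ * ‖D.F x‖) * √‖D.Δ.eval x‖ := by gcongr
      calc D.gN x ≤ √‖D.R.eval x‖ * ‖D.F x‖ / √c₉ := h1
        _ ≤ (√M₁ * √t) * (C₃ * u ^ 4) / √c₉ := by gcongr
        _ = G * u ^ 2 := by
            rw [hst, hG]
            field_simp
    have hgN0 : 0 ≤ D.gN x := by
      rw [gN]
      positivity
    have hlog : |Real.log ‖w‖| ≤ Lc * √t := by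
      calc |Real.log ‖w‖| ≤ (‖D.Q.eval x‖ + 1) ^ 2 * √‖D.R.eval x‖ := hw.log_le_sqrt
        _ ≤ (C₅ + 1) ^ 2 * (√M₁ * √t) := by gcongr
        _ = Lc * √t := by rw [hLc]; ring
    have hΦu : |D.Φ x| ≤ 4 * C₄ * u := by
      calc |D.Φ x| ≤ C₄ * (1 + |Real.log t|) := hΦx
        _ ≤ C₄ * (4 * u) := by gcongr
        _ = 4 * C₄ * u := by ring
    have hlogΦ : |Real.log ‖w‖ * D.Φ x| ≤ 4 * Lc * C₄ := by
      rw [abs_mul]
      calc |Real.log ‖w‖| * |D.Φ x| ≤ (Lc * √t) * (4 * C₄ * u) := by gcongr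
        _ = 4 * Lc * C₄ * (1 / u) := by
            rw [hst]
            field_simp
        _ ≤ 4 * Lc * C₄ * 1 := by
            gcongr
            rw [div_le_one hu0]
            exact hu1
        _ = _ := mul_one _
    have hu23 : u ^ 2 ≤ u ^ 3 := pow_le_pow_right₀ hu1 (by norm_num)
    rw [hu3]
    constructor
    · calc (1 + |Real.log ‖w‖ * D.Φ x|) * D.gN x ≤ (1 + 4 * Lc * C₄) * (G * u ^ 2) := by gcongr
        _ = ((1 + 4 * Lc * C₄) * G) * u ^ 2 := by ring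
        _ ≤ ((1 + 4 * Lc * C₄) * G) * u ^ 3 := by gcongr
        _ ≤ C' * u ^ 3 := by
            gcongr
            rw [hC']
            have : 0 ≤ 4 * C₄ * C₂ / (√c₉ * √m₁) + Lc * C₃ := by positivity
            linarith
    · -- the derivative
      have hder : ‖D.R.derivative.eval x‖ * t ≤ C₂ * t ^ n := by
        have e : D.R.derivative.eval x * (x - D.a i) =
            (x - D.a i) ^ n * (n * R₁.eval x + (x - D.a i) * R₁.derivative.eval x) := by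
          obtain ⟨k, hk⟩ : ∃ k, n = k + 1 := ⟨n - 1, by omega⟩
          rw [hRe, hk]
          simp only [derivative_mul, derivative_pow, derivative_sub, derivative_X, derivative_C,
            eval_add, eval_mul, eval_pow, eval_sub, eval_X, eval_C, sub_zero, mul_one,
            Nat.add_sub_cancel, eval_natCast, map_natCast]
          push_cast
          ring
        have e2 : ‖D.R.derivative.eval x‖ * t = ‖D.R.derivative.eval x * (x - D.a i)‖ := by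
          rw [norm_mul]
        rw [e2, e, norm_mul, norm_pow, mul_comm]
        refine mul_le_mul_of_nonneg_right ?_ (by positivity)
        refine (norm_add_le _ _).trans ?_
        rw [norm_mul, norm_mul, Complex.norm_natCast, hC₂]
        have h3 : ‖x - D.a i‖ * ‖R₁.derivative.eval x‖ ≤ 1 * M₂ := by gcongr
        have h4 : (n : ℝ) * ‖R₁.eval x‖ ≤ n * M₁ := by gcongr
        linarith
      have hquot : ‖D.R.derivative.eval x‖ / √‖D.Δ.eval x‖ ≤ C₂ / (√c₉ * √m₁) * u ^ 2 := by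
        have h5 : √c₉ * (√m₁ * √(t ^ n)) ≤ √‖D.Δ.eval x‖ := by
          refine le_trans ?_ hsΔ
          have : √m₁ * √(t ^ n) ≤ √‖D.R.eval x‖ := by
            rw [← Real.sqrt_mul hm₁0.le]
            apply Real.sqrt_le_sqrt
            rw [hRx, mul_comm]
            gcongr
          gcongr
        have hstn : 0 < √(t ^ n) := Real.sqrt_pos.2 (by positivity)
        have h6 : ‖D.R.derivative.eval x‖ ≤ C₂ * t ^ n * u ^ 4 := by
          have h7 : ‖D.R.derivative.eval x‖ = ‖D.R.derivative.eval x‖ * t * u ^ 4 := by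
            rw [mul_assoc, hu4, mul_one]
          rw [h7]
          gcongr
        have h8 : √(t ^ n) ≤ 1 / u ^ 2 := by
          rw [← hst]
          exact Real.sqrt_le_sqrt htn
        calc ‖D.R.derivative.eval x‖ / √‖D.Δ.eval x‖
            ≤ (C₂ * t ^ n * u ^ 4) / (√c₉ * (√m₁ * √(t ^ n))) := by
              apply div_le_div₀ (by positivity) h6 (by positivity) h5
          _ = C₂ / (√c₉ * √m₁) * (√(t ^ n) * u ^ 4) := by
              have h9 : t ^ n = √(t ^ n) * √(t ^ n) := (Real.mul_self_sqrt (by positivity)).symm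
              nth_rewrite 1 [h9]
              field_simp
          _ ≤ C₂ / (√c₉ * √m₁) * (1 / u ^ 2 * u ^ 4) := by gcongr
          _ = C₂ / (√c₉ * √m₁) * u ^ 2 := by
              field_simp
      have hfirst : |D.Φ x| * ‖D.R.derivative.eval x‖ / √‖D.Δ.eval x‖ ≤
          4 * C₄ * C₂ / (√c₉ * √m₁) * u ^ 3 := by
        rw [mul_div_assoc]
        calc |D.Φ x| * (‖D.R.derivative.eval x‖ / √‖D.Δ.eval x‖)
            ≤ (4 * C₄ * u) * (C₂ / (√c₉ * √m₁) * u ^ 2) := by gcongr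
          _ = _ := by ring
      have hsecond : |Real.log ‖w‖| * ‖D.F x‖ ≤ Lc * C₃ * u ^ 3 := by
        calc |Real.log ‖w‖| * ‖D.F x‖ ≤ (Lc * √t) * (C₃ * u ^ 4) := by gcongr
          _ = Lc * C₃ * u ^ 2 := by
              rw [hst]
              field_simp
          _ ≤ Lc * C₃ * u ^ 3 := by gcongr
      rw [rN]
      calc |D.Φ x| * ‖D.R.derivative.eval x‖ / √‖D.Δ.eval x‖ + |Real.log ‖w‖| * ‖D.F x‖
          ≤ 4 * C₄ * C₂ / (√c₉ * √m₁) * u ^ 3 + Lc * C₃ * u ^ 3 := add_le_add hfirst hsecond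
        _ = (4 * C₄ * C₂ / (√c₉ * √m₁) + Lc * C₃) * u ^ 3 := by ring
        _ ≤ C' * u ^ 3 := by
            gcongr
            rw [hC']
            have : 0 ≤ (1 + 4 * Lc * C₄) * G := by positivity
            linarith
  obtain ⟨δ, hδ, hδ'⟩ := Metric.eventually_nhds_iff.1 main
  refine ⟨C', δ, hδ, fun x hx0 hxδ => ?_⟩
  exact hδ' (by rwa [dist_eq_norm]) (sub_ne_zero.1 (norm_pos_iff.1 hx0))

end Dat

end Pool.Agent.RHE
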