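import Pool.Agent.RHE.Lam

/-! # RHE-AsyB: estimates near the zeros of `Δ` which are not zeros of `R`

PLAN. `s ≠ a i` for all `i` (`R_eval_eq_zero`), so `Φ`, `F` are continuous, hence bounded, near `s`; `‖R‖`, `‖Q‖`
are bounded, so `|log‖w‖|` is bounded (`Pt.log_le`). `gN = ‖R‖ ‖F‖/√‖Δ‖ ≤ C ‖x - s‖^(-1/2)` by `Good`
(`‖F‖ √‖x - s‖ ≤ √C √‖Δ‖`). For `‖R'‖/√‖Δ‖`: `Q(s) = ±2 =: ε`; let `m ≥ 1` be the multiplicity of `s` as a zero of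
`Q - ε` (`Q - ε ≠ 0`, `Polynomial.exists_eq_pow_rootMultiplicity_mul_and_not_dvd`): `Q - ε = (x - s)^m U`,
`U(s) ≠ 0`, `R' = Q' = (x - s)^(m-1) (m U + (x - s) U')`, `Q + ε ≠ 0` near `s`, so `‖Δ‖ ≥ c ‖x - s‖^m`,
`‖R'‖ ≤ C ‖x - s‖^(m-1)`, quotient `≤ C ‖x - s‖^(m/2 - 1) ≤ C ‖x - s‖^(-1/2)` for `‖x - s‖ < 1`. Then
`t^(-1/2) ≤ t^(-3/4)`, `1 ≤ t^(-3/4)` for `t < 1`. `x ∉ S`: `S` is finite. -/

namespace Pool.Agent.RHE

open Polynomial Filter Topology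

namespace Dat

variable (D : Dat)

private theorem AsyB_aux {t K y : ℝ} (h0 : 0 < t) (h1 : t ≤ 1) (hK : 0 ≤ K) (h : y ^ 2 * t ≤ K ^ 2) :
    y ≤ K * t ^ (-(3 / 4) : ℝ) := by
  have h2 : t ^ (-(1 / 2) : ℝ) ≤ t ^ (-(3 / 4) : ℝ) :=
    Real.rpow_le_rpow_of_exponent_ge h0 h1 (by norm_num)
  have h3 : (t ^ (-(1 / 2) : ℝ)) ^ 2 = t⁻¹ := by
    rw [← Real.rpow_natCast, ← Real.rpow_mul h0.le, ← Real.rpow_neg_one]
    norm_num
  have h4 : 0 < t ^ (-(1 / 2) : ℝ) := Real.rpow_pos_of_pos h0 _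
  have h5 : y ^ 2 ≤ (K * t ^ (-(1 / 2) : ℝ)) ^ 2 := by
    rw [mul_pow, h3, ← div_eq_mul_inv, le_div_iff₀ h0]
    exact h
  calc y ≤ |y| := le_abs_self y
    _ ≤ K * t ^ (-(1 / 2) : ℝ) := abs_le_of_sq_le_sq h5 (mul_nonneg hK h4.le)
    _ ≤ K * t ^ (-(3 / 4) : ℝ) := mul_le_mul_of_nonneg_left h2 hK

/-- near a zero `s` of `Δ` which is not a zero of `R`: `‖R'‖² ‖x - s‖ ≤ K ‖Δ‖` -/
private theorem AsyB_der {s : ℂ} (hs : D.Δ.eval s = 0) :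
    ∃ K : ℝ, 0 ≤ K ∧ ∀ᶠ x in 𝓝 s, ‖D.R.derivative.eval x‖ ^ 2 * ‖x - s‖ ≤ K * ‖D.Δ.eval x‖ := by
  obtain ⟨ε, hε⟩ : ∃ ε : ℂ, ε = D.Q.eval s := ⟨_, rfl⟩
  have hε2 : ε ^ 2 = 4 := by
    rw [D.Δ_eval, ← hε] at hs
    linear_combination hs
  have hε0 : ε ≠ 0 := by
    rintro rfl
    norm_num at hε2
  obtain ⟨P, hP⟩ : ∃ P : ℂ[X], P = D.Q - C ε := ⟨_, rfl⟩
  have hPne : P ≠ 0 := by
    intro h
    have h1 : P.natDegree = D.R.natDegree := by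
      rw [hP, natDegree_sub_C, D.Q_natDegree]
    have h2 := D.R_natDegree_pos
    rw [h, natDegree_zero] at h1
    omega
  have hProot : P.IsRoot s := by
    rw [IsRoot.def, hP, eval_sub, eval_C, ← hε, sub_self]
  obtain ⟨U, hU, hUs⟩ := exists_eq_pow_rootMultiplicity_mul_and_not_dvd P hPne s
  obtain ⟨m, hm⟩ : ∃ m, P.rootMultiplicity s = m + 1 :=
    ⟨P.rootMultiplicity s - 1, by
      have := (rootMultiplicity_pos hPne).2 hProot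
      omega⟩
  rw [hm] at hU
  have hUs' : U.eval s ≠ 0 := fun h => hUs (dvd_iff_isRoot.2 h)
  obtain ⟨G1, hG1⟩ : ∃ G1 : ℂ[X], G1 = C ((m + 1 : ℕ) : ℂ) * U + (X - C s) * derivative U := ⟨_, rfl⟩
  obtain ⟨G2, hG2⟩ : ∃ G2 : ℂ[X], G2 = U * (P + C (2 * ε)) := ⟨_, rfl⟩
  have hRP : derivative D.R = (X - C s) ^ m * G1 := by
    have h1 : derivative D.R = derivative P := by
      rw [hP, Dat.Q]
      simp
    rw [h1, hU, derivative_mul, derivative_X_sub_C_pow, hG1, Nat.add_sub_cancel, pow_succ]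
    ring
  have hΔ : D.Δ = (X - C s) ^ (m + 1) * G2 := by
    have h1 : D.Δ = P * (P + C (2 * ε)) := by
      rw [hP, Dat.Δ, ← hε2, C_mul, C_pow, map_ofNat]
      ring
    rw [h1, hG2, ← mul_assoc, ← hU]
  have hG2s : G2.eval s ≠ 0 := by
    rw [hG2, eval_mul, eval_add, eval_C, hProot.eq_zero, zero_add]
    exact mul_ne_zero hUs' (mul_ne_zero two_ne_zero hε0)
  have hcont : ContinuousAt (fun x => ‖G1.eval x‖ ^ 2 / ‖G2.eval x‖) s := by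
    refine ContinuousAt.div ?_ ?_ (norm_ne_zero_iff.2 hG2s)
    · exact (G1.continuous.norm.pow 2).continuousAt
    · exact G2.continuous.norm.continuousAt
  have hbd := hcont.eventually (Iio_mem_nhds (lt_add_one (‖G1.eval s‖ ^ 2 / ‖G2.eval s‖)))
  have hne : ∀ᶠ x in 𝓝 s, G2.eval x ≠ 0 := G2.continuous.continuousAt.eventually_ne hG2s
  have hball : ∀ᶠ x in 𝓝 s, ‖x - s‖ < 1 := by
    have h1 : ContinuousAt (fun x : ℂ => ‖x - s‖) s := by fun_prop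
    exact h1.eventually (Iio_mem_nhds (by simp))
  refine ⟨‖G1.eval s‖ ^ 2 / ‖G2.eval s‖ + 1, by positivity, ?_⟩
  filter_upwards [hbd, hne, hball] with x h1 h2 h3
  have h4 : 0 < ‖G2.eval x‖ := norm_pos_iff.2 h2
  have h5 : ‖G1.eval x‖ ^ 2 ≤ (‖G1.eval s‖ ^ 2 / ‖G2.eval s‖ + 1) * ‖G2.eval x‖ := by
    have h6 : ‖G1.eval x‖ ^ 2 / ‖G2.eval x‖ < ‖G1.eval s‖ ^ 2 / ‖G2.eval s‖ + 1 := h1
    rw [div_lt_iff₀ h4] at h6
    exact h6.le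
  have h7 : 0 ≤ ‖x - s‖ := norm_nonneg _
  rw [hRP, hΔ]
  simp only [eval_mul, eval_pow, eval_sub, eval_X, eval_C, norm_mul, norm_pow]
  calc (‖x - s‖ ^ m * ‖G1.eval x‖) ^ 2 * ‖x - s‖
      = ‖x - s‖ ^ (m + 1) * ‖x - s‖ ^ m * ‖G1.eval x‖ ^ 2 := by ring
    _ ≤ ‖x - s‖ ^ (m + 1) * 1 * ((‖G1.eval s‖ ^ 2 / ‖G2.eval s‖ + 1) * ‖G2.eval x‖) := by
        gcongr
        exact pow_le_one₀ h7 h3.le
    _ = _ := by ring

/-- a bound near `s` -/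
private theorem AsyB_bdd {f : ℂ → ℝ} {s : ℂ} (hf : ContinuousAt f s) : ∀ᶠ x in 𝓝 s, f x < f s + 1 :=
  hf.eventually (Iio_mem_nhds (lt_add_one (f s)))

theorem asyB (hG : D.Good) {s : ℂ} (hs : D.Δ.eval s = 0) (hR : D.R.eval s ≠ 0) :
    ∃ C : ℝ, ∃ δ > (0 : ℝ), ∀ x : ℂ, 0 < ‖x - s‖ → ‖x - s‖ < δ → x ∉ D.S ∧ ∀ w, D.Pt x w →
      (1 + |Real.log ‖w‖ * D.Φ x|) * D.gN x ≤ C * ‖x - s‖ ^ (-(3 / 4) : ℝ) ∧
      D.rN x w ≤ C * ‖x - s‖ ^ (-(3 / 4) : ℝ) := by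
  have hsa : ∀ i, s - D.a i ≠ 0 := fun i h =>
    hR (D.R_eval_eq_zero.2 ⟨i, sub_eq_zero.1 h⟩)
  have hΦ : ContinuousAt (fun x => |D.Φ x|) s := by
    refine ContinuousAt.abs ?_
    unfold Φ
    refine tendsto_finsetSum _ fun i _ => ?_
    refine ContinuousAt.mul continuousAt_const (ContinuousAt.log ?_ (norm_ne_zero_iff.2 (hsa i)))
    fun_prop
  have hF : ContinuousAt (fun x => ‖D.F x‖) s := by
    refine ContinuousAt.norm ?_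
    unfold F
    refine tendsto_finsetSum _ fun i _ => ?_
    exact ContinuousAt.div continuousAt_const (by fun_prop) (hsa i)
  have hRc : ContinuousAt (fun x => ‖D.R.eval x‖) s := D.R.continuous.norm.continuousAt
  have hQc : ContinuousAt (fun x => Real.log (‖D.Q.eval x‖ + 1)) s := by
    refine ContinuousAt.log (D.Q.continuous.norm.add continuous_const).continuousAt ?_
    positivity
  obtain ⟨C₁, δ₁, hδ₁, hG1⟩ := hG s hs hR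
  obtain ⟨K, hK, hder⟩ := D.AsyB_der hs
  obtain ⟨B, hB⟩ : ∃ B : ℝ, B = (|D.Φ s| + 1) + (‖D.F s‖ + 1) + (‖D.R.eval s‖ + 1) +
    (|Real.log (‖D.Q.eval s‖ + 1)| + 1) := ⟨_, rfl⟩
  have hB0 : 0 ≤ B := by rw [hB]; positivity
  have hS : ∀ᶠ x in 𝓝 s, x ≠ s → x ∉ D.S := by
    have h1 : ((D.S.erase s : Finset ℂ) : Set ℂ)ᶜ ∈ 𝓝 s :=
      (D.S.erase s).finite_toSet.isClosed.isOpen_compl.mem_nhds (by simp)
    filter_upwards [h1] with x hx hxs hxS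
    exact hx (Finset.mem_coe.2 (Finset.mem_erase.2 ⟨hxs, hxS⟩))
  have hball : ∀ᶠ x in 𝓝 s, ‖x - s‖ < min δ₁ 1 := by
    have h1 : ContinuousAt (fun x : ℂ => ‖x - s‖) s := by fun_prop
    exact h1.eventually (Iio_mem_nhds (by simp [hδ₁]))
  have hall := (((((((AsyB_bdd hΦ).and (AsyB_bdd hF)).and (AsyB_bdd hRc)).and (AsyB_bdd hQc)).and
    hS).and hball).and hder)
  obtain ⟨δ, hδ, hδ'⟩ := Metric.eventually_nhds_iff.1 hall
  refine ⟨(1 + B * B) * (B * √|C₁|) + (B * √K + B * B), δ, hδ, fun x hx0 hxδ => ?_⟩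
  obtain ⟨⟨⟨⟨⟨⟨h1, h2⟩, h3⟩, h4⟩, h5⟩, h6⟩, h7⟩ := hδ' (y := x) (by rw [dist_eq_norm]; exact hxδ)
  have hxs : x ≠ s := fun h => by
    rw [h, sub_self, norm_zero] at hx0
    exact lt_irrefl _ hx0
  have hxS : x ∉ D.S := h5 hxs
  refine ⟨hxS, fun w hw => ?_⟩
  have hΔ : 0 < ‖D.Δ.eval x‖ := norm_pos_iff.2 (D.notMem_S.1 hxS).2
  have hsq : 0 < √‖D.Δ.eval x‖ := Real.sqrt_pos.2 hΔ
  have ht1 : ‖x - s‖ ≤ 1 := (h6.trans_le (min_le_right _ _)).le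
  have hg := hG1 x hx0 (h6.trans_le (min_le_left _ _))
  have b1 : |D.Φ x| ≤ B := by
    rw [hB]
    have : 0 ≤ ‖D.F s‖ := norm_nonneg _
    have : 0 ≤ ‖D.R.eval s‖ := norm_nonneg _
    have : 0 ≤ |Real.log (‖D.Q.eval s‖ + 1)| := abs_nonneg _
    linarith
  have b2 : ‖D.F x‖ ≤ B := by
    rw [hB]
    have : 0 ≤ |D.Φ s| := abs_nonneg _
    have : 0 ≤ ‖D.R.eval s‖ := norm_nonneg _
    have : 0 ≤ |Real.log (‖D.Q.eval s‖ + 1)| := abs_nonneg _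
    linarith
  have b3 : ‖D.R.eval x‖ ≤ B := by
    rw [hB]
    have : 0 ≤ |D.Φ s| := abs_nonneg _
    have : 0 ≤ ‖D.F s‖ := norm_nonneg _
    have : 0 ≤ |Real.log (‖D.Q.eval s‖ + 1)| := abs_nonneg _
    linarith
  have b4 : |Real.log ‖w‖| ≤ B := by
    refine hw.log_le.trans ?_
    rw [hB]
    have : 0 ≤ |D.Φ s| := abs_nonneg _
    have : 0 ≤ ‖D.F s‖ := norm_nonneg _
    have : 0 ≤ ‖D.R.eval s‖ := norm_nonneg _
    have := le_abs_self (Real.log (‖D.Q.eval s‖ + 1))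
    linarith
  obtain ⟨θ, hθ⟩ : ∃ θ : ℝ, θ = ‖x - s‖ ^ (-(3 / 4) : ℝ) := ⟨_, rfl⟩
  have hθ1 : 1 ≤ θ := by
    rw [hθ]
    exact Real.one_le_rpow_of_pos_of_le_one_of_nonpos hx0 ht1 (by norm_num)
  have hgN : D.gN x ≤ (B * √|C₁|) * θ := by
    rw [hθ]
    refine AsyB_aux hx0 ht1 (by positivity) ?_
    unfold gN
    rw [div_pow, Real.sq_sqrt hΔ.le, mul_pow, mul_pow, Real.sq_sqrt (abs_nonneg _), div_mul_eq_mul_div,
      div_le_iff₀ hΔ]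
    calc ‖D.R.eval x‖ ^ 2 * ‖D.F x‖ ^ 2 * ‖x - s‖ = ‖D.R.eval x‖ ^ 2 * (‖D.F x‖ ^ 2 * ‖x - s‖) := by ring
      _ ≤ B ^ 2 * (|C₁| * ‖D.Δ.eval x‖) := by
          refine mul_le_mul (pow_le_pow_left₀ (norm_nonneg _) b3 2) ?_ (by positivity) (by positivity)
          exact hg.trans (mul_le_mul_of_nonneg_right (le_abs_self _) hΔ.le)
      _ = B ^ 2 * |C₁| * ‖D.Δ.eval x‖ := by ring
  have hgN0 : 0 ≤ D.gN x := by
    unfold gN
    positivity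
  have hrd : ‖D.R.derivative.eval x‖ / √‖D.Δ.eval x‖ ≤ √K * θ := by
    rw [hθ]
    refine AsyB_aux hx0 ht1 (Real.sqrt_nonneg _) ?_
    rw [div_pow, Real.sq_sqrt hΔ.le, Real.sq_sqrt hK, div_mul_eq_mul_div, div_le_iff₀ hΔ]
    exact h7
  rw [← hθ]
  have hθ0 : 0 ≤ θ := by linarith
  have e1 : 0 ≤ (1 + B * B) * (B * √|C₁|) * θ := by positivity
  have e2 : 0 ≤ (B * √K + B * B) * θ := by positivity
  constructor
  · have h8 : |Real.log ‖w‖ * D.Φ x| ≤ B * B := by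
      rw [abs_mul]
      exact mul_le_mul b4 b1 (abs_nonneg _) hB0
    calc (1 + |Real.log ‖w‖ * D.Φ x|) * D.gN x ≤ (1 + B * B) * ((B * √|C₁|) * θ) :=
          mul_le_mul (by linarith) hgN hgN0 (by positivity)
      _ = (1 + B * B) * (B * √|C₁|) * θ := by ring
      _ ≤ _ := by
          rw [add_mul]
          linarith
  · have h9 : D.rN x w ≤ B * (√K * θ) + B * B * θ := by
      unfold rN
      refine add_le_add ?_ ?_
      · rw [mul_div_assoc]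
        exact mul_le_mul b1 hrd (by positivity) hB0
      · calc |Real.log ‖w‖| * ‖D.F x‖ ≤ B * B := mul_le_mul b4 b2 (norm_nonneg _) hB0
          _ = B * B * 1 := by ring
          _ ≤ B * B * θ := mul_le_mul_of_nonneg_left hθ1 (by positivity)
    calc D.rN x w ≤ B * (√K * θ) + B * B * θ := h9
      _ = (B * √K + B * B) * θ := by ring
      _ ≤ _ := by
          rw [add_mul ((1 + B * B) * (B * √|C₁|))]
          linarith

end Dat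

end Pool.Agent.RHE
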