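import Pool.Agent.RHE.Lam

/-! # RHE-AsyC: estimates near infinity

PLAN. For `‖x‖` large: `‖x - a i‖ ≥ ‖x‖/2`. Because `∑ z i = 0` (`hz`): `F = ∑ z i (1/(x - a i) - 1/x)
= ∑ z i a i/(x (x - a i))`, so `‖F‖ ≤ C/‖x‖²`; `Φ = ∑ z i log‖1 - a i/x‖`, `|log‖1 - u‖| ≤ 2‖u‖` for `‖u‖ ≤ 1/2`, so
`|Φ| ≤ C/‖x‖`. `‖Q‖ → ∞` (`Polynomial.tendsto_norm_atTop`, degree `≥ 1`), `‖R‖ ≤ 2‖Q‖`, `‖Δ‖ = ‖Q² - 4‖ ≥ ‖Q‖²/4`, so
`‖R‖/√‖Δ‖ ≤ 4`; `‖R'‖ ≤ C ‖R‖/‖x‖` (`R'/R = ∑ e i/(x - a i)`), so `‖R'‖/√‖Δ‖ ≤ C/‖x‖`.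
`|log‖w‖| ≤ log(‖Q‖ + 1) ≤ C ‖x‖^(1/2)` (`Pt.log_le`; `‖Q‖ + 1 ≤ C ‖x‖^N`, `log‖x‖ ≤ 2‖x‖^(1/2)`). So
`|log‖w‖ Φ| ≤ C`, `gN ≤ C/‖x‖² ≤ C ‖x‖^(-3/2)`, `rN ≤ C/‖x‖² + C ‖x‖^(1/2)/‖x‖² ≤ C ‖x‖^(-3/2)` (`‖x‖ ≥ 1`).
`x ∉ S`: `S` is finite. -/

namespace Pool.Agent.RHE

open Polynomial Filter

private theorem asyC_deriv {ι : Type} (s : Finset ι) (a : ι → ℂ) (e : ι → ℕ) (x : ℂ)
    (hx : ∀ i ∈ s, x - a i ≠ 0) :
    (derivative (∏ i ∈ s, (X - C (a i)) ^ e i)).eval x =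
      (∏ i ∈ s, (x - a i) ^ e i) * ∑ i ∈ s, (e i : ℂ) / (x - a i) := by
  classical
  induction s using Finset.induction_on with
  | empty => simp
  | insert j s hj ih =>
    have h1 := ih fun i hi => hx i (Finset.mem_insert_of_mem hi)
    have h2 := hx j (Finset.mem_insert_self j s)
    rw [Finset.prod_insert hj, Finset.prod_insert hj, Finset.sum_insert hj, derivative_mul, eval_add,
      eval_mul, eval_mul, h1]
    have h3 : (derivative ((X - C (a j)) ^ e j)).eval x = (x - a j) ^ e j * ((e j : ℂ) / (x - a j)) := by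
      rw [derivative_X_sub_C_pow]
      simp only [eval_mul, eval_pow, eval_sub, eval_X, eval_C]
      rcases Nat.eq_zero_or_pos (e j) with h4 | h4
      · rw [h4]
        simp
      · obtain ⟨m, hm⟩ := Nat.exists_eq_add_of_le' h4
        rw [hm, Nat.add_sub_cancel, pow_succ]
        field_simp
    have h4 : (∏ i ∈ s, (X - C (a i)) ^ e i).eval x = ∏ i ∈ s, (x - a i) ^ e i := by
      rw [eval_prod]
      simp
    rw [h3, h4, eval_pow, eval_sub, eval_X, eval_C]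
    ring

namespace Dat

variable (D : Dat)

private theorem asyC_half : ∀ᶠ x in Bornology.cobounded ℂ, 1 ≤ ‖x‖ ∧ ∀ i, 2 * ‖D.a i‖ ≤ ‖x‖ := by
  have h1 := tendsto_norm_cobounded_atTop (E := ℂ)
  refine (h1.eventually (eventually_ge_atTop 1)).and ?_
  rw [eventually_all]
  intro i
  exact h1.eventually (eventually_ge_atTop _)

private theorem asyC_sub {x : ℂ} {i : Fin D.r} (h1 : 1 ≤ ‖x‖) (h2 : 2 * ‖D.a i‖ ≤ ‖x‖) :
    ‖x‖ / 2 ≤ ‖x - D.a i‖ ∧ x - D.a i ≠ 0 := by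
  have h3 : ‖x‖ - ‖D.a i‖ ≤ ‖x - D.a i‖ := norm_sub_norm_le _ _
  have h4 : ‖x‖ / 2 ≤ ‖x - D.a i‖ := by linarith
  refine ⟨h4, fun h => ?_⟩
  rw [h, norm_zero] at h4
  linarith

private theorem asyC_F : ∃ C : ℝ, 0 ≤ C ∧ ∀ᶠ x in Bornology.cobounded ℂ, ‖D.F x‖ ≤ C / ‖x‖ ^ 2 := by
  refine ⟨∑ i, |D.z i| * (2 * ‖D.a i‖), Finset.sum_nonneg fun i _ => by positivity, ?_⟩
  filter_upwards [D.asyC_half] with x ⟨h1, h2⟩
  have hx0 : x ≠ 0 := fun h => by rw [h, norm_zero] at h1; linarith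
  have hF : D.F x = ∑ i, (D.z i : ℂ) * (D.a i / (x * (x - D.a i))) := by
    have h3 : ∑ i, (D.z i : ℂ) * (1 / x) = 0 := by
      rw [← Finset.sum_mul]
      have h4 : (∑ i, (D.z i : ℂ)) = 0 := by
        rw [← Complex.ofReal_sum, D.hz, Complex.ofReal_zero]
      rw [h4, zero_mul]
    unfold F
    rw [← sub_zero (∑ i, (D.z i : ℂ) / (x - D.a i)), ← h3, ← Finset.sum_sub_distrib]
    refine Finset.sum_congr rfl fun i _ => ?_
    have h5 := (D.asyC_sub h1 (h2 i)).2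
    field_simp
    ring
  rw [hF, Finset.sum_div]
  refine (norm_sum_le _ _).trans (Finset.sum_le_sum fun i _ => ?_)
  have h5 := (D.asyC_sub h1 (h2 i)).1
  rw [norm_mul, norm_div, norm_mul, Complex.norm_real, Real.norm_eq_abs, mul_div_assoc]
  refine mul_le_mul_of_nonneg_left ?_ (abs_nonneg _)
  have hx1 : 0 < ‖x‖ := by linarith
  have hy : 0 < ‖x - D.a i‖ := by linarith
  rw [div_le_div_iff₀ (mul_pos hx1 hy) (by positivity)]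
  have h6 : 0 ≤ ‖D.a i‖ := norm_nonneg _
  have h7 : ‖x‖ * ‖x‖ ≤ 2 * (‖x‖ * ‖x - D.a i‖) := by nlinarith
  nlinarith [mul_le_mul_of_nonneg_left h7 h6]

private theorem asyC_Φ : ∃ C : ℝ, 0 ≤ C ∧ ∀ᶠ x in Bornology.cobounded ℂ, |D.Φ x| ≤ C / ‖x‖ := by
  refine ⟨∑ i, |D.z i| * (2 * ‖D.a i‖), Finset.sum_nonneg fun i _ => by positivity, ?_⟩
  filter_upwards [D.asyC_half] with x ⟨h1, h2⟩
  have hx1 : 0 < ‖x‖ := by linarith
  have hΦ : D.Φ x = ∑ i, D.z i * (Real.log ‖x - D.a i‖ - Real.log ‖x‖) := by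
    have h3 : ∑ i, D.z i * Real.log ‖x‖ = 0 := by
      rw [← Finset.sum_mul, D.hz, zero_mul]
    unfold Φ
    rw [← sub_zero (∑ i, D.z i * Real.log ‖x - D.a i‖), ← h3, ← Finset.sum_sub_distrib]
    exact Finset.sum_congr rfl fun i _ => by ring
  rw [hΦ, Finset.sum_div]
  refine (Finset.abs_sum_le_sum_abs _ _).trans (Finset.sum_le_sum fun i _ => ?_)
  obtain ⟨h5, -⟩ := D.asyC_sub h1 (h2 i)
  rw [abs_mul, mul_div_assoc]
  refine mul_le_mul_of_nonneg_left ?_ (abs_nonneg _)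
  have hy : 0 < ‖x - D.a i‖ := by linarith
  have ha : 0 ≤ ‖D.a i‖ := norm_nonneg _
  have h6 : ‖x - D.a i‖ - ‖x‖ ≤ ‖D.a i‖ := by
    have := norm_sub_le x (D.a i)
    linarith
  have h7 : ‖x‖ - ‖x - D.a i‖ ≤ ‖D.a i‖ := by
    have := norm_sub_norm_le x (x - D.a i)
    rwa [sub_sub_cancel] at this
  rw [abs_le]
  constructor
  · -- `log ‖x‖ - log ‖x - a‖ ≤ ‖x‖ / ‖x - a‖ - 1`
    have h8 := Real.log_le_sub_one_of_pos (div_pos hx1 hy)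
    rw [Real.log_div hx1.ne' hy.ne'] at h8
    have h9 : ‖x‖ / ‖x - D.a i‖ - 1 ≤ 2 * ‖D.a i‖ / ‖x‖ := by
      rw [div_sub_one hy.ne', div_le_div_iff₀ hy hx1]
      nlinarith
    linarith
  · have h8 := Real.log_le_sub_one_of_pos (div_pos hy hx1)
    rw [Real.log_div hy.ne' hx1.ne'] at h8
    have h9 : ‖x - D.a i‖ / ‖x‖ - 1 ≤ 2 * ‖D.a i‖ / ‖x‖ := by
      rw [div_sub_one hx1.ne']
      exact div_le_div_of_nonneg_right (by linarith) hx1.le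
    linarith

private theorem asyC_Q : ∀ᶠ x in Bornology.cobounded ℂ, 4 ≤ ‖D.Q.eval x‖ := by
  have hdeg : 0 < D.Q.degree := by
    rw [← natDegree_pos_iff_degree_pos, D.Q_natDegree]
    exact D.R_natDegree_pos
  have h1 := D.Q.tendsto_norm_atTop hdeg (tendsto_norm_cobounded_atTop (E := ℂ))
  exact h1.eventually (eventually_ge_atTop 4)

private theorem asyC_R {x : ℂ} (hQ : 4 ≤ ‖D.Q.eval x‖) :
    0 < √‖D.Δ.eval x‖ ∧ ‖D.R.eval x‖ / √‖D.Δ.eval x‖ ≤ 4 := by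
  have h1 : ‖D.Q.eval x‖ ^ 2 - 4 ≤ ‖D.Δ.eval x‖ := by
    rw [D.Δ_eval]
    have := norm_sub_norm_le (D.Q.eval x ^ 2) (4 : ℂ)
    rw [norm_pow] at this
    have h4 : ‖(4 : ℂ)‖ = 4 := by simp
    rwa [h4] at this
  have h2 : (‖D.Q.eval x‖ / 2) ^ 2 ≤ ‖D.Δ.eval x‖ := by nlinarith
  have h3 : ‖D.Q.eval x‖ / 2 ≤ √‖D.Δ.eval x‖ := Real.le_sqrt_of_sq_le h2
  have h4 : 0 < √‖D.Δ.eval x‖ := by linarith
  refine ⟨h4, ?_⟩
  rw [div_le_iff₀ h4]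
  have h5 : ‖D.R.eval x‖ ≤ ‖D.Q.eval x‖ + 2 := by
    have h6 : D.R.eval x = D.Q.eval x - (D.κ : ℂ) := by
      rw [D.Q_eval]
      ring
    rw [h6]
    refine (norm_sub_le _ _).trans ?_
    rw [Complex.norm_real, Real.norm_eq_abs]
    have := D.hκ
    linarith
  linarith

private theorem asyC_R' : ∃ C : ℝ, 0 ≤ C ∧ ∀ᶠ x in Bornology.cobounded ℂ,
    ‖D.R.derivative.eval x‖ ≤ C / ‖x‖ * ‖D.R.eval x‖ := by
  refine ⟨∑ i, 2 * (D.e i : ℝ), Finset.sum_nonneg fun i _ => by positivity, ?_⟩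
  filter_upwards [D.asyC_half] with x ⟨h1, h2⟩
  have hx1 : 0 < ‖x‖ := by linarith
  have h3 : D.R.derivative.eval x = (∑ i, (D.e i : ℂ) / (x - D.a i)) * D.R.eval x := by
    rw [D.R_eval]
    unfold R
    rw [derivative_C_mul, eval_mul, eval_C, asyC_deriv _ _ _ _ fun i _ => (D.asyC_sub h1 (h2 i)).2]
    ring
  rw [h3, norm_mul]
  refine mul_le_mul_of_nonneg_right ?_ (norm_nonneg _)
  rw [Finset.sum_div]
  refine (norm_sum_le _ _).trans (Finset.sum_le_sum fun i _ => ?_)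
  have h5 := (D.asyC_sub h1 (h2 i)).1
  have hy : 0 < ‖x - D.a i‖ := by linarith
  rw [norm_div, Complex.norm_natCast, div_le_div_iff₀ hy hx1]
  have h6 : (0 : ℝ) ≤ D.e i := Nat.cast_nonneg _
  nlinarith

private theorem asyC_log : ∃ C : ℝ, 0 ≤ C ∧ ∀ᶠ x in Bornology.cobounded ℂ,
    Real.log (‖D.Q.eval x‖ + 1) ≤ C * √‖x‖ := by
  set N := D.Q.natDegree with hN
  set A : ℝ := (∑ k ∈ Finset.range (N + 1), ‖D.Q.coeff k‖) + 1 with hA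
  have hA1 : 1 ≤ A := by
    have : 0 ≤ ∑ k ∈ Finset.range (N + 1), ‖D.Q.coeff k‖ := Finset.sum_nonneg fun _ _ => norm_nonneg _
    linarith
  have hlA : 0 ≤ Real.log A := Real.log_nonneg hA1
  refine ⟨Real.log A + 2 * N, by positivity, ?_⟩
  filter_upwards [D.asyC_half] with x ⟨h1, _⟩
  have hx1 : 0 < ‖x‖ := by linarith
  have h2 : ‖D.Q.eval x‖ ≤ (∑ k ∈ Finset.range (N + 1), ‖D.Q.coeff k‖) * ‖x‖ ^ N := by
    rw [eval_eq_sum_range, Finset.sum_mul]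
    refine (norm_sum_le _ _).trans (Finset.sum_le_sum fun k hk => ?_)
    rw [norm_mul, norm_pow]
    have hk' := Finset.mem_range.1 hk
    exact mul_le_mul_of_nonneg_left (pow_le_pow_right₀ h1 (by omega)) (norm_nonneg _)
  have h3 : 1 ≤ ‖x‖ ^ N := one_le_pow₀ h1
  have h4 : ‖D.Q.eval x‖ + 1 ≤ A * ‖x‖ ^ N := by
    rw [hA, add_mul, one_mul]
    linarith
  have h5 : Real.log (‖D.Q.eval x‖ + 1) ≤ Real.log A + N * Real.log ‖x‖ := by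
    have h6 := Real.log_le_log (by positivity) h4
    rwa [Real.log_mul (by positivity) (by positivity), Real.log_pow] at h6
  have h6 : 1 ≤ √‖x‖ := Real.one_le_sqrt.2 h1
  have h7 : Real.log ‖x‖ ≤ 2 * √‖x‖ := by
    have h8 := Real.log_le_sub_one_of_pos (Real.sqrt_pos.2 hx1)
    rw [Real.log_sqrt hx1.le] at h8
    linarith
  have h8 : (0 : ℝ) ≤ N := Nat.cast_nonneg _
  nlinarith

theorem asyC : ∃ C : ℝ, ∃ ρ > (0 : ℝ), ∀ x : ℂ, ρ < ‖x‖ → x ∉ D.S ∧ ∀ w, D.Pt x w →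
      (1 + |Real.log ‖w‖ * D.Φ x|) * D.gN x ≤ C * ‖x‖ ^ (-(3 / 2) : ℝ) ∧
      D.rN x w ≤ C * ‖x‖ ^ (-(3 / 2) : ℝ) := by
  obtain ⟨C1, hC1, hF⟩ := D.asyC_F
  obtain ⟨C2, hC2, hΦ⟩ := D.asyC_Φ
  obtain ⟨C3, hC3, hR'⟩ := D.asyC_R'
  obtain ⟨C4, hC4, hL⟩ := D.asyC_log
  have hS : ∀ᶠ x in Bornology.cobounded ℂ, x ∉ D.S := by
    have : Bornology.IsBounded (D.S : Set ℂ) := D.S.finite_toSet.isBounded
    exact this
  have hall : ∀ᶠ x in Bornology.cobounded ℂ, x ∉ D.S ∧ ∀ w, D.Pt x w →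
      (1 + |Real.log ‖w‖ * D.Φ x|) * D.gN x ≤ ((1 + C4 * C2) * (4 * C1) + (C2 * (4 * C3) + C4 * C1)) *
        ‖x‖ ^ (-(3 / 2) : ℝ) ∧
      D.rN x w ≤ ((1 + C4 * C2) * (4 * C1) + (C2 * (4 * C3) + C4 * C1)) * ‖x‖ ^ (-(3 / 2) : ℝ) := by
    filter_upwards [hS, D.asyC_half, D.asyC_Q, hF, hΦ, hR', hL] with x hxS hx2 hQ hFx hΦx hRx hLx
    obtain ⟨hx1, -⟩ := hx2
    refine ⟨hxS, fun w hw => ?_⟩
    have hx0 : 0 < ‖x‖ := by linarith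
    have hs1 : 1 ≤ √‖x‖ := Real.one_le_sqrt.2 hx1
    obtain ⟨hΔ, hRΔ⟩ := D.asyC_R hQ
    have hlog : |Real.log ‖w‖| ≤ C4 * √‖x‖ := hw.log_le.trans hLx
    have hpow : ‖x‖ ^ (-(3 / 2) : ℝ) = √‖x‖ / ‖x‖ ^ 2 := by
      rw [Real.sqrt_eq_rpow, eq_div_iff (by positivity), ← Real.rpow_natCast, ← Real.rpow_add hx0]
      norm_num
    have hsq : √‖x‖ ≤ ‖x‖ := by
      rw [Real.sqrt_le_left hx0.le]
      nlinarith
    have h2 : 0 < ‖x‖ ^ 2 := by positivity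
    -- the bound for `gN`
    have hg : D.gN x ≤ 4 * C1 / ‖x‖ ^ 2 := by
      unfold gN
      calc ‖D.R.eval x‖ * ‖D.F x‖ / √‖D.Δ.eval x‖ = ‖D.R.eval x‖ / √‖D.Δ.eval x‖ * ‖D.F x‖ := by ring
        _ ≤ 4 * (C1 / ‖x‖ ^ 2) := mul_le_mul hRΔ hFx (norm_nonneg _) (by norm_num)
        _ = _ := by ring
    have hg0 : 0 ≤ D.gN x := by
      unfold gN
      positivity
    have hlΦ : |Real.log ‖w‖ * D.Φ x| ≤ C4 * C2 := by
      rw [abs_mul]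
      calc |Real.log ‖w‖| * |D.Φ x| ≤ (C4 * √‖x‖) * (C2 / ‖x‖) :=
            mul_le_mul hlog hΦx (abs_nonneg _) (by positivity)
        _ = C4 * C2 * (√‖x‖ / ‖x‖) := by ring
        _ ≤ C4 * C2 * 1 := mul_le_mul_of_nonneg_left ((div_le_one hx0).2 hsq) (by positivity)
        _ = _ := mul_one _
    have hR2 : ‖D.R.derivative.eval x‖ / √‖D.Δ.eval x‖ ≤ 4 * C3 / ‖x‖ := by
      calc ‖D.R.derivative.eval x‖ / √‖D.Δ.eval x‖ ≤ (C3 / ‖x‖ * ‖D.R.eval x‖) / √‖D.Δ.eval x‖ :=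
            div_le_div_of_nonneg_right hRx hΔ.le
        _ = C3 / ‖x‖ * (‖D.R.eval x‖ / √‖D.Δ.eval x‖) := by ring
        _ ≤ C3 / ‖x‖ * 4 := mul_le_mul_of_nonneg_left hRΔ (by positivity)
        _ = _ := by ring
    have hX : 1 / ‖x‖ ^ 2 ≤ √‖x‖ / ‖x‖ ^ 2 := div_le_div_of_nonneg_right hs1 h2.le
    rw [hpow]
    constructor
    · calc (1 + |Real.log ‖w‖ * D.Φ x|) * D.gN x ≤ (1 + C4 * C2) * (4 * C1 / ‖x‖ ^ 2) :=
            mul_le_mul (by linarith) hg hg0 (by positivity)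
        _ = (1 + C4 * C2) * (4 * C1) * (1 / ‖x‖ ^ 2) := by ring
        _ ≤ (1 + C4 * C2) * (4 * C1) * (√‖x‖ / ‖x‖ ^ 2) := mul_le_mul_of_nonneg_left hX (by positivity)
        _ ≤ _ := mul_le_mul_of_nonneg_right (by
            have : 0 ≤ C2 * (4 * C3) + C4 * C1 := by positivity
            linarith) (by positivity)
    · unfold rN
      calc |D.Φ x| * ‖D.R.derivative.eval x‖ / √‖D.Δ.eval x‖ + |Real.log ‖w‖| * ‖D.F x‖
          = |D.Φ x| * (‖D.R.derivative.eval x‖ / √‖D.Δ.eval x‖) + |Real.log ‖w‖| * ‖D.F x‖ := by ring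
        _ ≤ C2 / ‖x‖ * (4 * C3 / ‖x‖) + C4 * √‖x‖ * (C1 / ‖x‖ ^ 2) :=
            add_le_add (mul_le_mul hΦx hR2 (by positivity) (by positivity))
              (mul_le_mul hlog hFx (norm_nonneg _) (by positivity))
        _ = C2 * (4 * C3) * (1 / ‖x‖ ^ 2) + C4 * C1 * (√‖x‖ / ‖x‖ ^ 2) := by
            field_simp
        _ ≤ C2 * (4 * C3) * (√‖x‖ / ‖x‖ ^ 2) + C4 * C1 * (√‖x‖ / ‖x‖ ^ 2) := by
            have := mul_le_mul_of_nonneg_left hX (by positivity : 0 ≤ C2 * (4 * C3))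
            linarith
        _ = (C2 * (4 * C3) + C4 * C1) * (√‖x‖ / ‖x‖ ^ 2) := by ring
        _ ≤ _ := mul_le_mul_of_nonneg_right (by
            have : 0 ≤ (1 + C4 * C2) * (4 * C1) := by positivity
            linarith) (by positivity)
  rw [← comap_norm_atTop, (atTop_basis_Ioi.comap (norm : ℂ → ℝ)).eventually_iff] at hall
  obtain ⟨ρ, -, hρ⟩ := hall
  refine ⟨_, max ρ 1, by positivity, fun x hx => hρ (show ρ < ‖x‖ from (le_max_left _ _).trans_lt hx)⟩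

end Dat

end Pool.Agent.RHE
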