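import Pool.Agent.RHE.Defs

/-! Basic facts on the data (project RHE). -/

namespace Pool.Agent.RHE

open Polynomial

namespace Dat

variable (D : Dat)

theorem exists_z_ne : ∃ i, D.z i ≠ 0 := by
  by_contra h
  push Not at h
  exact D.hz0 (funext h)

theorem r_pos : 0 < D.r := by
  obtain ⟨i, _⟩ := D.exists_z_ne
  exact i.pos

theorem R_eval (x : ℂ) : D.R.eval x = D.c * ∏ i, (x - D.a i) ^ D.e i := by
  simp [R, eval_prod]

theorem Q_eval (x : ℂ) : D.Q.eval x = D.R.eval x + (D.κ : ℂ) := by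
  simp [Q]

theorem Δ_eval (x : ℂ) : D.Δ.eval x = (D.Q.eval x) ^ 2 - 4 := by
  simp [Δ]

theorem R_eval_eq_zero {x : ℂ} : D.R.eval x = 0 ↔ ∃ i, x = D.a i := by
  rw [R_eval, mul_eq_zero, Finset.prod_eq_zero_iff]
  constructor
  · rintro (h | ⟨i, _, h⟩)
    · exact absurd h D.hc
    · exact ⟨i, sub_eq_zero.1 (pow_eq_zero_iff (D.he i).ne' |>.1 h)⟩
  · rintro ⟨i, rfl⟩
    exact Or.inr ⟨i, Finset.mem_univ _, by simp [(D.he i).ne']⟩

theorem R_natDegree_pos : 0 < D.R.natDegree := by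
  have hmon : (∏ i, (X - C (D.a i)) ^ D.e i).Monic :=
    monic_prod_of_monic _ _ fun i _ => (monic_X_sub_C _).pow _
  rw [R, natDegree_C_mul D.hc, natDegree_prod_of_monic _ _ fun i _ => (monic_X_sub_C _).pow _]
  refine Finset.sum_pos' (fun _ _ => Nat.zero_le _) ⟨⟨0, D.r_pos⟩, Finset.mem_univ _, ?_⟩
  rw [(monic_X_sub_C _).natDegree_pow, natDegree_X_sub_C, mul_one]
  exact D.he _

theorem Q_natDegree : D.Q.natDegree = D.R.natDegree := by
  rw [Q, natDegree_add_C]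

theorem R_ne : D.R ≠ 0 := fun h => by
  have := D.R_natDegree_pos
  rw [h] at this
  simp at this

theorem Δ_natDegree : D.Δ.natDegree = 2 * D.R.natDegree := by
  rw [Δ, natDegree_sub_C, natDegree_pow, Q_natDegree]

theorem Δ_ne : D.Δ ≠ 0 := fun h => by
  have h1 := D.R_natDegree_pos
  have h2 := D.Δ_natDegree
  rw [h, natDegree_zero] at h2
  omega

theorem mem_S {x : ℂ} : x ∈ D.S ↔ D.R.eval x = 0 ∨ D.Δ.eval x = 0 := by
  rw [S, Multiset.mem_toFinset, mem_roots (mul_ne_zero D.R_ne D.Δ_ne), IsRoot.def, eval_mul,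
    mul_eq_zero]

theorem notMem_S {x : ℂ} : x ∉ D.S ↔ D.R.eval x ≠ 0 ∧ D.Δ.eval x ≠ 0 := by
  rw [mem_S, not_or]

theorem a_mem_S (i : Fin D.r) : D.a i ∈ D.S := D.mem_S.2 (Or.inl (D.R_eval_eq_zero.2 ⟨i, rfl⟩))

theorem sub_a_ne {x : ℂ} (hx : x ∉ D.S) (i : Fin D.r) : x - D.a i ≠ 0 := fun h =>
  hx (by rw [sub_eq_zero.1 h]; exact D.a_mem_S i)

theorem isOpen_compl_S : IsOpen ((D.S : Set ℂ)ᶜ) := D.S.finite_toSet.isClosed.isOpen_compl

variable {D} {x w : ℂ}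

namespace Pt

theorem notMem (h : D.Pt x w) : x ∉ D.S := h.1

theorem R_ne (h : D.Pt x w) : D.R.eval x ≠ 0 := (D.notMem_S.1 h.1).1

theorem Δ_ne (h : D.Pt x w) : D.Δ.eval x ≠ 0 := (D.notMem_S.1 h.1).2

theorem w_ne (h : D.Pt x w) : w ≠ 0 := by
  rintro rfl
  have := h.2
  simp at this

theorem Q_eq (h : D.Pt x w) : D.Q.eval x = w + w⁻¹ := by
  have h1 := h.2
  have hw := h.w_ne
  field_simp
  linear_combination -h1

theorem disc (h : D.Pt x w) : (w - w⁻¹) ^ 2 = D.Δ.eval x := by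
  rw [Dat.Δ_eval, h.Q_eq]
  have hw := h.w_ne
  field_simp
  ring

theorem sub_inv_ne (h : D.Pt x w) : w - w⁻¹ ≠ 0 := by
  intro h1
  apply h.Δ_ne
  rw [← h.disc, h1]
  simp

theorem sq_ne (h : D.Pt x w) : w ^ 2 - 1 ≠ 0 := by
  intro h1
  apply h.sub_inv_ne
  have hw := h.w_ne
  field_simp
  linear_combination h1

theorem inv (h : D.Pt x w) : D.Pt x w⁻¹ := by
  refine ⟨h.1, ?_⟩
  rw [h.Q_eq]
  have hw := h.w_ne
  field_simp
  ring

theorem eq_or (h : D.Pt x w) {w' : ℂ} (h' : D.Pt x w') : w' = w ∨ w' = w⁻¹ := by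
  have h1 := h'.2
  rw [h.Q_eq] at h1
  have hw := h.w_ne
  have h2 : (w' - w) * (w' - w⁻¹) = 0 := by
    have : (w' - w) * (w' - w⁻¹) = w' ^ 2 - (w + w⁻¹) * w' + w * w⁻¹ := by ring
    rw [this, mul_inv_cancel₀ hw, h1]
  rcases mul_eq_zero.1 h2 with h3 | h3
  · exact Or.inl (sub_eq_zero.1 h3)
  · exact Or.inr (sub_eq_zero.1 h3)

theorem norm_sub_inv (h : D.Pt x w) : ‖w - w⁻¹‖ = √‖D.Δ.eval x‖ := by
  rw [← h.disc, norm_pow, Real.sqrt_sq (norm_nonneg _)]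

theorem T_eq (h : D.Pt x w) : D.T w = D.R.eval x / (w - w⁻¹) := by
  have hw := h.w_ne
  have h1 := h.sub_inv_ne
  have h2 := h.sq_ne
  have h3 : w ^ 2 - (D.κ : ℂ) * w + 1 = w * D.R.eval x := by
    have := h.2
    rw [Dat.Q_eval] at this
    linear_combination this
  rw [T, h3, div_eq_div_iff h2 h1]
  field_simp

theorem T_inv (h : D.Pt x w) : D.T w⁻¹ = - D.T w := by
  rw [h.inv.T_eq, h.T_eq, inv_inv, ← neg_sub w, div_neg]

end Pt

theorem exists_pt (hx : x ∉ D.S) : ∃ w, D.Pt x w := by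
  obtain ⟨s, hs⟩ := IsAlgClosed.exists_pow_nat_eq (D.Δ.eval x) (n := 2) (by norm_num)
  refine ⟨(D.Q.eval x + s) / 2, hx, ?_⟩
  rw [Dat.Δ_eval] at hs
  linear_combination hs / 4

end Dat

end Pool.Agent.RHE
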