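import Mathlib

/-! # RHE-Bdd (Mathlib only): boundedness near a point

`u = √(1 + G)` is differentiable on the punctured ball and `‖fderiv u‖ ≤ |C| ‖x - s‖^(-3/4)`. Along a ray
`τ ↦ u(s + τ v) + 4 |C| τ^(1/4)` is monotone on `[t, δ/2]`, and `u` is bounded on the compact circle of
radius `δ/2`. -/

namespace Pool.Agent.RHE

private theorem bdd_u {s : ℂ} {G : ℂ → ℝ} {C δ : ℝ}
    (hG : ∀ x : ℂ, 0 < ‖x - s‖ → ‖x - s‖ < δ → DifferentiableAt ℝ G x ∧ 0 ≤ G x ∧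
      ‖fderiv ℝ G x‖ ≤ 2 * √(G x) * (C * ‖x - s‖ ^ (-(3 / 4) : ℝ)))
    {x : ℂ} (h0 : 0 < ‖x - s‖) (h1 : ‖x - s‖ < δ) :
    ∃ L : ℂ →L[ℝ] ℝ, HasFDerivAt (fun y => √(1 + G y)) L x ∧ ‖L‖ ≤ |C| * ‖x - s‖ ^ (-(3 / 4) : ℝ) := by
  obtain ⟨hd, hg, hb⟩ := hG x h0 h1
  have hpos : 0 < 1 + G x := by linarith
  have hd1 : HasFDerivAt (fun y => 1 + G y) (fderiv ℝ G x) x := hd.hasFDerivAt.const_add 1
  refine ⟨(1 / (2 * √(1 + G x))) • fderiv ℝ G x, hd1.sqrt hpos.ne', ?_⟩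
  have hs : 0 < √(1 + G x) := Real.sqrt_pos.2 hpos
  have hle : √(G x) ≤ √(1 + G x) := Real.sqrt_le_sqrt (by linarith)
  have hr : 0 ≤ ‖x - s‖ ^ (-(3 / 4) : ℝ) := Real.rpow_nonneg h0.le _
  have hn : 0 ≤ 1 / (2 * √(1 + G x)) := by positivity
  rw [norm_smul, Real.norm_of_nonneg hn]
  have h2 : ‖fderiv ℝ G x‖ ≤ 2 * √(1 + G x) * (|C| * ‖x - s‖ ^ (-(3 / 4) : ℝ)) := by
    refine hb.trans ?_
    have h3 : C * ‖x - s‖ ^ (-(3 / 4) : ℝ) ≤ |C| * ‖x - s‖ ^ (-(3 / 4) : ℝ) :=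
      mul_le_mul_of_nonneg_right (le_abs_self C) hr
    have h4 : 0 ≤ |C| * ‖x - s‖ ^ (-(3 / 4) : ℝ) := mul_nonneg (abs_nonneg C) hr
    have h5 : 0 ≤ 2 * √(G x) := by positivity
    exact (mul_le_mul_of_nonneg_left h3 h5).trans (mul_le_mul_of_nonneg_right (by linarith) h4)
  calc 1 / (2 * √(1 + G x)) * ‖fderiv ℝ G x‖
      ≤ 1 / (2 * √(1 + G x)) * (2 * √(1 + G x) * (|C| * ‖x - s‖ ^ (-(3 / 4) : ℝ))) :=
        mul_le_mul_of_nonneg_left h2 hn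
    _ = |C| * ‖x - s‖ ^ (-(3 / 4) : ℝ) := by
        rw [← mul_assoc, one_div, inv_mul_cancel₀ (by positivity), one_mul]

theorem bdd_near {s : ℂ} {G : ℂ → ℝ} {C δ : ℝ} (hδ : 0 < δ)
    (hG : ∀ x : ℂ, 0 < ‖x - s‖ → ‖x - s‖ < δ → DifferentiableAt ℝ G x ∧ 0 ≤ G x ∧
      ‖fderiv ℝ G x‖ ≤ 2 * √(G x) * (C * ‖x - s‖ ^ (-(3 / 4) : ℝ))) :
    ∃ M : ℝ, ∀ x : ℂ, 0 < ‖x - s‖ → ‖x - s‖ ≤ δ / 2 → √(G x) ≤ M := by
  obtain ⟨M0, hM0⟩ := (isCompact_sphere s (δ / 2)).exists_bound_of_continuousOn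
    (f := fun y => √(1 + G y)) (by
      intro y hy
      have h1 : ‖y - s‖ = δ / 2 := by
        rw [← dist_eq_norm]
        exact hy
      obtain ⟨L, hL, _⟩ := bdd_u hG (x := y) (by rw [h1]; linarith) (by rw [h1]; linarith)
      exact hL.continuousAt.continuousWithinAt)
  refine ⟨M0 + 4 * |C| * (δ / 2) ^ (1 / 4 : ℝ), ?_⟩
  intro x h0 h1
  obtain ⟨t, ht⟩ : ∃ t : ℝ, t = ‖x - s‖ := ⟨_, rfl⟩
  rw [← ht] at h0 h1
  obtain ⟨v, hv⟩ : ∃ v : ℂ, v = t⁻¹ • (x - s) := ⟨_, rfl⟩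
  have hv1 : ‖v‖ = 1 := by
    rw [hv, norm_smul, ← ht, Real.norm_of_nonneg (inv_nonneg.2 h0.le), inv_mul_cancel₀ h0.ne']
  have hxv : s + t • v = x := by
    rw [hv, smul_smul, mul_inv_cancel₀ h0.ne', one_smul, add_sub_cancel]
  have hγ : ∀ τ : ℝ, 0 < τ → ‖(s + τ • v) - s‖ = τ := by
    intro τ hτ
    rw [add_sub_cancel_left, norm_smul, hv1, mul_one, Real.norm_of_nonneg hτ.le]
  have hw : ∀ τ : ℝ, 0 < τ → τ < δ → ∃ d : ℝ,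
      HasDerivAt (fun τ : ℝ => √(1 + G (s + τ • v)) + 4 * |C| * τ ^ (1 / 4 : ℝ)) d τ ∧ 0 ≤ d := by
    intro τ hτ hτδ
    obtain ⟨L, hL, hb⟩ := bdd_u hG (x := s + τ • v) (by rw [hγ τ hτ]; exact hτ)
      (by rw [hγ τ hτ]; exact hτδ)
    rw [hγ τ hτ] at hb
    have h2 : HasDerivAt (fun τ : ℝ => s + τ • v) ((1 : ℝ) • v) τ :=
      ((hasDerivAt_id τ).smul_const v).const_add s
    have h3' : HasDerivAt ((fun y : ℂ => √(1 + G y)) ∘ fun τ : ℝ => s + τ • v)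
        (L ((1 : ℝ) • v)) τ := HasFDerivAt.comp_hasDerivAt τ hL h2
    have h3 : HasDerivAt (fun τ : ℝ => √(1 + G (s + τ • v))) (L ((1 : ℝ) • v)) τ := h3'
    have h4 : HasDerivAt (fun τ : ℝ => 4 * |C| * τ ^ (1 / 4 : ℝ))
        (4 * |C| * ((1 / 4 : ℝ) * τ ^ ((1 / 4 : ℝ) - 1))) τ :=
      (Real.hasDerivAt_rpow_const (Or.inl hτ.ne')).const_mul _
    refine ⟨_, h3.add h4, ?_⟩
    have h5 : |L ((1 : ℝ) • v)| ≤ |C| * τ ^ (-(3 / 4) : ℝ) := by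
      rw [one_smul]
      have h6 := L.le_opNorm v
      rw [hv1, mul_one, Real.norm_eq_abs] at h6
      exact h6.trans hb
    have h7 : 4 * |C| * ((1 / 4 : ℝ) * τ ^ ((1 / 4 : ℝ) - 1)) = |C| * τ ^ (-(3 / 4) : ℝ) := by
      rw [show ((1 / 4 : ℝ) - 1) = -(3 / 4) by norm_num]
      ring
    rw [h7]
    have h8 := neg_abs_le (L ((1 : ℝ) • v))
    linarith
  have hmono : MonotoneOn (fun τ : ℝ => √(1 + G (s + τ • v)) + 4 * |C| * τ ^ (1 / 4 : ℝ))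
      (Set.Icc t (δ / 2)) := by
    refine monotoneOn_of_deriv_nonneg (convex_Icc _ _) ?_ ?_ ?_
    · intro τ hτ
      obtain ⟨d, hd, _⟩ := hw τ (h0.trans_le hτ.1) (by linarith [hτ.2])
      exact hd.continuousAt.continuousWithinAt
    · intro τ hτ
      rw [interior_Icc] at hτ
      obtain ⟨d, hd, _⟩ := hw τ (h0.trans hτ.1) (by linarith [hτ.2])
      exact hd.differentiableAt.differentiableWithinAt
    · intro τ hτ
      rw [interior_Icc] at hτ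
      obtain ⟨d, hd, hd0⟩ := hw τ (h0.trans hτ.1) (by linarith [hτ.2])
      rw [hd.deriv]
      exact hd0
  have h2 := hmono (Set.left_mem_Icc.2 h1) (Set.right_mem_Icc.2 h1) h1
  beta_reduce at h2
  rw [hxv] at h2
  have h3 : √(1 + G (s + (δ / 2) • v)) ≤ M0 := by
    have h4 := hM0 (s + (δ / 2) • v) (by
      rw [mem_sphere_iff_norm]
      exact hγ (δ / 2) (by linarith))
    exact (le_abs_self _).trans h4
  have h4 : 0 ≤ 4 * |C| * t ^ (1 / 4 : ℝ) := by positivity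
  have h5 : √(G x) ≤ √(1 + G x) := Real.sqrt_le_sqrt (by linarith)
  linarith

end Pool.Agent.RHE
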