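import Mathlib

/-! # RHE-Bdi (Mathlib only): boundedness near infinity

PLAN. `u = √(1 + G)` is differentiable for `‖x‖ > ρ` and `‖fderiv u‖ = ‖fderiv G‖/(2u) ≤ C ‖x‖^(-3/2)`. For a unit
vector `v` and `t ≥ 2ρ`, `q(τ) = u(τ v)` has `|q'(τ)| ≤ C τ^(-3/2)` on `[2ρ, t]`, so
`q(t) ≤ q(2ρ) + 2 C (2ρ)^(-1/2)` (e.g. `τ ↦ q(τ) + 2 C τ^(-1/2)` is antitone). On the circle `‖x‖ = 2ρ` the
continuous function `u` is bounded. Finally `√(G x) ≤ u x`. -/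

namespace Pool.Agent.RHE

theorem bdd_inf {G : ℂ → ℝ} {C ρ : ℝ} (hρ : 0 < ρ)
    (hG : ∀ x : ℂ, ρ < ‖x‖ → DifferentiableAt ℝ G x ∧ 0 ≤ G x ∧
      ‖fderiv ℝ G x‖ ≤ 2 * √(G x) * (C * ‖x‖ ^ (-(3 / 2) : ℝ))) :
    ∃ M : ℝ, ∀ x : ℂ, 2 * ρ ≤ ‖x‖ → √(G x) ≤ M := by
  obtain ⟨u, hu⟩ : ∃ u : ℂ → ℝ, u = fun x => √(1 + G x) := ⟨_, rfl⟩
  have hux : ∀ x, u x = √(1 + G x) := fun x => by rw [hu]
  have hd : ∀ x : ℂ, ρ < ‖x‖ → ∃ u' : ℂ →L[ℝ] ℝ, HasFDerivAt u u' x ∧ ‖u'‖ ≤ |C| * ‖x‖ ^ (-(3 / 2) : ℝ) := by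
    intro x hx
    obtain ⟨h1, h2, h3⟩ := hG x hx
    have h4 : HasFDerivAt (fun x => 1 + G x) (fderiv ℝ G x) x := h1.hasFDerivAt.const_add 1
    have h5 : (1 + G x) ≠ 0 := by linarith
    have h7 : 0 < √(1 + G x) := Real.sqrt_pos.2 (by linarith)
    refine ⟨(1 / (2 * √(1 + G x))) • fderiv ℝ G x, ?_, ?_⟩
    · rw [hu]
      exact h4.sqrt h5
    · rw [norm_smul, Real.norm_of_nonneg (by positivity)]
      have h6 : √(G x) ≤ √(1 + G x) := Real.sqrt_le_sqrt (by linarith)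
      have hr : 0 ≤ ‖x‖ ^ (-(3 / 2) : ℝ) := Real.rpow_nonneg (norm_nonneg _) _
      have h8 : ‖fderiv ℝ G x‖ ≤ 2 * √(1 + G x) * (|C| * ‖x‖ ^ (-(3 / 2) : ℝ)) := by
        have h9 : 2 * √(G x) * (C * ‖x‖ ^ (-(3 / 2) : ℝ)) ≤ 2 * √(G x) * (|C| * ‖x‖ ^ (-(3 / 2) : ℝ)) :=
          mul_le_mul_of_nonneg_left (mul_le_mul_of_nonneg_right (le_abs_self C) hr) (by positivity)
        have h10 : 2 * √(G x) * (|C| * ‖x‖ ^ (-(3 / 2) : ℝ)) ≤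
            2 * √(1 + G x) * (|C| * ‖x‖ ^ (-(3 / 2) : ℝ)) :=
          mul_le_mul_of_nonneg_right (by linarith) (mul_nonneg (abs_nonneg _) hr)
        linarith
      calc 1 / (2 * √(1 + G x)) * ‖fderiv ℝ G x‖
          ≤ 1 / (2 * √(1 + G x)) * (2 * √(1 + G x) * (|C| * ‖x‖ ^ (-(3 / 2) : ℝ))) :=
            mul_le_mul_of_nonneg_left h8 (by positivity)
        _ = |C| * ‖x‖ ^ (-(3 / 2) : ℝ) := by
            field_simp
  -- the bound on the circle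
  obtain ⟨B, hB⟩ : ∃ B : ℝ, ∀ y : ℂ, ‖y‖ = 2 * ρ → u y ≤ B := by
    have hc : IsCompact (Metric.sphere (0 : ℂ) (2 * ρ)) := isCompact_sphere _ _
    have hcont : ContinuousOn u (Metric.sphere (0 : ℂ) (2 * ρ)) := by
      intro y hy
      rw [mem_sphere_zero_iff_norm] at hy
      obtain ⟨u', h1, -⟩ := hd y (by rw [hy]; linarith)
      exact h1.continuousAt.continuousWithinAt
    obtain ⟨B, hB⟩ := hc.bddAbove_image hcont
    refine ⟨B, fun y hy => hB ⟨y, ?_, rfl⟩⟩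
    rw [mem_sphere_zero_iff_norm, hy]
  refine ⟨B + 2 * |C| * (2 * ρ) ^ (-(1 / 2) : ℝ), fun x hx => ?_⟩
  have ht : 0 < ‖x‖ := by linarith
  have hGx := (hG x (by linarith)).2.1
  have h0 : √(G x) ≤ u x := by
    rw [hux]
    exact Real.sqrt_le_sqrt (by linarith)
  refine h0.trans ?_
  obtain ⟨v, hv⟩ : ∃ v : ℂ, v = ((‖x‖⁻¹ : ℝ) : ℂ) * x := ⟨_, rfl⟩
  have hvn : ‖v‖ = 1 := by
    rw [hv, norm_mul, Complex.norm_real, norm_inv, norm_norm, inv_mul_cancel₀ ht.ne']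
  have hxv : ((‖x‖ : ℝ) : ℂ) * v = x := by
    rw [hv, ← mul_assoc, ← Complex.ofReal_mul, mul_inv_cancel₀ ht.ne', Complex.ofReal_one, one_mul]
  have hnv : ∀ τ : ℝ, 0 < τ → ‖(τ : ℂ) * v‖ = τ := by
    intro τ hτ
    rw [norm_mul, hvn, mul_one, Complex.norm_real, Real.norm_of_nonneg hτ.le]
  have hder : ∀ τ : ℝ, ρ < τ → ∃ q' : ℝ, HasDerivAt (fun τ : ℝ => u ((τ : ℂ) * v)) q' τ ∧
      |q'| ≤ |C| * τ ^ (-(3 / 2) : ℝ) := by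
    intro τ hτ
    have hτ0 : 0 < τ := by linarith
    obtain ⟨u', h1, h2⟩ := hd ((τ : ℂ) * v) (by rw [hnv τ hτ0]; exact hτ)
    rw [hnv τ hτ0] at h2
    have h3 : HasDerivAt (fun τ : ℝ => (τ : ℂ) * v) v τ := by
      have h4 := (Complex.ofRealCLM.hasDerivAt (x := τ)).mul_const v
      simpa using h4
    refine ⟨u' v, h1.comp_hasDerivAt τ h3, ?_⟩
    calc |u' v| = ‖u' v‖ := (Real.norm_eq_abs _).symm
      _ ≤ ‖u'‖ * ‖v‖ := u'.le_opNorm v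
      _ = ‖u'‖ := by rw [hvn, mul_one]
      _ ≤ |C| * τ ^ (-(3 / 2) : ℝ) := h2
  have hder2 : ∀ τ : ℝ, ρ < τ → ∃ g' : ℝ,
      HasDerivAt (fun τ : ℝ => u ((τ : ℂ) * v) + 2 * |C| * τ ^ (-(1 / 2) : ℝ)) g' τ ∧ g' ≤ 0 := by
    intro τ hτ
    obtain ⟨q', h1, h2⟩ := hder τ hτ
    have hτ0 : τ ≠ 0 := by linarith
    have h3 := (Real.hasDerivAt_rpow_const (x := τ) (p := (-(1 / 2) : ℝ)) (Or.inl hτ0)).const_mul (2 * |C|)
    refine ⟨_, h1.add h3, ?_⟩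
    have h4 : (-(1 / 2) : ℝ) - 1 = -(3 / 2) := by norm_num
    rw [h4]
    have h5 := (abs_le.1 h2).2
    nlinarith
  have hanti : AntitoneOn (fun τ : ℝ => u ((τ : ℂ) * v) + 2 * |C| * τ ^ (-(1 / 2) : ℝ)) (Set.Icc (2 * ρ) ‖x‖) := by
    apply antitoneOn_of_deriv_nonpos (convex_Icc _ _)
    · intro τ hτ
      obtain ⟨g', h1, -⟩ := hder2 τ (by linarith [hτ.1])
      exact h1.continuousAt.continuousWithinAt
    · intro τ hτ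
      rw [interior_Icc] at hτ
      obtain ⟨g', h1, -⟩ := hder2 τ (by linarith [hτ.1])
      exact h1.differentiableAt.differentiableWithinAt
    · intro τ hτ
      rw [interior_Icc] at hτ
      obtain ⟨g', h1, h2⟩ := hder2 τ (by linarith [hτ.1])
      rw [h1.deriv]
      exact h2
  have h1 := hanti (Set.left_mem_Icc.2 hx) (Set.right_mem_Icc.2 hx) hx
  have h2 : u (((2 * ρ : ℝ) : ℂ) * v) ≤ B := hB _ (hnv _ (by linarith))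
  have h3 : 0 ≤ 2 * |C| * ‖x‖ ^ (-(1 / 2) : ℝ) := by
    have := Real.rpow_nonneg (norm_nonneg x) (-(1 / 2) : ℝ)
    positivity
  simp only [hxv] at h1
  linarith

end Pool.Agent.RHE
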