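import Pool.Agent.RHE.Basic

/-! # RHE-Cat: concatenation and reversal of flat paths

`cat`: `ξ t = ξ₁ (2 t) + ξ₂ (2 t - 1) - ξ₁ 1`, `ω t = ω₁ (2 t) + ω₂ (2 t - 1) - ω₁ 1`. `rev`: `ξ (1 - t)`, `ω (1 - t)`. -/

namespace Pool.Agent.RHE

namespace Dat

variable {D : Dat}

theorem Flat.cont_ρ {ξ ω : ℝ → ℂ} (h : D.Flat ξ ω) : Continuous (D.ρ ξ ω) := by
  have hξ : Continuous ξ := h.cξ.continuous
  have hω : Continuous ω := h.cω.continuous
  have hdξ : Continuous (deriv ξ) := h.cξ.continuous_deriv (by norm_num)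
  have hdω : Continuous (deriv ω) := h.cω.continuous_deriv (by norm_num)
  have hne : ∀ t i, ξ t - D.a i ≠ 0 := fun t i => D.sub_a_ne (h.pt t).1 i
  have hw : ∀ t, ω t ≠ 0 := fun t => (h.pt t).w_ne
  have h1 : Continuous fun t => D.Φ (ξ t) := by
    unfold Φ
    refine continuous_finset_sum _ fun i _ => continuous_const.mul ?_
    exact ((hξ.sub continuous_const).norm).log fun t => norm_ne_zero_iff.2 (hne t i)
  have h2 : Continuous fun t => D.F (ξ t) := by
    unfold F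
    exact continuous_finset_sum _ fun i _ => continuous_const.div (hξ.sub continuous_const) fun t => hne t i
  have h3 : Continuous fun t => Real.log ‖ω t‖ := hω.norm.log fun t => norm_ne_zero_iff.2 (hw t)
  exact (h1.mul (Complex.continuous_im.comp (hdω.div hω hw))).sub
    (h3.mul (Complex.continuous_im.comp (h2.mul hdξ)))

private theorem cat_rep {ξ ω ξ' ω' : ℝ → ℂ} {c d t : ℝ} (h1 : ξ =ᶠ[nhds t] fun s => ξ' (c * s + d))
    (h2 : ω =ᶠ[nhds t] fun s => ω' (c * s + d)) (hd1 : DifferentiableAt ℝ ξ' (c * t + d))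
    (hd2 : DifferentiableAt ℝ ω' (c * t + d)) : D.ρ ξ ω t = c * D.ρ ξ' ω' (c * t + d) := by
  have hl : HasDerivAt (fun s : ℝ => c * s + d) c t := by
    simpa using ((hasDerivAt_id t).const_mul c).add_const d
  have e1 : deriv ξ t = c • deriv ξ' (c * t + d) := by
    rw [h1.deriv_eq]
    exact (hd1.hasDerivAt.scomp t hl).deriv
  have e2 : deriv ω t = c • deriv ω' (c * t + d) := by
    rw [h2.deriv_eq]
    exact (hd2.hasDerivAt.scomp t hl).deriv
  have e3 : ξ t = ξ' (c * t + d) := h1.eq_of_nhds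
  have e4 : ω t = ω' (c * t + d) := h2.eq_of_nhds
  unfold ρ
  rw [e1, e2, e3, e4, Complex.real_smul, Complex.real_smul]
  have e5 : ((c : ℂ) * deriv ω' (c * t + d) / ω' (c * t + d)).im = c * (deriv ω' (c * t + d) / ω' (c * t + d)).im := by
    rw [mul_div_assoc, Complex.im_ofReal_mul]
  have e6 : (D.F (ξ' (c * t + d)) * ((c : ℂ) * deriv ξ' (c * t + d))).im =
      c * (D.F (ξ' (c * t + d)) * deriv ξ' (c * t + d)).im := by
    rw [mul_left_comm, Complex.im_ofReal_mul]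
  rw [e5, e6]
  ring

theorem Flat.cat {ξ₁ ω₁ ξ₂ ω₂ : ℝ → ℂ} (h₁ : D.Flat ξ₁ ω₁) (h₂ : D.Flat ξ₂ ω₂)
    (hξ : ξ₁ 1 = ξ₂ 0) (hω : ω₁ 1 = ω₂ 0) :
    ∃ ξ ω : ℝ → ℂ, D.Flat ξ ω ∧ ξ 0 = ξ₁ 0 ∧ ω 0 = ω₁ 0 ∧ ξ 1 = ξ₂ 1 ∧ ω 1 = ω₂ 1 ∧
      ∫ t in (0 : ℝ)..1, D.ρ ξ ω t =
        (∫ t in (0 : ℝ)..1, D.ρ ξ₁ ω₁ t) + ∫ t in (0 : ℝ)..1, D.ρ ξ₂ ω₂ t := by
  set ξ : ℝ → ℂ := fun t => ξ₁ (2 * t) + ξ₂ (2 * t - 1) - ξ₁ 1 with hξd
  set ω : ℝ → ℂ := fun t => ω₁ (2 * t) + ω₂ (2 * t - 1) - ω₁ 1 with hωd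
  have a1 : ∀ t ≤ (1 : ℝ) / 2, ξ t = ξ₁ (2 * t) ∧ ω t = ω₁ (2 * t) := by
    intro t ht
    obtain ⟨h3, h4⟩ := h₂.l (2 * t - 1) (by linarith)
    constructor
    · simp only [hξd]
      rw [h3, hξ]
      ring
    · simp only [hωd]
      rw [h4, hω]
      ring
  have a2 : ∀ t, (1 : ℝ) / 2 ≤ t → ξ t = ξ₂ (2 * t - 1) ∧ ω t = ω₂ (2 * t - 1) := by
    intro t ht
    obtain ⟨h3, h4⟩ := h₁.r (2 * t) (by linarith)
    constructor
    · simp only [hξd]
      rw [h3]
      ring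
    · simp only [hωd]
      rw [h4]
      ring
  have hF : D.Flat ξ ω := by
    refine ⟨?_, ?_, ?_, ?_, ?_⟩
    · exact ((h₁.cξ.comp (contDiff_const.mul contDiff_id)).add
        (h₂.cξ.comp ((contDiff_const.mul contDiff_id).sub contDiff_const))).sub contDiff_const
    · exact ((h₁.cω.comp (contDiff_const.mul contDiff_id)).add
        (h₂.cω.comp ((contDiff_const.mul contDiff_id).sub contDiff_const))).sub contDiff_const
    · intro t ht
      obtain ⟨h3, h4⟩ := a1 t (by linarith)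
      obtain ⟨h5, h6⟩ := a1 0 (by norm_num)
      obtain ⟨h7, h8⟩ := h₁.l (2 * t) (by linarith)
      rw [h3, h4, h5, h6, h7, h8, mul_zero]
      exact ⟨rfl, rfl⟩
    · intro t ht
      obtain ⟨h3, h4⟩ := a2 t (by linarith)
      obtain ⟨h5, h6⟩ := a2 1 (by norm_num)
      obtain ⟨h7, h8⟩ := h₂.r (2 * t - 1) (by linarith)
      rw [h3, h4, h5, h6, h7, h8]
      norm_num
    · intro t
      rcases le_total t (1 / 2) with ht | ht
      · rw [(a1 t ht).1, (a1 t ht).2]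
        exact h₁.pt _
      · rw [(a2 t ht).1, (a2 t ht).2]
        exact h₂.pt _
  have hne : ∀ᵐ t : ℝ, t ≠ 1 / 2 :=
    MeasureTheory.compl_mem_ae_iff.2 (MeasureTheory.measure_singleton _)
  have b1 : ∫ t in (0 : ℝ)..(1 / 2), D.ρ ξ ω t = ∫ t in (0 : ℝ)..1, D.ρ ξ₁ ω₁ t := by
    have c1 : ∫ t in (0 : ℝ)..(1 / 2), D.ρ ξ ω t = ∫ t in (0 : ℝ)..(1 / 2), 2 * D.ρ ξ₁ ω₁ (2 * t) := by
      refine intervalIntegral.integral_congr_ae ?_
      filter_upwards [hne] with t ht hI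
      rw [Set.uIoc_of_le (by norm_num)] at hI
      have ht1 : t < 1 / 2 := lt_of_le_of_ne hI.2 ht
      have hn : ∀ᶠ s in nhds t, s < 1 / 2 := eventually_lt_nhds ht1
      have c2 := cat_rep (D := D) (ξ := ξ) (ω := ω) (ξ' := ξ₁) (ω' := ω₁) (c := 2) (d := 0) (t := t)
        (by
          filter_upwards [hn] with s hs
          rw [(a1 s hs.le).1, add_zero])
        (by
          filter_upwards [hn] with s hs
          rw [(a1 s hs.le).2, add_zero])
        (h₁.cξ.differentiable (by norm_num) _) (h₁.cω.differentiable (by norm_num) _)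
      rw [add_zero] at c2
      exact c2
    rw [c1, intervalIntegral.integral_const_mul, intervalIntegral.integral_comp_mul_left _ (two_ne_zero)]
    rw [smul_eq_mul, mul_zero]
    norm_num
    ring
  have b2 : ∫ t in ((1 : ℝ) / 2)..1, D.ρ ξ ω t = ∫ t in (0 : ℝ)..1, D.ρ ξ₂ ω₂ t := by
    have c1 : ∫ t in ((1 : ℝ) / 2)..1, D.ρ ξ ω t = ∫ t in ((1 : ℝ) / 2)..1, 2 * D.ρ ξ₂ ω₂ (2 * t - 1) := by
      refine intervalIntegral.integral_congr_ae ?_
      refine Filter.Eventually.of_forall fun t hI => ?_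
      rw [Set.uIoc_of_le (by norm_num)] at hI
      have ht1 : 1 / 2 < t := hI.1
      have hn : ∀ᶠ s in nhds t, 1 / 2 < s := eventually_gt_nhds ht1
      have c2 := cat_rep (D := D) (ξ := ξ) (ω := ω) (ξ' := ξ₂) (ω' := ω₂) (c := 2) (d := -1) (t := t)
        (by
          filter_upwards [hn] with s hs
          rw [(a2 s hs.le).1, ← sub_eq_add_neg])
        (by
          filter_upwards [hn] with s hs
          rw [(a2 s hs.le).2, ← sub_eq_add_neg])
        (h₂.cξ.differentiable (by norm_num) _) (h₂.cω.differentiable (by norm_num) _)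
      rw [← sub_eq_add_neg] at c2
      exact c2
    rw [c1, intervalIntegral.integral_const_mul, intervalIntegral.integral_comp_mul_sub _ (two_ne_zero)]
    rw [smul_eq_mul]
    norm_num
    ring
  refine ⟨ξ, ω, hF, ?_, ?_, ?_, ?_, ?_⟩
  · rw [(a1 0 (by norm_num)).1, mul_zero]
  · rw [(a1 0 (by norm_num)).2, mul_zero]
  · rw [(a2 1 (by norm_num)).1]
    norm_num
  · rw [(a2 1 (by norm_num)).2]
    norm_num
  · rw [← b1, ← b2]
    exact (intervalIntegral.integral_add_adjacent_intervals (hF.cont_ρ.intervalIntegrable _ _)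
      (hF.cont_ρ.intervalIntegrable _ _)).symm

theorem Flat.rev {ξ ω : ℝ → ℂ} (h : D.Flat ξ ω) :
    D.Flat (fun t => ξ (1 - t)) (fun t => ω (1 - t)) ∧
      ∫ t in (0 : ℝ)..1, D.ρ (fun t => ξ (1 - t)) (fun t => ω (1 - t)) t =
        - ∫ t in (0 : ℝ)..1, D.ρ ξ ω t := by
  refine ⟨⟨h.cξ.comp (contDiff_const.sub contDiff_id), h.cω.comp (contDiff_const.sub contDiff_id), ?_, ?_,
    fun t => h.pt _⟩, ?_⟩
  · intro t ht
    obtain ⟨h1, h2⟩ := h.r (1 - t) (by linarith)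
    simp only [sub_zero]
    exact ⟨h1, h2⟩
  · intro t ht
    obtain ⟨h1, h2⟩ := h.l (1 - t) (by linarith)
    simp only [sub_self]
    exact ⟨h1, h2⟩
  · have c1 : ∀ t, D.ρ (fun t => ξ (1 - t)) (fun t => ω (1 - t)) t = - D.ρ ξ ω (1 - t) := by
      intro t
      have e : ∀ s : ℝ, (-1) * s + 1 = 1 - s := fun s => by ring
      have c2 := cat_rep (D := D) (ξ := fun t => ξ (1 - t)) (ω := fun t => ω (1 - t)) (ξ' := ξ) (ω' := ω)
        (c := -1) (d := 1) (t := t)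
        (Filter.Eventually.of_forall fun s => by simp only [e])
        (Filter.Eventually.of_forall fun s => by simp only [e])
        (h.cξ.differentiable (by norm_num) _) (h.cω.differentiable (by norm_num) _)
      rw [e, neg_one_mul] at c2
      exact c2
    rw [intervalIntegral.integral_congr fun t _ => c1 t, intervalIntegral.integral_neg,
      intervalIntegral.integral_comp_sub_left (fun t => D.ρ ξ ω t)]
    norm_num

end Dat

end Pool.Agent.RHE
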