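import Pool.Agent.RHE.Basic

/-! # RHE-Cls: a closed flat path gives a `2π`-periodic loop with the same integral

PLAN. Put `τ t = 3 * Int.fract (t / (2π)) - 1 ∈ [-1, 2)`, `ξ' = ξ ∘ τ`, `ω' = ω ∘ τ`. They are periodic. `C²`:
if `t₀/(2π)` is not an integer, then near `t₀` the function `Int.fract (t/(2π)) = t/(2π) - n` is affine; if
`t₀/(2π)` is an integer, then for `t` near `t₀`, `τ t ≤ 0` or `τ t ≥ 1`, so `ξ' t = ξ 0 = ξ 1` is locally
constant (by `Flat.l`, `Flat.r` and `hξ`). (`contDiff_iff_contDiffAt`, `ContDiffAt.congr_of_eventuallyEq`.)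
Integral over `[0, 2π]`: on `(0, 2π)`, `τ t = 3 t/(2π) - 1`, `ρ ξ' ω' t = (3/(2π)) ρ ξ ω (3t/(2π) - 1)`, so the
integral is `∫ u in -1..2, ρ ξ ω u`, and `ρ ξ ω = 0` outside `[0, 1]` (the derivatives vanish there),
see `Flat.ρ_zero`. -/

namespace Pool.Agent.RHE

namespace Dat

variable {D : Dat}

private theorem cls_dl {f : ℝ → ℂ} (hf : Differentiable ℝ f) (h : ∀ t ≤ 0, f t = f 0) {t : ℝ} (ht : t ≤ 0) :
    deriv f t = 0 := by
  have h1 : HasDerivWithinAt f (deriv f t) (Set.Iic t) t := (hf t).hasDerivAt.hasDerivWithinAt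
  have h2 : HasDerivWithinAt f 0 (Set.Iic t) t :=
    (hasDerivWithinAt_const t (Set.Iic t) (f 0)).congr (fun x hx => h x (le_trans hx ht)) (h t ht)
  exact (uniqueDiffWithinAt_Iic t).eq_deriv _ h1 h2

private theorem cls_dr {f : ℝ → ℂ} (hf : Differentiable ℝ f) (h : ∀ t, 1 ≤ t → f t = f 1) {t : ℝ} (ht : 1 ≤ t) :
    deriv f t = 0 := by
  have h1 : HasDerivWithinAt f (deriv f t) (Set.Ici t) t := (hf t).hasDerivAt.hasDerivWithinAt
  have h2 : HasDerivWithinAt f 0 (Set.Ici t) t :=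
    (hasDerivWithinAt_const t (Set.Ici t) (f 1)).congr (fun x hx => h x (le_trans ht hx)) (h t ht)
  exact (uniqueDiffWithinAt_Ici t).eq_deriv _ h1 h2

/-- the periodic reparametrisation -/
private noncomputable def clsT (t : ℝ) : ℝ := 3 * Int.fract (t / (2 * Real.pi)) - 1

private theorem clsT_per (t : ℝ) : clsT (t + 2 * Real.pi) = clsT t := by
  unfold clsT
  have h : (t + 2 * Real.pi) / (2 * Real.pi) = t / (2 * Real.pi) + 1 := by
    have := Real.pi_pos
    field_simp
  rw [h, Int.fract_add_one]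

private theorem clsT_affine {t : ℝ} {n : ℤ} (h1 : 2 * Real.pi * n ≤ t) (h2 : t < 2 * Real.pi * (n + 1)) :
    clsT t = 3 * (t / (2 * Real.pi) - n) - 1 := by
  unfold clsT
  have hp := Real.pi_pos
  have h : ⌊t / (2 * Real.pi)⌋ = n := by
    rw [Int.floor_eq_iff]
    constructor
    · rw [le_div_iff₀ (by positivity)]; linarith
    · rw [div_lt_iff₀ (by positivity)]; linarith
  rw [Int.fract, h]

private theorem cls_cd {f : ℝ → ℂ} (hf : ContDiff ℝ 2 f) (hl : ∀ t ≤ 0, f t = f 0)
    (hr : ∀ t, 1 ≤ t → f t = f 1) (h01 : f 0 = f 1) : ContDiff ℝ 2 (fun t => f (clsT t)) := by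
  have hp := Real.pi_pos
  rw [contDiff_iff_contDiffAt]
  intro t₀
  set n : ℤ := ⌊t₀ / (2 * Real.pi)⌋ with hn
  have hn1 : (n : ℝ) ≤ t₀ / (2 * Real.pi) := Int.floor_le _
  have hn2 : t₀ / (2 * Real.pi) < n + 1 := Int.lt_floor_add_one _
  rw [le_div_iff₀ (by positivity)] at hn1
  rw [div_lt_iff₀ (by positivity)] at hn2
  rcases eq_or_lt_of_le hn1 with h | h
  · have hc : (fun t => f (clsT t)) =ᶠ[nhds t₀] fun _ => f 0 := by
      have hI : Set.Ioo (t₀ - 2 * Real.pi / 3) (t₀ + 2 * Real.pi / 3) ∈ nhds t₀ :=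
        Ioo_mem_nhds (by linarith) (by linarith)
      filter_upwards [hI] with t ht
      rcases le_or_gt t₀ t with h1 | h1
      · rw [clsT_affine (n := n) (by linarith) (by linarith [ht.2])]
        apply hl
        have h3 : t / (2 * Real.pi) < n + 1 / 3 := by
          rw [div_lt_iff₀ (by positivity)]; linarith [ht.2]
        linarith
      · rw [clsT_affine (n := n - 1) (by push_cast; linarith [ht.1]) (by push_cast; linarith)]
        rw [h01]
        apply hr
        have h3 : (n : ℝ) - 1 / 3 < t / (2 * Real.pi) := by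
          rw [lt_div_iff₀ (by positivity)]; linarith [ht.1]
        push_cast
        linarith
    exact contDiffAt_const.congr_of_eventuallyEq hc
  · have hc : (fun t => f (clsT t)) =ᶠ[nhds t₀] fun t => f (3 * (t / (2 * Real.pi) - n) - 1) := by
      have hI : Set.Ioo (2 * Real.pi * n) (2 * Real.pi * (n + 1)) ∈ nhds t₀ :=
        Ioo_mem_nhds (by linarith) (by linarith)
      filter_upwards [hI] with t ht
      rw [clsT_affine (n := n) ht.1.le ht.2]
    refine ContDiffAt.congr_of_eventuallyEq ?_ hc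
    have h2 : ContDiff ℝ 2 fun t : ℝ => 3 * (t / (2 * Real.pi) - n) - 1 := by fun_prop
    exact (hf.comp h2).contDiffAt

theorem Flat.closed {ξ ω : ℝ → ℂ} (h : D.Flat ξ ω) (hξ : ξ 0 = ξ 1) (hω : ω 0 = ω 1) :
    ∃ ξ' ω' : ℝ → ℂ, D.Loop ξ' ω' ∧
      ∫ t in (0 : ℝ)..(2 * Real.pi), D.ρ ξ' ω' t = ∫ t in (0 : ℝ)..1, D.ρ ξ ω t := by
  have hp := Real.pi_pos
  have dξ : Differentiable ℝ ξ := h.cξ.differentiable (by norm_num)
  have dω : Differentiable ℝ ω := h.cω.differentiable (by norm_num)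
  have z1 : ∀ t ≤ 0, D.ρ ξ ω t = 0 := by
    intro t ht
    unfold ρ
    rw [cls_dl dξ (fun t ht => (h.l t ht).1) ht, cls_dl dω (fun t ht => (h.l t ht).2) ht]
    simp
  have z2 : ∀ t, 1 ≤ t → D.ρ ξ ω t = 0 := by
    intro t ht
    unfold ρ
    rw [cls_dr dξ (fun t ht => (h.r t ht).1) ht, cls_dr dω (fun t ht => (h.r t ht).2) ht]
    simp
  refine ⟨fun t => ξ (clsT t), fun t => ω (clsT t), ⟨?_, ?_, ?_, ?_, ?_⟩, ?_⟩
  · exact cls_cd h.cξ (fun t ht => (h.l t ht).1) (fun t ht => (h.r t ht).1) hξ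
  · exact cls_cd h.cω (fun t ht => (h.l t ht).2) (fun t ht => (h.r t ht).2) hω
  · intro t
    show ξ (clsT (t + 2 * Real.pi)) = ξ (clsT t)
    rw [clsT_per]
  · intro t
    show ω (clsT (t + 2 * Real.pi)) = ω (clsT t)
    rw [clsT_per]
  · intro t
    exact h.pt _
  · have key : ∀ t ∈ Set.Ioo (0 : ℝ) (2 * Real.pi), D.ρ (fun t => ξ (clsT t)) (fun t => ω (clsT t)) t =
        (3 / (2 * Real.pi)) * D.ρ ξ ω (3 / (2 * Real.pi) * t - 1) := by
      intro t ht
      have hτ : ∀ s ∈ Set.Ioo (0 : ℝ) (2 * Real.pi), clsT s = 3 / (2 * Real.pi) * s - 1 := by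
        intro s hs
        rw [clsT_affine (n := 0) (by simpa using hs.1.le) (by simpa using hs.2)]
        push_cast
        field_simp
        ring
      have hev : clsT =ᶠ[nhds t] fun s => 3 / (2 * Real.pi) * s - 1 := by
        filter_upwards [Ioo_mem_nhds ht.1 ht.2] with s hs
        exact hτ s hs
      have hd : HasDerivAt clsT (3 / (2 * Real.pi)) t := by
        have h1 : HasDerivAt (fun s : ℝ => 3 / (2 * Real.pi) * s - 1) (3 / (2 * Real.pi)) t := by
          simpa using ((hasDerivAt_id t).const_mul (3 / (2 * Real.pi))).sub_const 1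
        exact h1.congr_of_eventuallyEq hev
      have e1 : deriv (fun t => ξ (clsT t)) t = (3 / (2 * Real.pi) : ℝ) • deriv ξ (clsT t) :=
        (HasDerivAt.scomp t (dξ _).hasDerivAt hd).deriv
      have e2 : deriv (fun t => ω (clsT t)) t = (3 / (2 * Real.pi) : ℝ) • deriv ω (clsT t) :=
        (HasDerivAt.scomp t (dω _).hasDerivAt hd).deriv
      unfold ρ
      rw [e1, e2]
      beta_reduce
      rw [hτ t ht]
      set u := 3 / (2 * Real.pi) * t - 1
      set c := 3 / (2 * Real.pi)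
      have e3 : c • deriv ω u / ω u = c • (deriv ω u / ω u) := by
        rw [smul_div_assoc]
      have e4 : D.F (ξ u) * c • deriv ξ u = c • (D.F (ξ u) * deriv ξ u) := by
        rw [mul_smul_comm]
      rw [e3, e4, Complex.smul_im, Complex.smul_im, smul_eq_mul, smul_eq_mul]
      ring
    have s1 : ∫ t in (0 : ℝ)..(2 * Real.pi), D.ρ (fun t => ξ (clsT t)) (fun t => ω (clsT t)) t =
        ∫ t in (0 : ℝ)..(2 * Real.pi), (3 / (2 * Real.pi)) * D.ρ ξ ω (3 / (2 * Real.pi) * t - 1) := by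
      rw [intervalIntegral.integral_of_le (by positivity), intervalIntegral.integral_of_le (by positivity),
        MeasureTheory.integral_Ioc_eq_integral_Ioo, MeasureTheory.integral_Ioc_eq_integral_Ioo]
      exact MeasureTheory.setIntegral_congr_fun measurableSet_Ioo key
    rw [s1, intervalIntegral.integral_const_mul, intervalIntegral.mul_integral_comp_mul_sub]
    have s2 : 3 / (2 * Real.pi) * 0 - 1 = -1 := by ring
    have s3 : 3 / (2 * Real.pi) * (2 * Real.pi) - 1 = 2 := by field_simp; norm_num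
    rw [s2, s3, intervalIntegral.integral_of_le (by norm_num), intervalIntegral.integral_of_le (by norm_num)]
    refine MeasureTheory.setIntegral_eq_of_subset_of_forall_sdiff_eq_zero measurableSet_Ioc ?_ ?_
    · exact Set.Ioc_subset_Ioc (by norm_num) (by norm_num)
    · intro t ht
      rcases le_or_gt t 0 with h1 | h1
      · exact z1 t h1
      · rcases le_or_gt t 1 with h2 | h2
        · exact absurd ⟨h1, h2⟩ ht.2
        · exact z2 t h2.le

end Dat

end Pool.Agent.RHE
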