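import Mathlib

/-! # RHE-CutB (Mathlib only): cut-off functions

PLAN. Let `φ : ContDiffBump (0 : ℂ)` with `rIn = 1`, `rOut = 2`: smooth, `0 ≤ φ ≤ 1`, `φ = 1` on
`closedBall 0 1`, support `ball 0 2`; `K₀ = sup ‖fderiv φ‖` (continuous with compact support). Put
`χ x = φ(x/ρ) ∏_{s ∈ S} (1 - φ((x - s)/ε))`. Smooth, `0 ≤ χ ≤ 1`, support in `ball 0 (2ρ)`, zero on
`ball s ε`, equal to `1` where `‖x‖ ≤ ρ` and `2ε ≤ ‖x - s‖` for all `s`. Derivative: product rule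
(`HasFDerivAt.finset_prod` or induction); `fderiv (φ((· - s)/ε)) x = 0` unless `ε ≤ ‖x - s‖ ≤ 2ε`
(outside it is locally constant, or at the boundary use that a max/min of a differentiable function has
zero derivative; or `φ` is constant on the closed ball of radius 1 and zero outside the ball of radius 2,
so the derivative vanishes on the closures of the interiors by continuity), norm `≤ K₀/ε`. -/

namespace Pool.Agent.RHE

private noncomputable def bmp : ContDiffBump (0 : ℂ) where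
  rIn := 1
  rOut := 2
  rIn_pos := one_pos
  rIn_lt_rOut := one_lt_two

private theorem bmp_one (y : ℂ) (h : ‖y‖ ≤ 1) : bmp y = 1 := by
  apply bmp.one_of_mem_closedBall
  rw [Metric.mem_closedBall, dist_zero_right]
  exact h

private theorem bmp_zero (y : ℂ) (h : 2 ≤ ‖y‖) : bmp y = 0 := by
  apply bmp.zero_of_le_dist
  rw [dist_zero_right]
  exact h

private theorem bmp_fd (y : ℂ) (h : ¬ (1 ≤ ‖y‖ ∧ ‖y‖ ≤ 2)) : fderiv ℝ bmp y = 0 := by
  rcases lt_or_ge ‖y‖ 1 with h1 | h1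
  · have h2 : (bmp : ℂ → ℝ) =ᶠ[nhds y] fun _ => 1 := by
      have h3 : {z : ℂ | ‖z‖ < 1} ∈ nhds y := (isOpen_lt continuous_norm continuous_const).mem_nhds h1
      filter_upwards [h3] with z hz
      exact bmp_one z (le_of_lt hz)
    rw [h2.fderiv_eq]
    exact fderiv_const_apply 1
  · have h4 : 2 < ‖y‖ := by
      by_contra h5
      exact h ⟨h1, not_lt.1 h5⟩
    have h2 : (bmp : ℂ → ℝ) =ᶠ[nhds y] fun _ => 0 := by
      have h3 : {z : ℂ | 2 < ‖z‖} ∈ nhds y := (isOpen_lt continuous_const continuous_norm).mem_nhds h4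
      filter_upwards [h3] with z hz
      exact bmp_zero z (le_of_lt hz)
    rw [h2.fderiv_eq]
    exact fderiv_const_apply 0

private theorem scal (K : ℝ) (hK : ∀ y, ‖fderiv ℝ bmp y‖ ≤ K) (s : ℂ) (ε : ℝ) (hε : 0 < ε) (x : ℂ) :
    ‖fderiv ℝ (fun x => bmp (ε⁻¹ • (x - s))) x‖ ≤
      Set.indicator {y : ℂ | ε ≤ ‖y - s‖ ∧ ‖y - s‖ ≤ 2 * ε} (fun _ => K / ε) x := by
  have hb : Differentiable ℝ bmp := (bmp.contDiff (n := 1)).differentiable one_ne_zero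
  have hin : HasFDerivAt (fun x : ℂ => ε⁻¹ • (x - s)) (ε⁻¹ • ContinuousLinearMap.id ℝ ℂ) x :=
    ((hasFDerivAt_id x).sub_const s).const_smul ε⁻¹
  have hfd : fderiv ℝ (fun x => bmp (ε⁻¹ • (x - s))) x =
      (fderiv ℝ bmp (ε⁻¹ • (x - s))).comp (ε⁻¹ • ContinuousLinearMap.id ℝ ℂ) :=
    ((hb _).hasFDerivAt.comp x hin).fderiv
  have hn : ‖ε⁻¹ • (x - s)‖ = ε⁻¹ * ‖x - s‖ := by
    rw [norm_smul, Real.norm_eq_abs, abs_of_pos (inv_pos.2 hε)]
  have hc := hK (ε⁻¹ • (x - s))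
  rw [hfd]
  by_cases hx : ε ≤ ‖x - s‖ ∧ ‖x - s‖ ≤ 2 * ε
  · rw [Set.indicator_of_mem (show x ∈ {y : ℂ | ε ≤ ‖y - s‖ ∧ ‖y - s‖ ≤ 2 * ε} from hx)]
    refine (ContinuousLinearMap.opNorm_comp_le _ _).trans ?_
    rw [norm_smul, Real.norm_eq_abs, abs_of_pos (inv_pos.2 hε), ContinuousLinearMap.norm_id, mul_one,
      ← div_eq_mul_inv]
    exact div_le_div_of_nonneg_right hc hε.le
  · rw [Set.indicator_of_notMem (show x ∉ {y : ℂ | ε ≤ ‖y - s‖ ∧ ‖y - s‖ ≤ 2 * ε} from hx)]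
    rw [bmp_fd, ContinuousLinearMap.zero_comp, norm_zero]
    rw [hn]
    rintro ⟨h1, h2⟩
    apply hx
    constructor
    · rw [inv_mul_eq_div, one_le_div hε] at h1
      exact h1
    · rw [inv_mul_eq_div, div_le_iff₀ hε] at h2
      exact h2

private theorem prod_df (S : Finset ℂ) (f : ℂ → ℂ → ℝ) (hf : ∀ s ∈ S, Differentiable ℝ (f s)) :
    Differentiable ℝ (fun x => ∏ s ∈ S, f s x) := by
  classical
  induction S using Finset.induction with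
  | empty =>
    simp only [Finset.prod_empty]
    exact differentiable_const 1
  | insert a S ha ih =>
    have h1 : (fun x => ∏ s ∈ insert a S, f s x) = fun x => f a x * ∏ s ∈ S, f s x := by
      funext y
      rw [Finset.prod_insert ha]
    rw [h1]
    exact (hf a (Finset.mem_insert_self a S)).mul (ih fun s hs => hf s (Finset.mem_insert_of_mem hs))

private theorem prod_bd (S : Finset ℂ) (f : ℂ → ℂ → ℝ) (hf : ∀ s ∈ S, Differentiable ℝ (f s))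
    (hb : ∀ s ∈ S, ∀ x, |f s x| ≤ 1) (x : ℂ) :
    ‖fderiv ℝ (fun x => ∏ s ∈ S, f s x) x‖ ≤ ∑ s ∈ S, ‖fderiv ℝ (f s) x‖ := by
  classical
  induction S using Finset.induction with
  | empty =>
    simp
  | insert a S ha ih =>
    have h1 : (fun x => ∏ s ∈ insert a S, f s x) = fun x => f a x * ∏ s ∈ S, f s x := by
      funext y
      rw [Finset.prod_insert ha]
    have hS : ∀ s ∈ S, Differentiable ℝ (f s) := fun s hs => hf s (Finset.mem_insert_of_mem hs)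
    have hS2 : ∀ s ∈ S, ∀ x, |f s x| ≤ 1 := fun s hs => hb s (Finset.mem_insert_of_mem hs)
    have h2 : DifferentiableAt ℝ (fun x => ∏ s ∈ S, f s x) x := prod_df S f hS x
    rw [h1, fderiv_fun_mul (hf a (Finset.mem_insert_self a S) x) h2, Finset.sum_insert ha]
    refine (norm_add_le _ _).trans ?_
    rw [norm_smul, norm_smul, Real.norm_eq_abs, Real.norm_eq_abs]
    have h3 : |f a x| ≤ 1 := hb a (Finset.mem_insert_self a S) x
    have h4 : |∏ s ∈ S, f s x| ≤ 1 := by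
      rw [Finset.abs_prod]
      exact Finset.prod_le_one (fun s _ => abs_nonneg _) fun s hs => hS2 s hs x
    have h5 := ih hS hS2
    have h6 := norm_nonneg (fderiv ℝ (f a) x)
    have h7 := norm_nonneg (fderiv ℝ (fun x => ∏ s ∈ S, f s x) x)
    have h8 : |f a x| * ‖fderiv ℝ (fun x => ∏ s ∈ S, f s x) x‖ ≤ ‖fderiv ℝ (fun x => ∏ s ∈ S, f s x) x‖ :=
      mul_le_of_le_one_left h7 h3
    have h9 : |∏ s ∈ S, f s x| * ‖fderiv ℝ (f a) x‖ ≤ ‖fderiv ℝ (f a) x‖ :=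
      mul_le_of_le_one_left h6 h4
    linarith

theorem exists_cut : ∃ K : ℝ, 0 ≤ K ∧ ∀ (S : Finset ℂ) (ε ρ : ℝ), 0 < ε → 0 < ρ →
    ∃ χ : ℂ → ℝ, ContDiff ℝ 1 χ ∧ HasCompactSupport χ ∧ (∀ s ∈ S, χ =ᶠ[nhds s] 0) ∧
      (∀ x, 0 ≤ χ x ∧ χ x ≤ 1) ∧
      (∀ x, ‖x‖ ≤ ρ → (∀ s ∈ S, 2 * ε ≤ ‖x - s‖) → χ x = 1) ∧
      ∀ x, ‖fderiv ℝ χ x‖ ≤
        ∑ s ∈ S, Set.indicator {y : ℂ | ε ≤ ‖y - s‖ ∧ ‖y - s‖ ≤ 2 * ε} (fun _ => K / ε) x +
          Set.indicator {y : ℂ | ρ ≤ ‖y‖ ∧ ‖y‖ ≤ 2 * ρ} (fun _ => K / ρ) x := by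
  obtain ⟨K, hK⟩ : ∃ K, ∀ y, ‖fderiv ℝ bmp y‖ ≤ K :=
    (bmp.hasCompactSupport.fderiv (𝕜 := ℝ)).exists_bound_of_continuous
      ((bmp.contDiff (n := 1)).continuous_fderiv one_ne_zero)
  have hcd : ∀ (s : ℂ) (ε : ℝ), ContDiff ℝ 1 (fun x : ℂ => bmp (ε⁻¹ • (x - s))) := by
    intro s ε
    have h : ContDiff ℝ 1 (fun x : ℂ => ε⁻¹ • (x - s)) := by fun_prop
    exact (bmp.contDiff (n := 1)).comp h
  have hsc : ∀ (s : ℂ) (ε : ℝ), 0 < ε → ∀ x : ℂ, ‖ε⁻¹ • (x - s)‖ = ‖x - s‖ / ε := by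
    intro s ε hε x
    rw [norm_smul, Real.norm_eq_abs, abs_of_pos (inv_pos.2 hε), inv_mul_eq_div]
  refine ⟨K, (norm_nonneg _).trans (hK 0), ?_⟩
  intro S ε ρ hε hρ
  have hcp : ContDiff ℝ 1 (fun x : ℂ => ∏ s ∈ S, (1 - bmp (ε⁻¹ • (x - s)))) := by
    apply contDiff_prod
    intro s _
    exact contDiff_const.sub (hcd s ε)
  refine ⟨fun x => bmp (ρ⁻¹ • (x - 0)) * ∏ s ∈ S, (1 - bmp (ε⁻¹ • (x - s))), (hcd 0 ρ).mul hcp, ?_, ?_, ?_, ?_, ?_⟩
  · refine HasCompactSupport.intro (isCompact_closedBall (0 : ℂ) (2 * ρ)) ?_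
    intro x hx
    rw [Metric.mem_closedBall, dist_zero_right, not_le] at hx
    have h1 : bmp (ρ⁻¹ • (x - 0)) = 0 := by
      apply bmp_zero
      rw [hsc 0 ρ hρ, sub_zero, le_div_iff₀ hρ]
      exact hx.le
    show bmp (ρ⁻¹ • (x - 0)) * _ = 0
    rw [h1, zero_mul]
  · intro s hs
    have h1 : {z : ℂ | ‖z - s‖ < ε} ∈ nhds s := by
      refine (isOpen_lt (continuous_id.sub continuous_const).norm continuous_const).mem_nhds ?_
      show ‖id s - s‖ < ε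
      rw [id, sub_self, norm_zero]
      exact hε
    filter_upwards [h1] with z hz
    have h2 : (1 : ℝ) - bmp (ε⁻¹ • (z - s)) = 0 := by
      rw [bmp_one, sub_self]
      rw [hsc s ε hε, div_le_one hε]
      exact le_of_lt hz
    show bmp (ρ⁻¹ • (z - 0)) * ∏ s ∈ S, (1 - bmp (ε⁻¹ • (z - s))) = 0
    rw [Finset.prod_eq_zero hs h2, mul_zero]
  · intro x
    have h1 : 0 ≤ ∏ s ∈ S, (1 - bmp (ε⁻¹ • (x - s))) :=
      Finset.prod_nonneg fun s _ => sub_nonneg.2 bmp.le_one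
    have h2 : ∏ s ∈ S, (1 - bmp (ε⁻¹ • (x - s))) ≤ 1 :=
      Finset.prod_le_one (fun s _ => sub_nonneg.2 bmp.le_one) fun s _ => by
        have := bmp.nonneg' (ε⁻¹ • (x - s))
        linarith
    have h3 : 0 ≤ bmp (ρ⁻¹ • (x - 0)) := bmp.nonneg' _
    have h4 : bmp (ρ⁻¹ • (x - 0)) ≤ 1 := bmp.le_one
    exact ⟨mul_nonneg h3 h1, mul_le_one₀ h4 h1 h2⟩
  · intro x hx hS
    have h1 : bmp (ρ⁻¹ • (x - 0)) = 1 := by
      apply bmp_one
      rw [hsc 0 ρ hρ, sub_zero, div_le_one hρ]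
      exact hx
    have h2 : ∏ s ∈ S, (1 - bmp (ε⁻¹ • (x - s))) = 1 := by
      apply Finset.prod_eq_one
      intro s hs
      rw [bmp_zero, sub_zero]
      rw [hsc s ε hε, le_div_iff₀ hε]
      exact hS s hs
    show bmp (ρ⁻¹ • (x - 0)) * _ = 1
    rw [h1, h2, one_mul]
  · intro x
    have hd1 : Differentiable ℝ (fun x : ℂ => bmp (ρ⁻¹ • (x - 0))) := (hcd 0 ρ).differentiable one_ne_zero
    have hd2 : Differentiable ℝ (fun x : ℂ => ∏ s ∈ S, (1 - bmp (ε⁻¹ • (x - s)))) := hcp.differentiable one_ne_zero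
    rw [fderiv_fun_mul (hd1 x) (hd2 x)]
    refine (norm_add_le _ _).trans ?_
    rw [norm_smul, norm_smul, Real.norm_eq_abs, Real.norm_eq_abs]
    have h3 : |bmp (ρ⁻¹ • (x - 0))| ≤ 1 := by
      rw [abs_of_nonneg (bmp.nonneg' _)]
      exact bmp.le_one
    have hfb : ∀ s ∈ S, ∀ x : ℂ, |1 - bmp (ε⁻¹ • (x - s))| ≤ 1 := by
      intro s _ x
      rw [abs_of_nonneg (sub_nonneg.2 bmp.le_one)]
      have := bmp.nonneg' (ε⁻¹ • (x - s))
      linarith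
    have h4 : |∏ s ∈ S, (1 - bmp (ε⁻¹ • (x - s)))| ≤ 1 := by
      rw [Finset.abs_prod]
      exact Finset.prod_le_one (fun s _ => abs_nonneg _) fun s hs => hfb s hs x
    have h5 := prod_bd S (fun s x => 1 - bmp (ε⁻¹ • (x - s)))
      (fun s _ => (contDiff_const.sub (hcd s ε)).differentiable one_ne_zero) hfb x
    have h6 : ∑ s ∈ S, ‖fderiv ℝ (fun x => 1 - bmp (ε⁻¹ • (x - s))) x‖ ≤
        ∑ s ∈ S, Set.indicator {y : ℂ | ε ≤ ‖y - s‖ ∧ ‖y - s‖ ≤ 2 * ε} (fun _ => K / ε) x := by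
      refine Finset.sum_le_sum fun s _ => ?_
      rw [fderiv_const_sub, norm_neg]
      exact scal K hK s ε hε x
    have h7 := scal K hK 0 ρ hρ x
    simp only [sub_zero] at h7 h3 h4 h5 h6 ⊢
    have h8 := mul_le_of_le_one_left (norm_nonneg (fderiv ℝ (fun x : ℂ => ∏ s ∈ S, (1 - bmp (ε⁻¹ • (x - s)))) x)) h3
    have h9 := mul_le_of_le_one_left (norm_nonneg (fderiv ℝ (fun x : ℂ => bmp (ρ⁻¹ • x)) x)) h4
    linarith

end Pool.Agent.RHE
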