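import Pool.Agent.RHE.CutA
import Pool.Agent.RHE.CutB

/-! # RHE-CutC: a vector field with nonnegative curl and small singularities has curl zero

PLAN. Suppose the curl `u = fderiv V₂ x 1 - fderiv V₁ x I` is `> 0` at `x₁ ∉ S`. `u` is continuous at the points
of the open set `Sᶜ` (`ContDiffAt 1`), so `u ≥ m > 0` on a closed ball `B` around `x₁` contained in `Sᶜ`. For
`ε` small and `ρ` large `χ = 1` on `B` (`exists_cut`), so `∫ χ u ≥ m vol(B) > 0` (`χ u ≥ 0` everywhere outside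
the null set `S`, in fact everywhere because `χ = 0` on `S`). By `int_by_parts`,
`∫ χ u ≤ ∫ ‖fderiv χ‖ (|V₁| + |V₂|)` (note `|fderiv χ x 1| ≤ ‖fderiv χ x‖`, the same for `I`)
`≤ ∑_s ∫_{ε ≤ ‖x-s‖ ≤ 2ε} (K/ε) C ε^(-3/4) + ∫_{ρ ≤ ‖x‖ ≤ 2ρ} (K/ρ) C ρ^(-3/2)
 ≤ ∑_s K C ε^(-7/4) 4 π ε² + K C ρ^(-5/2) 4 π ρ²`, which tends to `0` for `ε → 0`, `ρ → ∞`
(`Complex.volume_closedBall`). -/

namespace Pool.Agent.RHE

open Complex MeasureTheory Filter Topology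

private theorem vol_ann (s : ℂ) {ε : ℝ} (hε : 0 < ε) :
    volume.real {y : ℂ | ε ≤ ‖y - s‖ ∧ ‖y - s‖ ≤ 2 * ε} ≤ 4 * Real.pi * ε ^ 2 := by
  have h1 : {y : ℂ | ε ≤ ‖y - s‖ ∧ ‖y - s‖ ≤ 2 * ε} ⊆ Metric.closedBall s (2 * ε) := by
    intro y hy
    rw [Metric.mem_closedBall, dist_eq_norm]
    exact hy.2
  have h2 : volume.real (Metric.closedBall s (2 * ε)) = 4 * Real.pi * ε ^ 2 := by
    rw [Measure.real, Complex.volume_closedBall, ENNReal.toReal_mul, ENNReal.toReal_pow,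
      ENNReal.toReal_ofReal (by positivity)]
    simp only [ENNReal.coe_toReal, NNReal.coe_real_pi]
    ring
  rw [← h2]
  exact measureReal_mono h1 (isCompact_closedBall s (2 * ε)).measure_lt_top.ne

private theorem meas_ann (s : ℂ) (ε : ℝ) : MeasurableSet {y : ℂ | ε ≤ ‖y - s‖ ∧ ‖y - s‖ ≤ 2 * ε} := by
  have h1 : {y : ℂ | ε ≤ ‖y - s‖ ∧ ‖y - s‖ ≤ 2 * ε} = (fun y : ℂ => ‖y - s‖) ⁻¹' (Set.Icc ε (2 * ε)) := rfl
  rw [h1]
  exact measurableSet_Icc.preimage (by fun_prop)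

private theorem fin_ann (s : ℂ) (ε : ℝ) : volume {y : ℂ | ε ≤ ‖y - s‖ ∧ ‖y - s‖ ≤ 2 * ε} ≠ ⊤ := by
  have h1 : {y : ℂ | ε ≤ ‖y - s‖ ∧ ‖y - s‖ ≤ 2 * ε} ⊆ Metric.closedBall s (2 * ε) := by
    intro y hy
    rw [Metric.mem_closedBall, dist_eq_norm]
    exact hy.2
  exact ((measure_mono h1).trans_lt (isCompact_closedBall s (2 * ε)).measure_lt_top).ne

private theorem int_ann (s : ℂ) (ε c : ℝ) :
    Integrable (Set.indicator {y : ℂ | ε ≤ ‖y - s‖ ∧ ‖y - s‖ ≤ 2 * ε} (fun _ => c)) := by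
  rw [integrable_indicator_iff (meas_ann s ε)]
  exact integrableOn_const (fin_ann s ε)

private theorem val_ann (s : ℂ) {ε : ℝ} (hε : 0 < ε) {c : ℝ} (hc : 0 ≤ c) :
    ∫ x, Set.indicator {y : ℂ | ε ≤ ‖y - s‖ ∧ ‖y - s‖ ≤ 2 * ε} (fun _ => c) x ≤ 4 * Real.pi * ε ^ 2 * c := by
  rw [integral_indicator_const c (meas_ann s ε), smul_eq_mul]
  exact mul_le_mul_of_nonneg_right (vol_ann s hε) hc

private theorem fd_bound {L : ℂ →L[ℝ] ℝ} {a b : ℝ} : |L 1 * b - L I * a| ≤ ‖L‖ * (|a| + |b|) := by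
  have h1 : |L 1| ≤ ‖L‖ := by
    have := L.le_opNorm 1
    rwa [norm_one, mul_one, Real.norm_eq_abs] at this
  have h2 : |L I| ≤ ‖L‖ := by
    have := L.le_opNorm I
    rwa [norm_I, mul_one, Real.norm_eq_abs] at this
  calc |L 1 * b - L I * a| ≤ |L 1 * b| + |L I * a| := abs_sub _ _
    _ = |L 1| * |b| + |L I| * |a| := by rw [abs_mul, abs_mul]
    _ ≤ ‖L‖ * |b| + ‖L‖ * |a| := by gcongr
    _ = ‖L‖ * (|a| + |b|) := by ring

/-- the upper bound -/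
private theorem upper (S : Finset ℂ) (V₁ V₂ χ : ℂ → ℝ) {K ε ρ : ℝ} (hK : 0 ≤ K) (hε : 0 < ε) (hρ : 0 < ρ)
    (C δ : ℂ → ℝ) (hloc : ∀ s ∈ S, ∀ x : ℂ, 0 < ‖x - s‖ → ‖x - s‖ < δ s →
      |V₁ x| + |V₂ x| ≤ C s * ‖x - s‖ ^ (-(3 / 4) : ℝ)) (hεδ : ∀ s ∈ S, 2 * ε < δ s)
    {C' ρ' : ℝ} (hinf : ∀ x : ℂ, ρ' < ‖x‖ → |V₁ x| + |V₂ x| ≤ C' * ‖x‖ ^ (-(3 / 2) : ℝ)) (hρρ : ρ' < ρ)
    (hfd : ∀ x, ‖fderiv ℝ χ x‖ ≤
        ∑ s ∈ S, Set.indicator {y : ℂ | ε ≤ ‖y - s‖ ∧ ‖y - s‖ ≤ 2 * ε} (fun _ => K / ε) x +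
          Set.indicator {y : ℂ | ρ ≤ ‖y‖ ∧ ‖y‖ ≤ 2 * ρ} (fun _ => K / ρ) x) :
    |∫ x, (fderiv ℝ χ x 1 * V₂ x - fderiv ℝ χ x I * V₁ x)| ≤
      (∑ s ∈ S, 4 * Real.pi * K * |C s|) * ε ^ (1 / 4 : ℝ) + 4 * Real.pi * K * |C'| * ρ ^ (-(1 / 2) : ℝ) := by
  have hset : {y : ℂ | ρ ≤ ‖y‖ ∧ ‖y‖ ≤ 2 * ρ} = {y : ℂ | ρ ≤ ‖y - 0‖ ∧ ‖y - 0‖ ≤ 2 * ρ} := by
    ext y
    simp only [sub_zero]
  rw [hset] at hfd
  set G : ℂ → ℝ := fun x =>
    ∑ s ∈ S, Set.indicator {y : ℂ | ε ≤ ‖y - s‖ ∧ ‖y - s‖ ≤ 2 * ε}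
      (fun _ => K / ε * (|C s| * ε ^ (-(3 / 4) : ℝ))) x +
    Set.indicator {y : ℂ | ρ ≤ ‖y - 0‖ ∧ ‖y - 0‖ ≤ 2 * ρ}
      (fun _ => K / ρ * (|C'| * ρ ^ (-(3 / 2) : ℝ))) x with hG
  have hGi : Integrable G := by
    apply Integrable.add
    · exact integrable_finsetSum S (fun s _ => int_ann s ε _)
    · exact int_ann 0 ρ _
  have hle : ∀ x, ‖fderiv ℝ χ x 1 * V₂ x - fderiv ℝ χ x I * V₁ x‖ ≤ G x := by
    intro x
    rw [Real.norm_eq_abs]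
    refine fd_bound.trans ?_
    refine (mul_le_mul_of_nonneg_right (hfd x) (by positivity)).trans ?_
    rw [hG, add_mul, Finset.sum_mul]
    apply add_le_add
    · apply Finset.sum_le_sum
      intro s hs
      by_cases hx : x ∈ {y : ℂ | ε ≤ ‖y - s‖ ∧ ‖y - s‖ ≤ 2 * ε}
      · rw [Set.indicator_of_mem hx, Set.indicator_of_mem hx]
        apply mul_le_mul_of_nonneg_left _ (by positivity)
        have hx1 : ε ≤ ‖x - s‖ := hx.1
        have hx2 : ‖x - s‖ ≤ 2 * ε := hx.2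
        refine (hloc s hs x (hε.trans_le hx1) (hx2.trans_lt (hεδ s hs))).trans ?_
        have h3 : ‖x - s‖ ^ (-(3 / 4) : ℝ) ≤ ε ^ (-(3 / 4) : ℝ) :=
          Real.rpow_le_rpow_of_nonpos hε hx1 (by norm_num)
        have h4 : 0 ≤ ‖x - s‖ ^ (-(3 / 4) : ℝ) := Real.rpow_nonneg (norm_nonneg _) _
        calc C s * ‖x - s‖ ^ (-(3 / 4) : ℝ) ≤ |C s| * ‖x - s‖ ^ (-(3 / 4) : ℝ) :=
              mul_le_mul_of_nonneg_right (le_abs_self _) h4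
          _ ≤ |C s| * ε ^ (-(3 / 4) : ℝ) := mul_le_mul_of_nonneg_left h3 (abs_nonneg _)
      · rw [Set.indicator_of_notMem hx, Set.indicator_of_notMem hx, zero_mul]
    · by_cases hx : x ∈ {y : ℂ | ρ ≤ ‖y - 0‖ ∧ ‖y - 0‖ ≤ 2 * ρ}
      · rw [Set.indicator_of_mem hx, Set.indicator_of_mem hx]
        apply mul_le_mul_of_nonneg_left _ (by positivity)
        have hx1 : ρ ≤ ‖x‖ := by
          have := hx.1
          rwa [sub_zero] at this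
        refine (hinf x (hρρ.trans_le hx1)).trans ?_
        have h3 : ‖x‖ ^ (-(3 / 2) : ℝ) ≤ ρ ^ (-(3 / 2) : ℝ) :=
          Real.rpow_le_rpow_of_nonpos hρ hx1 (by norm_num)
        have h4 : 0 ≤ ‖x‖ ^ (-(3 / 2) : ℝ) := Real.rpow_nonneg (norm_nonneg _) _
        calc C' * ‖x‖ ^ (-(3 / 2) : ℝ) ≤ |C'| * ‖x‖ ^ (-(3 / 2) : ℝ) :=
              mul_le_mul_of_nonneg_right (le_abs_self _) h4
          _ ≤ |C'| * ρ ^ (-(3 / 2) : ℝ) := mul_le_mul_of_nonneg_left h3 (abs_nonneg _)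
      · rw [Set.indicator_of_notMem hx, Set.indicator_of_notMem hx, zero_mul]
  have h1 := norm_integral_le_of_norm_le hGi (Eventually.of_forall hle)
  rw [Real.norm_eq_abs] at h1
  refine h1.trans ?_
  have h2 : ∫ x, G x = (∑ s ∈ S, ∫ x, Set.indicator {y : ℂ | ε ≤ ‖y - s‖ ∧ ‖y - s‖ ≤ 2 * ε}
      (fun _ => K / ε * (|C s| * ε ^ (-(3 / 4) : ℝ))) x) +
      ∫ x, Set.indicator {y : ℂ | ρ ≤ ‖y - 0‖ ∧ ‖y - 0‖ ≤ 2 * ρ}
      (fun _ => K / ρ * (|C'| * ρ ^ (-(3 / 2) : ℝ))) x := by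
    rw [hG, integral_add (integrable_finsetSum S (fun s _ => int_ann s ε _)) (int_ann 0 ρ _),
      integral_finsetSum S (fun s _ => int_ann s ε _)]
  rw [h2, Finset.sum_mul]
  have e1 : ε ^ (-(3 / 4) : ℝ) * ε = ε ^ (1 / 4 : ℝ) := by
    conv_lhs => rw [← Real.rpow_one ε, ← Real.rpow_mul hε.le, one_mul, ← Real.rpow_add hε]
    norm_num
  have e2 : ρ ^ (-(3 / 2) : ℝ) * ρ = ρ ^ (-(1 / 2) : ℝ) := by
    conv_lhs => rw [← Real.rpow_one ρ, ← Real.rpow_mul hρ.le, one_mul, ← Real.rpow_add hρ]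
    norm_num
  apply add_le_add
  · apply Finset.sum_le_sum
    intro s _
    refine (val_ann s hε (by positivity)).trans (le_of_eq ?_)
    rw [← e1]
    field_simp
  · refine (val_ann 0 hρ (by positivity)).trans (le_of_eq ?_)
    rw [← e2]
    field_simp

theorem curl_eq_zero (S : Finset ℂ) (V₁ V₂ : ℂ → ℝ) (h₁ : ∀ x ∉ S, ContDiffAt ℝ 1 V₁ x)
    (h₂ : ∀ x ∉ S, ContDiffAt ℝ 1 V₂ x)
    (hpos : ∀ x ∉ S, 0 ≤ fderiv ℝ V₂ x 1 - fderiv ℝ V₁ x I)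
    (hloc : ∀ s ∈ S, ∃ C : ℝ, ∃ δ > (0 : ℝ), ∀ x : ℂ, 0 < ‖x - s‖ → ‖x - s‖ < δ →
      |V₁ x| + |V₂ x| ≤ C * ‖x - s‖ ^ (-(3 / 4) : ℝ))
    (hinf : ∃ C ρ : ℝ, ∀ x : ℂ, ρ < ‖x‖ → |V₁ x| + |V₂ x| ≤ C * ‖x‖ ^ (-(3 / 2) : ℝ)) :
    ∀ x ∉ S, fderiv ℝ V₂ x 1 - fderiv ℝ V₁ x I = 0 := by
  intro x₁ hx₁
  by_contra hne
  have hupos : 0 < fderiv ℝ V₂ x₁ 1 - fderiv ℝ V₁ x₁ I := lt_of_le_of_ne (hpos x₁ hx₁) (Ne.symm hne)
  set u : ℂ → ℝ := fun x => fderiv ℝ V₂ x 1 - fderiv ℝ V₁ x I with hu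
  have hucont : ContinuousAt u x₁ := by
    have c1 : ContinuousAt (fderiv ℝ V₁) x₁ :=
      ((h₁ x₁ hx₁).fderiv_right (m := 0) (by norm_num)).continuousAt
    have c2 : ContinuousAt (fderiv ℝ V₂) x₁ :=
      ((h₂ x₁ hx₁).fderiv_right (m := 0) (by norm_num)).continuousAt
    exact (c2.clm_apply continuousAt_const).sub (c1.clm_apply continuousAt_const)
  have hev1 : ∀ᶠ x in 𝓝 x₁, u x₁ / 2 < u x := by
    apply hucont.eventually (lt_mem_nhds _)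
    have : 0 < u x₁ := hupos
    linarith
  have hev2 : ∀ᶠ x in 𝓝 x₁, x ∉ S := by
    have : IsOpen ((S : Set ℂ)ᶜ) := S.finite_toSet.isClosed.isOpen_compl
    exact this.mem_nhds hx₁
  obtain ⟨R, hR, hRball⟩ := Metric.eventually_nhds_iff_ball.1 (hev1.and hev2)
  choose! C δ hδ hCδ using hloc
  obtain ⟨C', ρ', hC'⟩ := hinf
  obtain ⟨K, hK, hcut⟩ := exists_cut
  set r : ℝ := R / 2 with hr
  have hr0 : 0 < r := by rw [hr]; linarith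
  set c : ℝ := u x₁ / 2 * volume.real (Metric.closedBall x₁ r) with hc
  have hc0 : 0 < c := by
    rw [hc]
    apply mul_pos
    · have : 0 < u x₁ := hupos
      linarith
    · apply ENNReal.toReal_pos
      · exact (Metric.measure_closedBall_pos volume x₁ hr0).ne'
      · exact (isCompact_closedBall x₁ r).measure_lt_top.ne
  -- choice of ε
  have t1 : Tendsto (fun ε : ℝ => (∑ s ∈ S, 4 * Real.pi * K * |C s|) * ε ^ (1 / 4 : ℝ)) (𝓝[>] 0) (𝓝 0) := by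
    have h1 : Tendsto (fun ε : ℝ => ε ^ (1 / 4 : ℝ)) (𝓝 0) (𝓝 0) := by
      have := (Real.continuousAt_rpow_const 0 (1 / 4 : ℝ) (Or.inr (by norm_num))).tendsto
      rwa [Real.zero_rpow (by norm_num)] at this
    have h2 := (h1.mono_left (nhdsWithin_le_nhds (s := Set.Ioi (0:ℝ)))).const_mul (∑ s ∈ S, 4 * Real.pi * K * |C s|)
    rwa [mul_zero] at h2
  have hev3 : ∀ᶠ ε : ℝ in 𝓝[>] 0, (∑ s ∈ S, 4 * Real.pi * K * |C s|) * ε ^ (1 / 4 : ℝ) < c / 2 :=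
    t1.eventually (gt_mem_nhds (by linarith))
  have hev4 : ∀ᶠ ε : ℝ in 𝓝[>] 0, ∀ s ∈ S, 2 * ε < δ s := by
    rw [Filter.eventually_all_finset]
    intro s hs
    apply nhdsWithin_le_nhds
    have : ContinuousAt (fun ε : ℝ => 2 * ε) 0 := by fun_prop
    apply this.eventually (gt_mem_nhds _)
    change 2 * (0 : ℝ) < δ s
    rw [mul_zero]
    exact hδ s hs
  have hev5 : ∀ᶠ ε : ℝ in 𝓝[>] 0, 2 * ε < r := by
    apply nhdsWithin_le_nhds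
    have : ContinuousAt (fun ε : ℝ => 2 * ε) 0 := by fun_prop
    apply this.eventually (gt_mem_nhds _)
    change 2 * (0 : ℝ) < r
    rw [mul_zero]
    exact hr0
  have hev6 : ∀ᶠ ε : ℝ in 𝓝[>] 0, 0 < ε := eventually_mem_nhdsWithin
  obtain ⟨ε, hε3, hε4, hε5, hε⟩ := (hev3.and (hev4.and (hev5.and hev6))).exists
  -- choice of ρ
  have t2 : Tendsto (fun ρ : ℝ => 4 * Real.pi * K * |C'| * ρ ^ (-(1 / 2) : ℝ)) atTop (𝓝 0) := by
    have h2 := (tendsto_rpow_neg_atTop (y := 1 / 2) (by norm_num)).const_mul (4 * Real.pi * K * |C'|)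
    rwa [mul_zero] at h2
  have hev7 : ∀ᶠ ρ : ℝ in atTop, 4 * Real.pi * K * |C'| * ρ ^ (-(1 / 2) : ℝ) < c / 2 :=
    t2.eventually (gt_mem_nhds (by linarith))
  obtain ⟨ρ, hρ7, hρ', hρ, hρx⟩ := (hev7.and ((eventually_gt_atTop ρ').and ((eventually_gt_atTop 0).and
    (eventually_ge_atTop (‖x₁‖ + r))))).exists
  obtain ⟨χ, hχ1, hχc, hχS, hχ01, hχ1', hχfd⟩ := hcut S ε ρ hε hρ
  obtain ⟨hi1, _, hibp⟩ := int_by_parts S V₁ V₂ χ h₁ h₂ hχ1 hχc hχS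
  have hup := upper S V₁ V₂ χ hK hε hρ C δ hCδ hε4 hC' hρ' hχfd
  have hnn : ∀ x, 0 ≤ χ x * (fderiv ℝ V₂ x 1 - fderiv ℝ V₁ x I) := by
    intro x
    by_cases hx : x ∈ S
    · rw [(hχS x hx).eq_of_nhds, Pi.zero_apply, zero_mul]
    · exact mul_nonneg (hχ01 x).1 (hpos x hx)
  have hlow : c ≤ ∫ x, χ x * (fderiv ℝ V₂ x 1 - fderiv ℝ V₁ x I) := by
    refine le_trans ?_ (setIntegral_le_integral (s := Metric.closedBall x₁ r) hi1 (Eventually.of_forall hnn))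
    rw [hc]
    apply setIntegral_ge_of_const_le_real measurableSet_closedBall
      (isCompact_closedBall x₁ r).measure_lt_top.ne _ hi1.integrableOn
    intro x hx
    rw [Metric.mem_closedBall, dist_eq_norm] at hx
    have hxb : x ∈ Metric.ball x₁ R := by
      rw [Metric.mem_ball, dist_eq_norm]
      have : r < R := by rw [hr]; linarith
      linarith
    obtain ⟨hxu, _⟩ := hRball x hxb
    have hχx : χ x = 1 := by
      apply hχ1'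
      · have : ‖x‖ ≤ ‖x - x₁‖ + ‖x₁‖ := by
          have := norm_add_le (x - x₁) x₁
          rwa [sub_add_cancel] at this
        linarith
      · intro s hs
        have hsR : R ≤ ‖s - x₁‖ := by
          by_contra hlt
          push Not at hlt
          have hsb : s ∈ Metric.ball x₁ R := by
            rw [Metric.mem_ball, dist_eq_norm]
            exact hlt
          exact (hRball s hsb).2 hs
        have h5 : ‖s - x₁‖ ≤ ‖x - s‖ + ‖x - x₁‖ := by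
          have := norm_sub_le (x - x₁) (x - s)
          have e : x - x₁ - (x - s) = s - x₁ := by ring
          rw [e] at this
          linarith
        have : R = 2 * r := by rw [hr]; ring
        linarith
    rw [hχx, one_mul]
    exact hxu.le
  have h6 := neg_abs_le (∫ x, (fderiv ℝ χ x 1 * V₂ x - fderiv ℝ χ x I * V₁ x))
  rw [hibp] at hlow
  linarith

end Pool.Agent.RHE
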