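import Pool.Agent.RHE.Basic

/-! # RHE-Der: the function `h` of `exists_fun` is a primitive of the regulator 1-form

Integrate along smoothly parametrised segments. -/

namespace Pool.Agent.RHE

namespace Dat

variable {D : Dat}

/-- the coefficient of the regulator form along a section -/
private noncomputable def kk (D : Dat) (W : ℂ → ℂ) (y : ℂ) : ℂ :=
  (D.Φ y : ℂ) * (deriv W y / W y) - (Real.log ‖W y‖ : ℂ) * D.F y

private theorem im_kk (W : ℂ → ℂ) (y v : ℂ) :
    (kk D W y * v).im = D.Φ y * (deriv W y / W y * v).im - Real.log ‖W y‖ * (D.F y * v).im := by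
  unfold kk
  rw [sub_mul, Complex.sub_im, mul_assoc, mul_assoc, Complex.im_ofReal_mul, Complex.im_ofReal_mul]

private theorem kk_cont {x₀ : ℂ} {δ : ℝ} {W : ℂ → ℂ} (hS : D.Sec x₀ δ W) :
    ContinuousOn (kk D W) (Metric.ball x₀ δ) := by
  have hW := hS.hW.continuousOn
  have hW' := (hS.hW.deriv Metric.isOpen_ball).continuousOn
  have hne : ∀ y ∈ Metric.ball x₀ δ, W y ≠ 0 := fun y hy => (hS.pt y hy).w_ne
  have ha : ∀ y ∈ Metric.ball x₀ δ, ∀ i, y - D.a i ≠ 0 := fun y hy i => D.sub_a_ne (hS.pt y hy).notMem i
  have hΦ : ContinuousOn D.Φ (Metric.ball x₀ δ) := by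
    unfold Dat.Φ
    refine continuousOn_finsetSum _ fun i _ => continuousOn_const.mul ?_
    exact ContinuousOn.log ((continuousOn_id.sub continuousOn_const).norm)
      fun y hy => norm_ne_zero_iff.2 (ha y hy i)
  have hF : ContinuousOn D.F (Metric.ball x₀ δ) := by
    unfold Dat.F
    refine continuousOn_finsetSum _ fun i _ => continuousOn_const.div
      (continuousOn_id.sub continuousOn_const) fun y hy => ha y hy i
  have hL : ContinuousOn (fun y => Real.log ‖W y‖) (Metric.ball x₀ δ) :=
    ContinuousOn.log hW.norm fun y hy => norm_ne_zero_iff.2 (hne y hy)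
  unfold kk
  exact ((Complex.continuous_ofReal.comp_continuousOn hΦ).mul (hW'.div hW hne)).sub
    ((Complex.continuous_ofReal.comp_continuousOn hL).mul hF)

private theorem seg {h : ℂ → ℂ → ℝ} (hh : ∀ ξ ω : ℝ → ℂ, D.Flat ξ ω →
    ∫ t in (0 : ℝ)..1, D.ρ ξ ω t = h (ξ 1) (ω 1) - h (ξ 0) (ω 0)) {x₀ : ℂ} {δ : ℝ} {W : ℂ → ℂ}
    (hS : D.Sec x₀ δ W) {x y : ℂ} (hx : x ∈ Metric.ball x₀ δ) (hy : y ∈ Metric.ball x₀ δ) :
    ∫ t in (0 : ℝ)..1, deriv Real.smoothTransition t *
      (kk D W (x + Real.smoothTransition t • (y - x)) * (y - x)).im = h y (W y) - h x (W x) := by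
  have hmem : ∀ t, x + Real.smoothTransition t • (y - x) ∈ Metric.ball x₀ δ := fun t =>
    (convex_ball x₀ δ).add_smul_sub_mem hx hy
      ⟨Real.smoothTransition.nonneg t, Real.smoothTransition.le_one t⟩
  have hcξ : ContDiff ℝ 2 fun t : ℝ => x + Real.smoothTransition t • (y - x) :=
    contDiff_const.add (Real.smoothTransition.contDiff.smul contDiff_const)
  have h0 : Real.smoothTransition 0 = 0 := Real.smoothTransition.zero_of_nonpos le_rfl
  have h1 : Real.smoothTransition 1 = 1 := Real.smoothTransition.one_of_one_le le_rfl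
  have hfl : D.Flat (fun t => x + Real.smoothTransition t • (y - x))
      (fun t => W (x + Real.smoothTransition t • (y - x))) := by
    refine ⟨hcξ, ?_, ?_, ?_, ?_⟩
    · exact ((hS.hW.contDiffOn Metric.isOpen_ball).restrict_scalars ℝ).comp_contDiff hcξ hmem
    · intro t ht
      have h2 : Real.smoothTransition t = Real.smoothTransition 0 := by
        rw [Real.smoothTransition.zero_of_nonpos ht, h0]
      show x + Real.smoothTransition t • (y - x) = x + Real.smoothTransition 0 • (y - x) ∧
        W (x + Real.smoothTransition t • (y - x)) = W (x + Real.smoothTransition 0 • (y - x))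
      rw [h2]
      exact ⟨rfl, rfl⟩
    · intro t ht
      have h2 : Real.smoothTransition t = Real.smoothTransition 1 := by
        rw [Real.smoothTransition.one_of_one_le ht, h1]
      show x + Real.smoothTransition t • (y - x) = x + Real.smoothTransition 1 • (y - x) ∧
        W (x + Real.smoothTransition t • (y - x)) = W (x + Real.smoothTransition 1 • (y - x))
      rw [h2]
      exact ⟨rfl, rfl⟩
    · intro t
      exact hS.pt _ (hmem t)
  have h3 := hh _ _ hfl
  have h4 : h ((fun t : ℝ => x + Real.smoothTransition t • (y - x)) 1)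
      ((fun t : ℝ => W (x + Real.smoothTransition t • (y - x))) 1) -
      h ((fun t : ℝ => x + Real.smoothTransition t • (y - x)) 0)
      ((fun t : ℝ => W (x + Real.smoothTransition t • (y - x))) 0) = h y (W y) - h x (W x) := by
    show h (x + Real.smoothTransition 1 • (y - x)) (W (x + Real.smoothTransition 1 • (y - x))) -
      h (x + Real.smoothTransition 0 • (y - x)) (W (x + Real.smoothTransition 0 • (y - x))) = _
    rw [h0, h1, one_smul, zero_smul, add_sub_cancel, add_zero]
  rw [h4] at h3
  rw [← h3]
  refine intervalIntegral.integral_congr fun t _ => ?_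
  have hd : HasDerivAt (fun t : ℝ => x + Real.smoothTransition t • (y - x))
      (deriv Real.smoothTransition t • (y - x)) t := by
    have h5 : HasDerivAt Real.smoothTransition (deriv Real.smoothTransition t) t :=
      ((Real.smoothTransition.contDiff (n := 1)).differentiable (by norm_num) t).hasDerivAt
    exact (h5.smul_const (y - x)).const_add x
  have hdW : HasDerivAt (fun t : ℝ => W (x + Real.smoothTransition t • (y - x)))
      (deriv W (x + Real.smoothTransition t • (y - x)) * (deriv Real.smoothTransition t • (y - x))) t := by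
    have h5 : HasDerivAt W (deriv W (x + Real.smoothTransition t • (y - x)))
        (x + Real.smoothTransition t • (y - x)) :=
      ((hS.hW _ (hmem t)).differentiableAt (Metric.isOpen_ball.mem_nhds (hmem t))).hasDerivAt
    have h6 := (h5.hasFDerivAt.restrictScalars ℝ).comp_hasDerivAt t hd
    have h7 : ((ContinuousLinearMap.toSpanSingleton ℂ
        (deriv W (x + Real.smoothTransition t • (y - x)))).restrictScalars ℝ)
        (deriv Real.smoothTransition t • (y - x)) =
        deriv W (x + Real.smoothTransition t • (y - x)) * (deriv Real.smoothTransition t • (y - x)) := by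
      simp [mul_comm]
    rw [← h7]
    exact h6
  show deriv Real.smoothTransition t * (kk D W (x + Real.smoothTransition t • (y - x)) * (y - x)).im =
    D.ρ (fun t => x + Real.smoothTransition t • (y - x))
      (fun t => W (x + Real.smoothTransition t • (y - x))) t
  unfold Dat.ρ
  rw [hd.deriv, hdW.deriv]
  beta_reduce
  rw [im_kk]
  generalize x + Real.smoothTransition t • (y - x) = u
  generalize deriv Real.smoothTransition t = s
  have h8 : (deriv W u * (s • (y - x)) / W u) = ((s : ℝ) : ℂ) * (deriv W u / W u * (y - x)) := by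
    rw [Complex.real_smul]
    ring
  have h9 : D.F u * (s • (y - x)) = ((s : ℝ) : ℂ) * (D.F u * (y - x)) := by
    rw [Complex.real_smul]
    ring
  rw [h8, h9, Complex.im_ofReal_mul, Complex.im_ofReal_mul]
  ring

theorem prim_of_fun {h : ℂ → ℂ → ℝ} (hh : ∀ ξ ω : ℝ → ℂ, D.Flat ξ ω →
    ∫ t in (0 : ℝ)..1, D.ρ ξ ω t = h (ξ 1) (ω 1) - h (ξ 0) (ω 0)) : D.Prim h := by
  intro x₀ δ W hS x hx
  refine ⟨Complex.imCLM.comp (ContinuousLinearMap.mul ℝ ℂ (kk D W x)), ?_, ?_⟩
  swap
  · intro v
    show (kk D W x * v).im = _
    rw [im_kk]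
    rfl
  obtain ⟨M, hM0, hM⟩ : ∃ M : ℝ, 0 < M ∧ ∀ t ∈ Set.Icc (0 : ℝ) 1, |deriv Real.smoothTransition t| ≤ M := by
    have hc : Continuous (deriv Real.smoothTransition) :=
      (Real.smoothTransition.contDiff (n := 1)).continuous_deriv le_rfl
    obtain ⟨M, hM⟩ := isCompact_Icc.exists_bound_of_continuousOn (s := Set.Icc (0 : ℝ) 1) hc.continuousOn
    exact ⟨|M| + 1, by positivity, fun t ht => (hM t ht).trans ((le_abs_self M).trans (by linarith))⟩
  rw [hasFDerivAt_iff_isLittleO, Asymptotics.isLittleO_iff]
  intro c hc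
  have hk : ContinuousAt (kk D W) x := (kk_cont hS).continuousAt (Metric.isOpen_ball.mem_nhds hx)
  obtain ⟨r, hr, hkr⟩ := Metric.continuousAt_iff.1 hk (c / M) (by positivity)
  obtain ⟨r', hr', hsub⟩ := Metric.isOpen_iff.1 Metric.isOpen_ball x hx
  filter_upwards [Metric.ball_mem_nhds x (lt_min hr hr')] with y hy
  have hy1 : y ∈ Metric.ball x r := Metric.ball_subset_ball (min_le_left _ _) hy
  have hy2 : y ∈ Metric.ball x₀ δ := hsub (Metric.ball_subset_ball (min_le_right _ _) hy)
  have hmem : ∀ t, x + Real.smoothTransition t • (y - x) ∈ Metric.ball x₀ δ := fun t =>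
    (convex_ball x₀ δ).add_smul_sub_mem hx hy2
      ⟨Real.smoothTransition.nonneg t, Real.smoothTransition.le_one t⟩
  have hmem' : ∀ t, x + Real.smoothTransition t • (y - x) ∈ Metric.ball x r := fun t =>
    (convex_ball x r).add_smul_sub_mem (Metric.mem_ball_self hr) hy1
      ⟨Real.smoothTransition.nonneg t, Real.smoothTransition.le_one t⟩
  have hcd : Continuous (deriv Real.smoothTransition) :=
    (Real.smoothTransition.contDiff (n := 1)).continuous_deriv le_rfl
  have hcξ : Continuous fun t : ℝ => x + Real.smoothTransition t • (y - x) :=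
    continuous_const.add ((Real.smoothTransition.continuous).smul continuous_const)
  have hint : ∫ t in (0 : ℝ)..1, deriv Real.smoothTransition t * (kk D W x * (y - x)).im =
      (kk D W x * (y - x)).im := by
    rw [intervalIntegral.integral_mul_const]
    have h5 : ∫ t in (0 : ℝ)..1, deriv Real.smoothTransition t =
        Real.smoothTransition 1 - Real.smoothTransition 0 := by
      refine intervalIntegral.integral_deriv_eq_sub (fun t _ => ?_) (hcd.intervalIntegrable _ _)
      exact (Real.smoothTransition.contDiff (n := 1)).differentiable (by norm_num) t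
    rw [h5, Real.smoothTransition.one_of_one_le le_rfl, Real.smoothTransition.zero_of_nonpos le_rfl, sub_zero,
      one_mul]
  have hL : (Complex.imCLM.comp (ContinuousLinearMap.mul ℝ ℂ (kk D W x))) (y - x) =
      (kk D W x * (y - x)).im := rfl
  rw [hL, ← hint, ← seg hh hS hx hy2, ← intervalIntegral.integral_sub]
  · have hb : ∀ t ∈ Set.uIoc (0 : ℝ) 1, ‖deriv Real.smoothTransition t *
        (kk D W (x + Real.smoothTransition t • (y - x)) * (y - x)).im -
        deriv Real.smoothTransition t * (kk D W x * (y - x)).im‖ ≤ c * ‖y - x‖ := by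
      intro t ht
      have ht' : t ∈ Set.Icc (0 : ℝ) 1 := by
        rw [Set.uIoc_of_le zero_le_one] at ht
        exact ⟨ht.1.le, ht.2⟩
      rw [← mul_sub, ← Complex.sub_im, ← sub_mul, norm_mul]
      have h6 : ‖((kk D W (x + Real.smoothTransition t • (y - x)) - kk D W x) * (y - x)).im‖ ≤
          c / M * ‖y - x‖ := by
        refine (Complex.abs_im_le_norm _).trans ?_
        rw [norm_mul]
        refine mul_le_mul_of_nonneg_right ?_ (norm_nonneg _)
        have h7 := hkr (hmem' t)
        rw [dist_eq_norm] at h7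
        exact h7.le
      calc _ ≤ M * (c / M * ‖y - x‖) :=
            mul_le_mul (hM t ht') h6 (norm_nonneg _) hM0.le
        _ = c * ‖y - x‖ := by
            field_simp
    have h8 := intervalIntegral.norm_integral_le_of_norm_le_const hb
    rw [sub_zero, abs_one, mul_one] at h8
    exact h8
  · refine (hcd.mul (Complex.continuous_im.comp ?_)).intervalIntegrable _ _
    exact ((kk_cont hS).comp_continuous hcξ hmem).mul continuous_const
  · exact (hcd.mul continuous_const).intervalIntegrable _ _

end Dat

end Pool.Agent.RHE
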