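import Mathlib

/-! # RHE-FormA (Mathlib only): the curl of the form `k Re(g dx) + lam Phi Im(g dx)` at a point -/

namespace Pool.Agent.RHE

open Complex

theorem curl_local {k lam Phi : ℂ → ℝ} {g : ℂ → ℂ} {x ω f g' : ℂ} {Lk Ll Lp : ℂ →L[ℝ] ℝ}
    (hk : HasFDerivAt k Lk x) (hl : HasFDerivAt lam Ll x) (hp : HasFDerivAt Phi Lp x)
    (hg : HasDerivAt g g' x)
    (hLk : ∀ v, Lk v = Phi x * (ω * v).im - lam x * (f * v).im)
    (hLl : ∀ v, Ll v = (ω * v).re) (hLp : ∀ v, Lp v = (f * v).re) :
    fderiv ℝ (fun y => - k y * (g y).im + lam y * Phi y * (g y).re) x 1 -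
      fderiv ℝ (fun y => k y * (g y).re + lam y * Phi y * (g y).im) x I =
        2 * lam x * ((f.re * (g x).re) + (f.im * (g x).im)) := by
  have hG : HasFDerivAt g ((ContinuousLinearMap.toSpanSingleton ℂ g').restrictScalars ℝ) x :=
    hg.hasFDerivAt.restrictScalars ℝ
  have hre : HasFDerivAt (fun y => (g y).re)
      (Complex.reCLM.comp ((ContinuousLinearMap.toSpanSingleton ℂ g').restrictScalars ℝ)) x :=
    Complex.reCLM.hasFDerivAt.comp x hG
  have him : HasFDerivAt (fun y => (g y).im)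
      (Complex.imCLM.comp ((ContinuousLinearMap.toSpanSingleton ℂ g').restrictScalars ℝ)) x :=
    Complex.imCLM.hasFDerivAt.comp x hG
  have h1 := (hk.fun_neg.fun_mul him).fun_add ((hl.fun_mul hp).fun_mul hre)
  have h2 := (hk.fun_mul hre).fun_add ((hl.fun_mul hp).fun_mul him)
  rw [h1.fderiv, h2.fderiv]
  simp only [_root_.add_apply, _root_.smul_apply, _root_.neg_apply,
    ContinuousLinearMap.comp_apply, ContinuousLinearMap.coe_restrictScalars',
    ContinuousLinearMap.toSpanSingleton_apply, smul_eq_mul, Complex.reCLM_apply, Complex.imCLM_apply, hLk, hLl, hLp,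
    Complex.mul_re, Complex.mul_im, Complex.one_re, Complex.one_im, Complex.I_re, Complex.I_im]
  ring

end Pool.Agent.RHE
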