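import Pool.Agent.RHE.Loc
import Pool.Agent.RHE.FormA

/-! # RHE-FormB: the vector field `(V₁, V₂)` on `ℂ \ S` -/

namespace Pool.Agent.RHE

open Complex

namespace Dat

variable {D : Dat}

private theorem fmb_contPhi {x : ℂ} (hx : x ∉ D.S) : ContDiffAt ℝ 1 D.Φ x := by
  unfold Dat.Φ
  refine ContDiffAt.sum fun i _ => ?_
  refine contDiffAt_const.mul ?_
  refine ContDiffAt.log ?_ ?_
  · exact ContDiffAt.norm ℝ (contDiffAt_id.sub contDiffAt_const) (D.sub_a_ne hx i)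
  · exact norm_ne_zero_iff.2 (D.sub_a_ne hx i)

private theorem fmb_contF {x : ℂ} (hx : x ∉ D.S) : ContDiffAt ℂ 1 D.F x := by
  unfold Dat.F
  refine ContDiffAt.sum fun i _ => ?_
  exact contDiffAt_const.div (contDiffAt_id.sub contDiffAt_const) (D.sub_a_ne hx i)

private theorem fmb_logderiv {f : ℂ → ℂ} {f' y : ℂ} (hf : HasDerivAt f f' y) (h0 : f y ≠ 0) :
    ∃ L : ℂ →L[ℝ] ℝ, HasFDerivAt (fun x => Real.log ‖f x‖) L y ∧
      ∀ v, L v = (f' / f y * v).re := by
  have h1 : HasFDerivAt f ((ContinuousLinearMap.toSpanSingleton ℂ f').restrictScalars ℝ) y :=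
    hf.hasFDerivAt.restrictScalars ℝ
  have h2 : HasFDerivAt (fun x => Complex.normSq (f x))
      (2 • (innerSL ℝ (f y)).comp ((ContinuousLinearMap.toSpanSingleton ℂ f').restrictScalars ℝ)) y := by
    have := h1.norm_sq
    refine this.congr_of_eventuallyEq ?_
    filter_upwards with x
    rw [Complex.normSq_eq_norm_sq]
  have hn : Complex.normSq (f y) ≠ 0 := by
    rwa [Ne, Complex.normSq_eq_zero]
  have h3 := (h2.log hn).const_mul (1 / 2 : ℝ)
  refine ⟨_, h3.congr_of_eventuallyEq ?_, ?_⟩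
  · filter_upwards with x
    rw [Complex.normSq_eq_norm_sq, Real.log_pow]
    push_cast
    ring
  · intro v
    simp only [_root_.smul_apply, ContinuousLinearMap.comp_apply,
      ContinuousLinearMap.coe_restrictScalars', ContinuousLinearMap.toSpanSingleton_apply,
      innerSL_apply_apply, smul_eq_mul, nsmul_eq_mul, Nat.cast_ofNat]
    rw [Complex.inner]
    have e : f' / f y * v = (v * f' * (starRingEnd ℂ) (f y)) / (Complex.normSq (f y) : ℂ) := by
      rw [← Complex.mul_conj]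
      have hc : (starRingEnd ℂ) (f y) ≠ 0 := by
        rwa [Ne, map_eq_zero]
      field_simp
    rw [e, Complex.div_ofReal_re]
    field_simp

private theorem fmb_phi {x : ℂ} (hx : x ∉ D.S) :
    ∃ L : ℂ →L[ℝ] ℝ, HasFDerivAt D.Φ L x ∧ ∀ v, L v = (D.F x * v).re := by
  have h1 : ∀ i, ∃ L : ℂ →L[ℝ] ℝ, HasFDerivAt (fun x => Real.log ‖x - D.a i‖) L x ∧
      ∀ v, L v = (1 / (x - D.a i) * v).re := fun i =>
    fmb_logderiv (f := fun x => x - D.a i) ((hasDerivAt_id x).sub_const _) (D.sub_a_ne hx i)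
  choose L hL hLv using h1
  refine ⟨∑ i, D.z i • L i, ?_, ?_⟩
  · have : HasFDerivAt (fun x => ∑ i, D.z i * Real.log ‖x - D.a i‖) (∑ i, D.z i • L i) x :=
      HasFDerivAt.fun_sum fun i _ => (hL i).const_mul (D.z i)
    exact this
  · intro v
    rw [_root_.sum_apply]
    simp only [_root_.smul_apply, hLv, smul_eq_mul, F, Finset.sum_mul,
      Complex.re_sum]
    refine Finset.sum_congr rfl fun i _ => ?_
    have : ((D.z i : ℂ) / (x - D.a i) * v) = (D.z i : ℂ) * (1 / (x - D.a i) * v) := by ring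
    rw [this, Complex.re_ofReal_mul]

/-- the antisymmetrised primitive -/
private noncomputable def fmbH (h : ℂ → ℂ → ℝ) (x w : ℂ) : ℝ := (h x w - h x w⁻¹) / 2

private theorem fmbH_inv (h : ℂ → ℂ → ℝ) (x w : ℂ) : fmbH h x w⁻¹ = - fmbH h x w := by
  unfold fmbH
  rw [inv_inv]
  ring

/-- the coefficient of the derivative -/
private noncomputable def fmbk (D : Dat) (W : ℂ → ℂ) (y : ℂ) : ℂ :=
  (D.Φ y : ℂ) * (deriv W y / W y) - (Real.log ‖W y‖ : ℂ) * D.F y

private theorem fmbk_im (D : Dat) (W : ℂ → ℂ) (y v : ℂ) :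
    (fmbk D W y * v).im = D.reg y (W y) (deriv W y / W y) v := by
  unfold fmbk reg
  rw [sub_mul, Complex.sub_im, mul_assoc, mul_assoc, Complex.im_ofReal_mul, Complex.im_ofReal_mul]

private theorem fmb_norm (D : Dat) (W : ℂ → ℂ) (y : ℂ) :
    ‖fmbk D W y‖ ≤ |D.Φ y| * ‖deriv W y / W y‖ + |Real.log ‖W y‖| * ‖D.F y‖ := by
  unfold fmbk
  refine (norm_sub_le _ _).trans ?_
  rw [norm_mul, norm_mul, Complex.norm_real, Complex.norm_real, Real.norm_eq_abs, Real.norm_eq_abs]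

/-- the derivative -/
private noncomputable def fmbL (k : ℂ) : ℂ →L[ℝ] ℝ :=
  Complex.imCLM.comp (ContinuousLinearMap.mul ℝ ℂ k)

private theorem fmbL_apply (k v : ℂ) : fmbL k v = (k * v).im := rfl

private theorem fmbL_cont : Continuous fmbL :=
  ((ContinuousLinearMap.compL ℝ ℂ ℂ ℝ) Complex.imCLM).continuous.comp
    (ContinuousLinearMap.mul ℝ ℂ).continuous

private theorem fmbL_norm (k : ℂ) : ‖fmbL k‖ ≤ ‖k‖ := by
  refine ContinuousLinearMap.opNorm_le_bound _ (norm_nonneg _) fun v => ?_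
  rw [fmbL_apply, ← norm_mul, Real.norm_eq_abs]
  exact Complex.abs_im_le_norm _

private theorem fmb_secInv {x₀ : ℂ} {δ : ℝ} {W : ℂ → ℂ} (hS : D.Sec x₀ δ W) :
    D.Sec x₀ δ (fun y => (W y)⁻¹) :=
  ⟨hS.hδ, hS.hW.inv fun y hy => (hS.pt y hy).w_ne, fun y hy => (hS.pt y hy).inv⟩

private theorem fmb_HDeriv {h : ℂ → ℂ → ℝ} (hh : D.Prim h) {x₀ : ℂ} {δ : ℝ} {W : ℂ → ℂ}
    (hS : D.Sec x₀ δ W) {y : ℂ} (hy : y ∈ Metric.ball x₀ δ) :
    HasFDerivAt (fun y => fmbH h y (W y)) (fmbL (fmbk D W y)) y := by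
  obtain ⟨L₁, h1, h1v⟩ := hh x₀ δ W hS y hy
  obtain ⟨L₂, h2, h2v⟩ := hh x₀ δ _ (fmb_secInv hS) y hy
  have h3 := (h1.sub h2).const_mul (1 / 2 : ℝ)
  have hd : DifferentiableAt ℂ W y :=
    (hS.hW y hy).differentiableAt (Metric.isOpen_ball.mem_nhds hy)
  have hw := (hS.pt y hy).w_ne
  have hd2 : deriv (fun y => (W y)⁻¹) y = - deriv W y / (W y) ^ 2 :=
    (hd.hasDerivAt.fun_inv hw).deriv
  have e : (1 / 2 : ℝ) • (L₁ - L₂) = fmbL (fmbk D W y) := by
    ext v
    rw [_root_.smul_apply, _root_.sub_apply, h1v, h2v, fmbL_apply,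
      fmbk_im, hd2]
    have : - deriv W y / W y ^ 2 / (W y)⁻¹ = - (deriv W y / W y) := by
      field_simp
    rw [this]
    unfold reg
    rw [norm_inv, Real.log_inv, neg_mul, Complex.neg_im, smul_eq_mul]
    ring
  rw [e] at h3
  refine h3.congr_of_eventuallyEq ?_
  filter_upwards with z
  unfold fmbH
  simp only [Pi.sub_apply]
  ring

private theorem fmb_contK {h : ℂ → ℂ → ℝ} (hh : D.Prim h) {x₀ : ℂ} {δ : ℝ} {W : ℂ → ℂ}
    (hS : D.Sec x₀ δ W) : ContDiffAt ℝ 1 (fun y => fmbH h y (W y)) x₀ := by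
  rw [contDiffAt_one_iff]
  refine ⟨fun y => fmbL (fmbk D W y), Metric.ball x₀ δ, Metric.ball_mem_nhds _ hS.hδ, ?_, ?_⟩
  · refine fmbL_cont.comp_continuousOn ?_
    intro y hy
    have hyS := (hS.pt y hy).1
    have hw := (hS.pt y hy).w_ne
    have hW : ContinuousAt W y := (hS.hW.continuousOn).continuousAt (Metric.isOpen_ball.mem_nhds hy)
    have hW' : ContinuousAt (deriv W) y :=
      ((hS.hW.deriv Metric.isOpen_ball).continuousOn).continuousAt (Metric.isOpen_ball.mem_nhds hy)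
    refine ContinuousAt.continuousWithinAt ?_
    unfold fmbk
    refine ContinuousAt.sub (ContinuousAt.mul ?_ ?_) (ContinuousAt.mul ?_ ?_)
    · exact Complex.continuous_ofReal.continuousAt.comp (fmb_contPhi hyS).continuousAt
    · exact hW'.div hW hw
    · exact Complex.continuous_ofReal.continuousAt.comp (hW.norm.log (norm_ne_zero_iff.2 hw))
    · exact (fmb_contF hyS).continuousAt
  · exact fun y hy => fmb_HDeriv hh hS hy

theorem exists_form {h : ℂ → ℂ → ℝ} (hh : D.Prim h) : ∃ V₁ V₂ G : ℂ → ℝ, ∀ x ∉ D.S,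
    ContDiffAt ℝ 1 V₁ x ∧ ContDiffAt ℝ 1 V₂ x ∧ DifferentiableAt ℝ G x ∧ 0 ≤ G x ∧
    ∀ w, D.Pt x w →
      fderiv ℝ V₂ x 1 - fderiv ℝ V₁ x I = 2 * Real.log ‖w‖ * (D.T w).re * ‖D.F x‖ ^ 2 ∧
      |V₁ x| + |V₂ x| ≤ 2 * ((√(G x) + |Real.log ‖w‖ * D.Φ x|) * D.gN x) ∧
      ‖fderiv ℝ G x‖ ≤ 2 * √(G x) * D.rN x w := by
  classical
  have hex : ∀ x, ∃ w, x ∉ D.S → D.Pt x w := by
    intro x
    by_cases hx : x ∈ D.S
    · exact ⟨0, fun h => absurd hx h⟩
    · obtain ⟨w, hw⟩ := exists_pt hx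
      exact ⟨w, fun _ => hw⟩
  choose wf hwf using hex
  refine ⟨fun x => fmbH h x (wf x) * (D.T (wf x) * D.F x).re +
      Real.log ‖wf x‖ * D.Φ x * (D.T (wf x) * D.F x).im,
    fun x => - fmbH h x (wf x) * (D.T (wf x) * D.F x).im +
      Real.log ‖wf x‖ * D.Φ x * (D.T (wf x) * D.F x).re,
    fun x => (fmbH h x (wf x)) ^ 2, ?_⟩
  intro x hx
  -- the local expressions for any point w over x
  have key : ∀ w, D.Pt x w → ∃ (W : ℂ → ℂ) (δ : ℝ), D.Sec x δ W ∧ W x = w ∧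
      (fun x => fmbH h x (wf x) * (D.T (wf x) * D.F x).re +
        Real.log ‖wf x‖ * D.Φ x * (D.T (wf x) * D.F x).im) =ᶠ[nhds x]
        (fun y => fmbH h y (W y) * (D.T (W y) * D.F y).re +
          Real.log ‖W y‖ * D.Φ y * (D.T (W y) * D.F y).im) ∧
      (fun x => - fmbH h x (wf x) * (D.T (wf x) * D.F x).im +
        Real.log ‖wf x‖ * D.Φ x * (D.T (wf x) * D.F x).re) =ᶠ[nhds x]
        (fun y => - fmbH h y (W y) * (D.T (W y) * D.F y).im +
          Real.log ‖W y‖ * D.Φ y * (D.T (W y) * D.F y).re) ∧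
      (fun x => (fmbH h x (wf x)) ^ 2) =ᶠ[nhds x] (fun y => (fmbH h y (W y)) ^ 2) := by
    intro w hw
    obtain ⟨δ, W, hS, hWx⟩ := exists_sec hw
    have hball : Metric.ball x δ ∈ nhds x := Metric.ball_mem_nhds _ hS.hδ
    have hcase : ∀ y ∈ Metric.ball x δ, wf y = W y ∨ wf y = (W y)⁻¹ := fun y hy =>
      (hS.pt y hy).eq_or (hwf y (hS.pt y hy).1)
    refine ⟨W, δ, hS, hWx, ?_, ?_, ?_⟩
    · filter_upwards [hball] with y hy
      rcases hcase y hy with h1 | h1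
      · rw [h1]
      · rw [h1, fmbH_inv, (hS.pt y hy).T_inv, norm_inv, Real.log_inv,
          neg_mul (D.T (W y)) (D.F y), Complex.neg_re, Complex.neg_im]
        ring
    · filter_upwards [hball] with y hy
      rcases hcase y hy with h1 | h1
      · rw [h1]
      · rw [h1, fmbH_inv, (hS.pt y hy).T_inv, norm_inv, Real.log_inv,
          neg_mul (D.T (W y)) (D.F y), Complex.neg_re, Complex.neg_im]
        ring
    · filter_upwards [hball] with y hy
      rcases hcase y hy with h1 | h1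
      · rw [h1]
      · rw [h1, fmbH_inv]
        ring
  have key2 : ∀ (W : ℂ → ℂ) (δ : ℝ), D.Sec x δ W →
      ContDiffAt ℝ 1 (fun y => Real.log ‖W y‖) x ∧
      ContDiffAt ℂ 1 (fun y => D.T (W y) * D.F y) x := by
    intro W δ hS
    have hxb : x ∈ Metric.ball x δ := Metric.mem_ball_self hS.hδ
    have hpt := hS.pt x hxb
    have hWc : ContDiffAt ℂ 1 W x :=
      (hS.hW.contDiffOn Metric.isOpen_ball).contDiffAt (Metric.isOpen_ball.mem_nhds hxb)
    refine ⟨?_, ?_⟩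
    · exact ((hWc.restrict_scalars ℝ).norm ℝ hpt.w_ne).log (norm_ne_zero_iff.2 hpt.w_ne)
    · refine ContDiffAt.mul ?_ (fmb_contF hx)
      unfold T
      exact (((hWc.pow 2).sub (contDiffAt_const.mul hWc)).add contDiffAt_const).div
        ((hWc.pow 2).sub contDiffAt_const) hpt.sq_ne
  obtain ⟨w₀, hw₀⟩ := exists_pt hx
  obtain ⟨W, δ, hS, hWx, e1, e2, e3⟩ := key w₀ hw₀
  obtain ⟨c1, c2⟩ := key2 W δ hS
  have c2r : ContDiffAt ℝ 1 (fun y => (D.T (W y) * D.F y).re) x :=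
    Complex.reCLM.contDiff.contDiffAt.comp x (c2.restrict_scalars ℝ)
  have c2i : ContDiffAt ℝ 1 (fun y => (D.T (W y) * D.F y).im) x :=
    Complex.imCLM.contDiff.contDiffAt.comp x (c2.restrict_scalars ℝ)
  have cK := fmb_contK hh hS
  have cP := fmb_contPhi hx
  refine ⟨?_, ?_, ?_, sq_nonneg _, ?_⟩
  · exact ((cK.mul c2r).add ((c1.mul cP).mul c2i)).congr_of_eventuallyEq e1
  · exact ((cK.neg.mul c2i).add ((c1.mul cP).mul c2r)).congr_of_eventuallyEq e2
  · exact ((cK.differentiableAt one_ne_zero).pow 2).congr_of_eventuallyEq e3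
  clear e1 e2 e3 c1 c2 c2r c2i cK hS hWx hw₀ w₀ W δ
  intro w hw
  obtain ⟨W, δ, hS, hWx, e1, e2, e3⟩ := key w hw
  obtain ⟨c1, c2⟩ := key2 W δ hS
  have hxb : x ∈ Metric.ball x δ := Metric.mem_ball_self hS.hδ
  have hK := fmb_HDeriv hh hS hxb
  obtain ⟨Ll, hl, hLl⟩ := fmb_logderiv
    (((hS.hW x hxb).differentiableAt (Metric.isOpen_ball.mem_nhds hxb)).hasDerivAt)
    (hS.pt x hxb).w_ne
  obtain ⟨Lp, hp, hLp⟩ := fmb_phi hx
  have hg : HasDerivAt (fun y => D.T (W y) * D.F y) (deriv (fun y => D.T (W y) * D.F y) x) x :=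
    (c2.differentiableAt one_ne_zero).hasDerivAt
  have hgn : ‖D.T w * D.F x‖ = D.gN x := by
    rw [hw.T_eq, norm_mul, norm_div, hw.norm_sub_inv, gN]
    ring
  refine ⟨?_, ?_, ?_⟩
  · rw [e2.fderiv_eq, e1.fderiv_eq]
    have := curl_local (k := fun y => fmbH h y (W y)) (lam := fun y => Real.log ‖W y‖)
      (Phi := D.Φ) (g := fun y => D.T (W y) * D.F y) (ω := deriv W x / W x) (f := D.F x)
      hK hl hp hg (fun v => by rw [fmbL_apply, fmbk_im]; rfl) hLl hLp
    rw [this]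
    simp only [hWx]
    rw [Complex.mul_re, Complex.mul_im, ← Complex.normSq_eq_norm_sq, Complex.normSq_apply]
    ring
  · have h1 := e1.self_of_nhds
    have h2 := e2.self_of_nhds
    have h3 := e3.self_of_nhds
    simp only [hWx] at h1 h2 h3
    simp only [h1, h2, h3, Real.sqrt_sq_eq_abs]
    rw [← hgn]
    set g := D.T w * D.F x with hgdef
    have a1 := Complex.abs_re_le_norm g
    have a2 := Complex.abs_im_le_norm g
    have hb1 : |fmbH h x w * g.re + Real.log ‖w‖ * D.Φ x * g.im| ≤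
        |fmbH h x w| * ‖g‖ + |Real.log ‖w‖ * D.Φ x| * ‖g‖ := by
      refine (abs_add_le _ _).trans ?_
      rw [abs_mul, abs_mul (Real.log ‖w‖ * D.Φ x)]
      gcongr
    have hb2 : |- fmbH h x w * g.im + Real.log ‖w‖ * D.Φ x * g.re| ≤
        |fmbH h x w| * ‖g‖ + |Real.log ‖w‖ * D.Φ x| * ‖g‖ := by
      refine (abs_add_le _ _).trans ?_
      rw [abs_mul, abs_mul (Real.log ‖w‖ * D.Φ x), abs_neg]
      gcongr
    linarith
  · have h3 := e3.self_of_nhds
    simp only [hWx] at h3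
    rw [e3.fderiv_eq]
    simp only [h3, Real.sqrt_sq_eq_abs]
    have hd := (hK.pow 2).fderiv
    have hd' : fderiv ℝ (fun y => fmbH h y (W y) ^ 2) x =
        (2 * fmbH h x (W x)) • fmbL (fmbk D W x) := by
      refine Eq.trans hd ?_
      simp [pow_one]
    rw [hd', norm_smul, hWx, Real.norm_eq_abs, abs_mul, abs_two]
    refine mul_le_mul_of_nonneg_left ?_ (by positivity)
    refine (fmbL_norm _).trans ((fmb_norm D W x).trans ?_)
    rw [hS.logDeriv hxb, norm_div, hWx, hw.norm_sub_inv, rN, mul_div_assoc]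

end Dat

end Pool.Agent.RHE
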