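import Pool.Agent.RHE.Basic

/-! # RHE-Pos: positivity

PLAN. For `w ≠ 0`, `w² ≠ 1`: with `α = (2 - κ)/4 ≥ 0`, `β = (2 + κ)/4 ≥ 0`, `α + β = 1`:
`T(w) = α (w + 1)/(w - 1) + β (w - 1)/(w + 1)`, and `Re((w + 1)/(w - 1)) = (‖w‖² - 1)/‖w - 1‖²`,
`Re((w - 1)/(w + 1)) = (‖w‖² - 1)/‖w + 1‖²`. So `Re T = (‖w‖² - 1) q`, `q > 0`, which has the sign of `log‖w‖`.
`exists_pos`: `F(x) ∏ (x - a i)` is the value of a polynomial which is not zero (at `a i` with `z i ≠ 0` its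
value is `z i ∏_{j ≠ i} (a i - a j) ≠ 0`), so `F x ≠ 0` outside a finite set; `‖Q(x)‖ > 2` for `‖x‖` large
(`Polynomial.tendsto_norm_atTop`), and then `‖w‖ ≠ 1` (`‖Q‖ = ‖w + w⁻¹‖ ≤ 2` if `‖w‖ = 1`). -/

namespace Pool.Agent.RHE

open Polynomial

namespace Dat

variable (D : Dat)

private theorem pos_key {D : Dat} {x w : ℂ} (h : D.Pt x w) :
    ∃ q : ℝ, 0 < q ∧ (D.T w).re = (‖w‖ ^ 2 - 1) * q := by
  have h2 := h.sq_ne
  have hn : 0 < Complex.normSq (w ^ 2 - 1) := Complex.normSq_pos.2 h2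
  have hpos : 0 < ‖w‖ ^ 2 + 1 - D.κ * w.re := by
    rw [← Complex.normSq_eq_norm_sq, Complex.normSq_apply]
    have hκ := abs_le.1 D.hκ
    by_contra hle
    rw [not_lt] at hle
    have h3 : D.κ * w.re ≤ 2 * |w.re| := by
      calc D.κ * w.re ≤ |D.κ * w.re| := le_abs_self _
        _ = |D.κ| * |w.re| := abs_mul _ _
        _ ≤ 2 * |w.re| := mul_le_mul_of_nonneg_right D.hκ (abs_nonneg _)
    have h4 : |w.re| * |w.re| = w.re * w.re := abs_mul_abs_self _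
    have h5 : (|w.re| - 1) ^ 2 + w.im ^ 2 ≤ 0 := by nlinarith
    have h6 : w.im = 0 := by
      have : w.im ^ 2 ≤ 0 := by nlinarith [sq_nonneg (|w.re| - 1)]
      exact pow_eq_zero_iff (two_ne_zero) |>.1 (le_antisymm this (sq_nonneg _))
    have h7 : |w.re| = 1 := by
      have : (|w.re| - 1) ^ 2 ≤ 0 := by nlinarith [sq_nonneg w.im]
      have := pow_eq_zero_iff (two_ne_zero) |>.1 (le_antisymm this (sq_nonneg _))
      linarith
    apply h2
    have h8 : w = (w.re : ℂ) := by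
      apply Complex.ext <;> simp [h6]
    have h9 : w.re ^ 2 = 1 := by
      rw [← sq_abs, h7, one_pow]
    rw [h8, ← Complex.ofReal_pow, h9]
    simp
  refine ⟨(‖w‖ ^ 2 + 1 - D.κ * w.re) / Complex.normSq (w ^ 2 - 1), div_pos hpos hn, ?_⟩
  rw [← Complex.normSq_eq_norm_sq]
  have e1 : (D.T w).re = ((w ^ 2 - (D.κ : ℂ) * w + 1).re * (w ^ 2 - 1).re +
      (w ^ 2 - (D.κ : ℂ) * w + 1).im * (w ^ 2 - 1).im) / Complex.normSq (w ^ 2 - 1) := by
    rw [T, Complex.div_re]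
    ring
  rw [e1, ← mul_div_assoc]
  congr 1
  simp only [pow_two, Complex.add_re, Complex.sub_re, Complex.mul_re, Complex.add_im,
    Complex.sub_im, Complex.mul_im, Complex.ofReal_re, Complex.ofReal_im, Complex.one_re,
    Complex.one_im, Complex.normSq_apply]
  ring

private theorem pos_sign (w : ℂ) (hw : w ≠ 0) : 0 ≤ Real.log ‖w‖ * (‖w‖ ^ 2 - 1) := by
  have h0 : 0 < ‖w‖ := norm_pos_iff.2 hw
  rcases le_total 1 ‖w‖ with h | h
  · exact mul_nonneg (Real.log_nonneg h) (by nlinarith)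
  · exact mul_nonneg_of_nonpos_of_nonpos (Real.log_nonpos h0.le h) (by nlinarith)

private theorem pos_sign' (w : ℂ) (hw : w ≠ 0) (h1 : ‖w‖ ≠ 1) :
    0 < Real.log ‖w‖ * (‖w‖ ^ 2 - 1) := by
  have h0 : 0 < ‖w‖ := norm_pos_iff.2 hw
  rcases lt_or_gt_of_ne h1 with h | h
  · exact mul_pos_of_neg_of_neg (Real.log_neg h0 h) (by nlinarith)
  · exact mul_pos (Real.log_pos h) (by nlinarith)

theorem Pt.nonneg {D : Dat} {x w : ℂ} (h : D.Pt x w) :
    0 ≤ 2 * Real.log ‖w‖ * (D.T w).re * ‖D.F x‖ ^ 2 := by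
  obtain ⟨q, hq, he⟩ := pos_key h
  rw [he]
  have := pos_sign w h.w_ne
  have e : 2 * Real.log ‖w‖ * ((‖w‖ ^ 2 - 1) * q) * ‖D.F x‖ ^ 2 =
      2 * (Real.log ‖w‖ * (‖w‖ ^ 2 - 1)) * q * ‖D.F x‖ ^ 2 := by ring
  rw [e]
  positivity

/-- the numerator of `F` -/
private noncomputable def posG : ℂ[X] :=
  ∑ i, C (D.z i : ℂ) * ∏ j ∈ Finset.univ.erase i, (X - C (D.a j))

private theorem posG_ne : posG D ≠ 0 := by
  obtain ⟨i, hi⟩ := D.exists_z_ne
  intro h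
  have h1 : (posG D).eval (D.a i) = 0 := by rw [h, eval_zero]
  rw [posG, eval_finsetSum, Finset.sum_eq_single i] at h1
  · rw [eval_mul, eval_C, eval_prod, mul_eq_zero, Finset.prod_eq_zero_iff] at h1
    rcases h1 with h1 | ⟨j, hj, h1⟩
    · exact hi (by exact_mod_cast h1)
    · rw [eval_sub, eval_X, eval_C, sub_eq_zero] at h1
      exact (Finset.ne_of_mem_erase hj) (D.ha h1.symm)
  · intro k _ hk
    rw [eval_mul, eval_prod, Finset.prod_eq_zero (Finset.mem_erase.2 ⟨hk.symm, Finset.mem_univ i⟩),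
      mul_zero]
    simp
  · intro h
    exact absurd (Finset.mem_univ _) h

private theorem posG_eval {x : ℂ} (hx : x ∉ D.S) :
    (posG D).eval x = D.F x * ∏ j, (x - D.a j) := by
  rw [posG, eval_finsetSum, F, Finset.sum_mul]
  refine Finset.sum_congr rfl fun i _ => ?_
  rw [← Finset.mul_prod_erase _ _ (Finset.mem_univ i), eval_mul, eval_prod, eval_C, ← mul_assoc,
    div_mul_cancel₀ _ (D.sub_a_ne hx i)]
  simp

theorem exists_pos : ∃ x w : ℂ, D.Pt x w ∧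
    0 < 2 * Real.log ‖w‖ * (D.T w).re * ‖D.F x‖ ^ 2 := by
  have hz : Filter.Tendsto (fun n : ℕ => ‖(n : ℂ)‖) Filter.atTop Filter.atTop := by
    simp only [Complex.norm_natCast]
    exact tendsto_natCast_atTop_atTop
  have hP : 0 < (D.R * D.Δ * posG D).degree := by
    have h1 : D.R * D.Δ * posG D ≠ 0 := mul_ne_zero (mul_ne_zero D.R_ne D.Δ_ne) (posG_ne D)
    rw [← natDegree_pos_iff_degree_pos, natDegree_mul (mul_ne_zero D.R_ne D.Δ_ne) (posG_ne D),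
      natDegree_mul D.R_ne D.Δ_ne]
    have := D.R_natDegree_pos
    omega
  have hQ : 0 < D.Q.degree := by
    rw [← natDegree_pos_iff_degree_pos, D.Q_natDegree]
    exact D.R_natDegree_pos
  obtain ⟨n, hn1, hn2⟩ := (((D.R * D.Δ * posG D).tendsto_norm_atTop hP hz).eventually_gt_atTop 0
    |>.and ((D.Q.tendsto_norm_atTop hQ hz).eventually_gt_atTop 2)).exists
  rw [norm_pos_iff, eval_mul, eval_mul] at hn1
  have hG := right_ne_zero_of_mul hn1
  have hRΔ := left_ne_zero_of_mul hn1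
  have hS : (n : ℂ) ∉ D.S := D.notMem_S.2 ⟨left_ne_zero_of_mul hRΔ, right_ne_zero_of_mul hRΔ⟩
  rw [posG_eval D hS] at hG
  have hF := left_ne_zero_of_mul hG
  obtain ⟨w, hw⟩ := D.exists_pt hS
  refine ⟨n, w, hw, ?_⟩
  have h1 : ‖w‖ ≠ 1 := by
    intro h
    rw [hw.Q_eq] at hn2
    have : ‖w + w⁻¹‖ ≤ 2 := by
      calc ‖w + w⁻¹‖ ≤ ‖w‖ + ‖w⁻¹‖ := norm_add_le _ _
        _ = 2 := by rw [norm_inv, h]; norm_num
    linarith
  obtain ⟨q, hq, he⟩ := pos_key hw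
  rw [he]
  have := pos_sign' w hw.w_ne h1
  have e : 2 * Real.log ‖w‖ * ((‖w‖ ^ 2 - 1) * q) * ‖D.F n‖ ^ 2 =
      2 * (Real.log ‖w‖ * (‖w‖ ^ 2 - 1)) * q * ‖D.F n‖ ^ 2 := by ring
  rw [e]
  have hF' : 0 < ‖D.F n‖ := norm_pos_iff.2 hF
  positivity

end Dat

end Pool.Agent.RHE
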