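import Pool.Agent.RHE.Prim
import Pool.Agent.RHE.Der
import Pool.Agent.RHE.FormB
import Pool.Agent.RHE.CutC
import Pool.Agent.RHE.Bdd
import Pool.Agent.RHE.Bdi
import Pool.Agent.RHE.AsyA
import Pool.Agent.RHE.AsyB
import Pool.Agent.RHE.AsyC
import Pool.Agent.RHE.Pos

/-! The main analytic theorem: not all loops have regulator zero. -/

namespace Pool.Agent.RHE

open Complex

namespace Dat

variable (D : Dat)

theorem asy_loc (hG : D.Good) {s : ℂ} (hs : s ∈ D.S) :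
    ∃ C : ℝ, ∃ δ > (0 : ℝ), ∀ x : ℂ, 0 < ‖x - s‖ → ‖x - s‖ < δ → x ∉ D.S ∧ ∀ w, D.Pt x w →
      (1 + |Real.log ‖w‖ * D.Φ x|) * D.gN x ≤ C * ‖x - s‖ ^ (-(3 / 4) : ℝ) ∧
      D.rN x w ≤ C * ‖x - s‖ ^ (-(3 / 4) : ℝ) := by
  by_cases hR : D.R.eval s = 0
  · obtain ⟨i, rfl⟩ := D.R_eval_eq_zero.1 hR
    exact D.asyA i
  · exact D.asyB hG ((D.mem_S.1 hs).resolve_left hR) hR

theorem gN_nonneg (x : ℂ) : 0 ≤ D.gN x := by
  unfold gN
  positivity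

theorem not_loopsZero (hG : D.Good) : ¬ D.LoopsZero := by
  intro hL
  obtain ⟨h, hh⟩ := exists_fun hL
  obtain ⟨V₁, V₂, G, hV⟩ := exists_form (prim_of_fun hh)
  have hcurl : ∀ x ∉ D.S, fderiv ℝ V₂ x 1 - fderiv ℝ V₁ x I = 0 := by
    refine curl_eq_zero D.S V₁ V₂ (fun x hx => (hV x hx).1) (fun x hx => (hV x hx).2.1) ?_ ?_ ?_
    · intro x hx
      obtain ⟨w, hw⟩ := exists_pt hx
      rw [((hV x hx).2.2.2.2 w hw).1]
      exact hw.nonneg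
    · intro s hs
      obtain ⟨C, δ, hδ, hC⟩ := D.asy_loc hG hs
      obtain ⟨M, hM⟩ := bdd_near (s := s) (G := G) (C := C) hδ fun x h0 h1 => by
        obtain ⟨hx, hw⟩ := hC x h0 h1
        obtain ⟨w, hp⟩ := exists_pt hx
        refine ⟨(hV x hx).2.2.1, (hV x hx).2.2.2.1, ((hV x hx).2.2.2.2 w hp).2.2.trans ?_⟩
        exact mul_le_mul_of_nonneg_left (hw w hp).2 (by positivity)
      refine ⟨2 * ((|M| + 1) * C), δ / 2, by positivity, fun x h0 h1 => ?_⟩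
      obtain ⟨hx, hw⟩ := hC x h0 (h1.trans (by linarith))
      obtain ⟨w, hp⟩ := exists_pt hx
      have h2 := ((hV x hx).2.2.2.2 w hp).2.1
      have h3 : √(G x) ≤ |M| := (hM x h0 h1.le).trans (le_abs_self M)
      have h4 : √(G x) + |Real.log ‖w‖ * D.Φ x| ≤
          (|M| + 1) * (1 + |Real.log ‖w‖ * D.Φ x|) := by
        nlinarith [abs_nonneg M, abs_nonneg (Real.log ‖w‖ * D.Φ x)]
      have h5 : (√(G x) + |Real.log ‖w‖ * D.Φ x|) * D.gN x ≤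
          (|M| + 1) * (C * ‖x - s‖ ^ (-(3 / 4) : ℝ)) := by
        calc (√(G x) + |Real.log ‖w‖ * D.Φ x|) * D.gN x
            ≤ (|M| + 1) * (1 + |Real.log ‖w‖ * D.Φ x|) * D.gN x :=
              mul_le_mul_of_nonneg_right h4 (D.gN_nonneg x)
          _ = (|M| + 1) * ((1 + |Real.log ‖w‖ * D.Φ x|) * D.gN x) := by ring
          _ ≤ (|M| + 1) * (C * ‖x - s‖ ^ (-(3 / 4) : ℝ)) :=
              mul_le_mul_of_nonneg_left (hw w hp).1 (by positivity)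
      calc |V₁ x| + |V₂ x| ≤ 2 * ((√(G x) + |Real.log ‖w‖ * D.Φ x|) * D.gN x) := h2
        _ ≤ 2 * ((|M| + 1) * (C * ‖x - s‖ ^ (-(3 / 4) : ℝ))) := by linarith
        _ = 2 * ((|M| + 1) * C) * ‖x - s‖ ^ (-(3 / 4) : ℝ) := by ring
    · obtain ⟨C, ρ, hρ, hC⟩ := D.asyC
      obtain ⟨M, hM⟩ := bdd_inf (G := G) (C := C) hρ fun x h1 => by
        obtain ⟨hx, hw⟩ := hC x h1
        obtain ⟨w, hp⟩ := exists_pt hx
        refine ⟨(hV x hx).2.2.1, (hV x hx).2.2.2.1, ((hV x hx).2.2.2.2 w hp).2.2.trans ?_⟩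
        exact mul_le_mul_of_nonneg_left (hw w hp).2 (by positivity)
      refine ⟨2 * ((|M| + 1) * C), 2 * ρ, fun x h1 => ?_⟩
      obtain ⟨hx, hw⟩ := hC x (by linarith)
      obtain ⟨w, hp⟩ := exists_pt hx
      have h2 := ((hV x hx).2.2.2.2 w hp).2.1
      have h3 : √(G x) ≤ |M| := (hM x h1.le).trans (le_abs_self M)
      have h4 : √(G x) + |Real.log ‖w‖ * D.Φ x| ≤
          (|M| + 1) * (1 + |Real.log ‖w‖ * D.Φ x|) := by
        nlinarith [abs_nonneg M, abs_nonneg (Real.log ‖w‖ * D.Φ x)]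
      have h5 : (√(G x) + |Real.log ‖w‖ * D.Φ x|) * D.gN x ≤
          (|M| + 1) * (C * ‖x‖ ^ (-(3 / 2) : ℝ)) := by
        calc (√(G x) + |Real.log ‖w‖ * D.Φ x|) * D.gN x
            ≤ (|M| + 1) * (1 + |Real.log ‖w‖ * D.Φ x|) * D.gN x :=
              mul_le_mul_of_nonneg_right h4 (D.gN_nonneg x)
          _ = (|M| + 1) * ((1 + |Real.log ‖w‖ * D.Φ x|) * D.gN x) := by ring
          _ ≤ (|M| + 1) * (C * ‖x‖ ^ (-(3 / 2) : ℝ)) :=
              mul_le_mul_of_nonneg_left (hw w hp).1 (by positivity)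
      calc |V₁ x| + |V₂ x| ≤ 2 * ((√(G x) + |Real.log ‖w‖ * D.Φ x|) * D.gN x) := h2
        _ ≤ 2 * ((|M| + 1) * (C * ‖x‖ ^ (-(3 / 2) : ℝ))) := by linarith
        _ = 2 * ((|M| + 1) * C) * ‖x‖ ^ (-(3 / 2) : ℝ) := by ring
  obtain ⟨x, w, hp, hpos⟩ := D.exists_pos
  have h1 := ((hV x hp.notMem).2.2.2.2 w hp).1
  rw [hcurl x hp.notMem] at h1
  exact absurd h1.symm hpos.ne'

end Dat

end Pool.Agent.RHE
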