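import Mathlib

/-! # RHE-CutA (Mathlib only): integration by parts against a compactly supported function

PLAN. `u₂ = χ V₂`, `u₁ = χ V₁` are `C¹` on `ℂ` (near `s ∈ S` they vanish identically, elsewhere products) with
compact support. For a `C¹` function `u` with compact support `∫ fderiv ℝ u x v = 0`: use
`integral_bilinear_hasLineDerivAt_right_eq_neg_left_of_integrable` (with one function constant `1`) or the
lemma on `∫ fderiv` in `Mathlib/Analysis/Calculus/LineDeriv/IntegrationByParts.lean`. For `x ∉ S`: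
`fderiv (χ V) x v = χ x * fderiv V x v + fderiv χ x v * V x` (also true for `x ∈ S` if one notes that both
`χ x = 0` and `fderiv χ x = 0` there; or `S` has measure zero). Apply with `(V₂, 1)` and `(V₁, I)` and
subtract; integrability: continuous with compact support. -/

namespace Pool.Agent.RHE

open Complex MeasureTheory

private lemma aux (S : Finset ℂ) (V χ : ℂ → ℝ) (h : ∀ x ∉ S, ContDiffAt ℝ 1 V x)
    (hχ : ContDiff ℝ 1 χ) (hc : HasCompactSupport χ) (hs : ∀ s ∈ S, χ =ᶠ[nhds s] 0) (v : ℂ) :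
    Integrable (fun x => χ x * fderiv ℝ V x v) ∧ Integrable (fun x => fderiv ℝ χ x v * V x) ∧
    ∫ x, χ x * fderiv ℝ V x v = - ∫ x, fderiv ℝ χ x v * V x := by
  have hts : ∀ x ∈ tsupport χ, x ∉ S := by
    intro x hx hxS
    exact (notMem_tsupport_iff_eventuallyEq.mpr (hs x hxS)) hx
  have c1 : Continuous (fun x => χ x * fderiv ℝ V x v) := by
    rw [continuous_iff_continuousAt]
    intro x
    by_cases hx : x ∈ S
    · have : (fun x => χ x * fderiv ℝ V x v) =ᶠ[nhds x] fun _ => 0 := by
        filter_upwards [hs x hx] with y hy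
        rw [hy]; simp
      exact continuousAt_const.congr this.symm
    · have h1 : ContinuousAt (fderiv ℝ V) x := (h x hx).continuousAt_fderiv (by norm_num)
      exact hχ.continuous.continuousAt.mul (h1.clm_apply continuousAt_const)
  have c2 : Continuous (fun x => fderiv ℝ χ x v * V x) := by
    rw [continuous_iff_continuousAt]
    intro x
    by_cases hx : x ∈ S
    · have h0 : fderiv ℝ χ =ᶠ[nhds x] fderiv ℝ 0 := (hs x hx).fderiv
      have : (fun x => fderiv ℝ χ x v * V x) =ᶠ[nhds x] fun _ => 0 := by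
        filter_upwards [h0] with y hy
        rw [hy]; simp
      exact continuousAt_const.congr this.symm
    · have h1 : ContinuousAt (fderiv ℝ χ) x := (hχ.continuous_fderiv (by norm_num)).continuousAt
      exact (h1.clm_apply continuousAt_const).mul (h x hx).continuousAt
  have c3 : Continuous (fun x => χ x * V x) := by
    rw [continuous_iff_continuousAt]
    intro x
    by_cases hx : x ∈ S
    · have : (fun x => χ x * V x) =ᶠ[nhds x] fun _ => 0 := by
        filter_upwards [hs x hx] with y hy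
        rw [hy]; simp
      exact continuousAt_const.congr this.symm
    · exact hχ.continuous.continuousAt.mul (h x hx).continuousAt
  have i1 : Integrable (fun x => χ x * fderiv ℝ V x v) :=
    c1.integrable_of_hasCompactSupport hc.mul_right
  have i2 : Integrable (fun x => fderiv ℝ χ x v * V x) :=
    c2.integrable_of_hasCompactSupport (HasCompactSupport.mul_right (hc.fderiv_apply (𝕜 := ℝ) v))
  have i3 : Integrable (fun x => χ x * V x) :=
    c3.integrable_of_hasCompactSupport hc.mul_right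
  refine ⟨i1, i2, ?_⟩
  exact integral_mul_fderiv_eq_neg_fderiv_mul_of_integrable i2 i1 i3
    (fun x _ => (hχ.differentiable (by norm_num)).differentiableAt)
    (fun x hx => (h x (hts x hx)).differentiableAt (by norm_num))

theorem int_by_parts (S : Finset ℂ) (V₁ V₂ χ : ℂ → ℝ) (h₁ : ∀ x ∉ S, ContDiffAt ℝ 1 V₁ x)
    (h₂ : ∀ x ∉ S, ContDiffAt ℝ 1 V₂ x) (hχ : ContDiff ℝ 1 χ) (hc : HasCompactSupport χ)
    (hs : ∀ s ∈ S, χ =ᶠ[nhds s] 0) :
    Integrable (fun x => χ x * (fderiv ℝ V₂ x 1 - fderiv ℝ V₁ x I)) ∧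
    Integrable (fun x => fderiv ℝ χ x 1 * V₂ x - fderiv ℝ χ x I * V₁ x) ∧
    ∫ x, χ x * (fderiv ℝ V₂ x 1 - fderiv ℝ V₁ x I) =
      - ∫ x, (fderiv ℝ χ x 1 * V₂ x - fderiv ℝ χ x I * V₁ x) := by
  obtain ⟨a1, a2, a3⟩ := aux S V₁ χ h₁ hχ hc hs I
  obtain ⟨b1, b2, b3⟩ := aux S V₂ χ h₂ hχ hc hs 1
  have e1 : (fun x => χ x * (fderiv ℝ V₂ x 1 - fderiv ℝ V₁ x I)) =
      fun x => χ x * fderiv ℝ V₂ x 1 - χ x * fderiv ℝ V₁ x I := by
    funext x; ring
  refine ⟨?_, b2.sub a2, ?_⟩
  · rw [e1]; exact b1.sub a1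
  · rw [e1, integral_sub b1 a1, integral_sub b2 a2, a3, b3]; ring

end Pool.Agent.RHE
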