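import Mathlib

/-! # Project RHE (MP_a09a03_nt): regulators on `w + 1/w = c ∏ (x - a i) ^ e i + κ`, all `c ≠ 0`

PLAN OF THE PROOF (helper4). `R = c ∏ (x - a i)^(e i)`, `Q = R + κ`, `Δ = Q² - 4`, `-2 ≤ κ ≤ 2`,
`S` = zeros of `R Δ`. Points `(x, w)` with `x ∉ S`, `w² - Q(x) w + 1 = 0` (so `w ≠ 0`, `w² ≠ 1`,
`(w - 1/w)² = Δ(x)`). `z` real, sum zero, not zero; `Φ = ∑ z i log|x - a i|`, `F = ∑ z i / (x - a i)`.
Regulator 1-form on the curve: `ρ = Φ d arg w - log|w| Im(F dx)`.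
* Suppose all loops have `∫ ρ = 0`. Then `ρ = dh` for a function `h(x, w)` (`Cat, Cls, Prim, Der`);
  replace `h` by `(h(x, w) - h(x, 1/w))/2`.
* `T = (w² - κ w + 1)/(w² - 1) = R(x) w/(w² - 1)`, `g = T F`. Then `V₁ = h Re g + log|w| Φ Im g`,
  `V₂ = - h Im g + log|w| Φ Re g` do not change under `w -> 1/w`, so they are functions of `x ∉ S`
  only, and `∂ₓ V₂ - ∂_y V₁ = 2 log|w| Re(T) |F|²` (`FormA, FormB`).
* `Re T` has the sign of `log|w|` (`Pos`), so the curl is `≥ 0`, and `> 0` somewhere.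
* `V₁, V₂` are `O(|x - s|^(-3/4))` near `s ∈ S` and `O(|x|^(-3/2))` near infinity
  (`Bdd, Bdi, AsyA, AsyB, AsyC`), so the integral of the curl is `0` (`Cut`). Contradiction (`Core`).
-/

namespace Pool.Agent.RHE

open Polynomial

/-- the data -/
structure Dat where
  r : ℕ
  a : Fin r → ℂ
  e : Fin r → ℕ
  c : ℂ
  κ : ℝ
  z : Fin r → ℝ
  ha : Function.Injective a
  he : ∀ i, 0 < e i
  hc : c ≠ 0
  hκ : |κ| ≤ 2
  hz : ∑ i, z i = 0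
  hz0 : z ≠ 0

namespace Dat

variable (D : Dat)

/-- `R = c ∏ (x - a i) ^ e i` -/
noncomputable def R : ℂ[X] := C D.c * ∏ i, (X - C (D.a i)) ^ D.e i

/-- `Q = R + κ` -/
noncomputable def Q : ℂ[X] := D.R + C (D.κ : ℂ)

/-- `Δ = Q² - 4` -/
noncomputable def Δ : ℂ[X] := D.Q ^ 2 - C 4

/-- the zeros of `R Δ` -/
noncomputable def S : Finset ℂ := (D.R * D.Δ).roots.toFinset

/-- `Φ = ∑ z i log|x - a i|` -/
noncomputable def Φ (x : ℂ) : ℝ := ∑ i, D.z i * Real.log ‖x - D.a i‖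

/-- `F = ∑ z i / (x - a i)` -/
noncomputable def F (x : ℂ) : ℂ := ∑ i, (D.z i : ℂ) / (x - D.a i)

/-- the points of the curve -/
def Pt (x w : ℂ) : Prop := x ∉ D.S ∧ w ^ 2 - D.Q.eval x * w + 1 = 0

/-- `T = (w² - κ w + 1)/(w² - 1)` -/
noncomputable def T (w : ℂ) : ℂ := (w ^ 2 - (D.κ : ℂ) * w + 1) / (w ^ 2 - 1)

/-- the regulator 1-form along a path -/
noncomputable def ρ (ξ ω : ℝ → ℂ) (t : ℝ) : ℝ :=
  D.Φ (ξ t) * (deriv ω t / ω t).im - Real.log ‖ω t‖ * (D.F (ξ t) * deriv ξ t).im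

/-- the regulator 1-form at `(x, w)` in the direction `v`, if `ω = dw/dx / w` -/
noncomputable def reg (x w ω v : ℂ) : ℝ := D.Φ x * (ω * v).im - Real.log ‖w‖ * (D.F x * v).im

/-- paths which are constant outside `[0, 1]` -/
structure Flat (ξ ω : ℝ → ℂ) : Prop where
  cξ : ContDiff ℝ 2 ξ
  cω : ContDiff ℝ 2 ω
  l : ∀ t ≤ 0, ξ t = ξ 0 ∧ ω t = ω 0
  r : ∀ t, 1 ≤ t → ξ t = ξ 1 ∧ ω t = ω 1
  pt : ∀ t, D.Pt (ξ t) (ω t)

/-- closed loops of period `2π` -/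
structure Loop (ξ ω : ℝ → ℂ) : Prop where
  cξ : ContDiff ℝ 2 ξ
  cω : ContDiff ℝ 2 ω
  pξ : Function.Periodic ξ (2 * Real.pi)
  pω : Function.Periodic ω (2 * Real.pi)
  pt : ∀ t, D.Pt (ξ t) (ω t)

/-- all loops have regulator zero -/
def LoopsZero : Prop :=
  ∀ ξ ω : ℝ → ℂ, D.Loop ξ ω → ∫ t in (0 : ℝ)..(2 * Real.pi), D.ρ ξ ω t = 0

/-- `W` is a holomorphic section over the ball -/
structure Sec (x₀ : ℂ) (δ : ℝ) (W : ℂ → ℂ) : Prop where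
  hδ : 0 < δ
  hW : DifferentiableOn ℂ W (Metric.ball x₀ δ)
  pt : ∀ x ∈ Metric.ball x₀ δ, D.Pt x (W x)

/-- `h` is a primitive of the regulator 1-form along sections -/
def Prim (h : ℂ → ℂ → ℝ) : Prop :=
  ∀ (x₀ : ℂ) (δ : ℝ) (W : ℂ → ℂ), D.Sec x₀ δ W → ∀ x ∈ Metric.ball x₀ δ,
    ∃ L : ℂ →L[ℝ] ℝ, HasFDerivAt (fun y => h y (W y)) L x ∧
      ∀ v, L v = D.reg x (W x) (deriv W x / W x) v

/-- the bound for `g` -/
noncomputable def gN (x : ℂ) : ℝ := ‖D.R.eval x‖ * ‖D.F x‖ / √‖D.Δ.eval x‖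

/-- the bound for the regulator 1-form -/
noncomputable def rN (x w : ℂ) : ℝ :=
  |D.Φ x| * ‖D.R.derivative.eval x‖ / √‖D.Δ.eval x‖ + |Real.log ‖w‖| * ‖D.F x‖

/-- the condition at the zeros of `Δ` which are not zeros of `R` (automatic at simple zeros) -/
def Good : Prop :=
  ∀ s : ℂ, D.Δ.eval s = 0 → D.R.eval s ≠ 0 → ∃ C : ℝ, ∃ δ > (0 : ℝ), ∀ x : ℂ, 0 < ‖x - s‖ →
    ‖x - s‖ < δ → ‖D.F x‖ ^ 2 * ‖x - s‖ ≤ C * ‖D.Δ.eval x‖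

end Dat

end Pool.Agent.RHE
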