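import Pool.Agent.RHE.Basic

/-! # RHE-Lam: bounds for `log‖w‖`

`1/M ≤ ‖w‖ ≤ M` with `M = ‖Q‖ + 1`, and `(‖w‖ - 1)² ≤ ‖w - u‖ ‖w - conj u‖ = ‖w‖ ‖R‖` for the zeros `u`, `conj u`
of `w² - κ w + 1`, which have absolute value 1. -/

namespace Pool.Agent.RHE

namespace Dat

variable {D : Dat}

private lemma norm_le_aux {x w : ℂ} (h : D.Pt x w) : ‖w‖ ≤ ‖D.Q.eval x‖ + 1 := by
  have hQ : 0 ≤ ‖D.Q.eval x‖ := norm_nonneg _
  rcases le_total ‖w‖ 1 with h1 | h1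
  · linarith
  · have hw : 0 < ‖w‖ := by linarith
    have h2 : w = D.Q.eval x - w⁻¹ := by
      rw [h.Q_eq]; ring
    have h3 : ‖w‖ ≤ ‖D.Q.eval x‖ + ‖w⁻¹‖ := by
      calc ‖w‖ = ‖D.Q.eval x - w⁻¹‖ := by rw [← h2]
        _ ≤ ‖D.Q.eval x‖ + ‖w⁻¹‖ := norm_sub_le _ _
    have h4 : ‖w⁻¹‖ ≤ 1 := by
      rw [norm_inv]
      exact inv_le_one_of_one_le₀ h1
    linarith

private lemma exists_unit (κ : ℝ) (hκ : |κ| ≤ 2) :
    ∃ u : ℂ, ‖u‖ = 1 ∧ ∀ w : ℂ, (w - u) * (w - (starRingEnd ℂ) u) = w ^ 2 - (κ : ℂ) * w + 1 := by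
  have h1 : κ ^ 2 ≤ 4 := by
    have := abs_le.1 hκ
    nlinarith
  have h2 : 0 ≤ 1 - κ ^ 2 / 4 := by linarith
  set b : ℝ := √(1 - κ ^ 2 / 4) with hb
  have hb2 : b ^ 2 = 1 - κ ^ 2 / 4 := Real.sq_sqrt h2
  refine ⟨⟨κ / 2, b⟩, ?_, fun w => ?_⟩
  · have h3 : ‖(⟨κ / 2, b⟩ : ℂ)‖ ^ 2 = 1 := by
      rw [← Complex.normSq_eq_norm_sq, Complex.normSq_mk]
      nlinarith
    have h4 : 0 ≤ ‖(⟨κ / 2, b⟩ : ℂ)‖ := norm_nonneg _
    nlinarith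
  · have h5 : (⟨κ / 2, b⟩ : ℂ) = (κ : ℂ) / 2 + (b : ℂ) * Complex.I := by
      apply Complex.ext <;> simp
    have h6 : (starRingEnd ℂ) (⟨κ / 2, b⟩ : ℂ) = (κ : ℂ) / 2 - (b : ℂ) * Complex.I := by
      apply Complex.ext <;> simp
    have h7 : (b : ℂ) ^ 2 = 1 - (κ : ℂ) ^ 2 / 4 := by
      exact_mod_cast congrArg (fun t : ℝ => (t : ℂ)) hb2
    rw [h6, h5]
    have h8 : (w - ((κ : ℂ) / 2 + (b : ℂ) * Complex.I)) * (w - ((κ : ℂ) / 2 - (b : ℂ) * Complex.I)) =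
        w ^ 2 - (κ : ℂ) * w + ((κ : ℂ) ^ 2 / 4 - (b : ℂ) ^ 2 * Complex.I ^ 2) := by ring
    rw [h8, h7, Complex.I_sq]
    ring

theorem Pt.log_le {x w : ℂ} (h : D.Pt x w) :
    |Real.log ‖w‖| ≤ Real.log (‖D.Q.eval x‖ + 1) := by
  have hw : 0 < ‖w‖ := norm_pos_iff.2 h.w_ne
  have h1 := norm_le_aux h
  have h2 := norm_le_aux h.inv
  rw [norm_inv] at h2
  rw [abs_le]
  constructor
  · have h3 := Real.log_le_log (inv_pos.2 hw) h2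
    rw [Real.log_inv] at h3
    linarith
  · exact Real.log_le_log hw h1

theorem Pt.log_le_sqrt {x w : ℂ} (h : D.Pt x w) :
    |Real.log ‖w‖| ≤ (‖D.Q.eval x‖ + 1) ^ 2 * √‖D.R.eval x‖ := by
  have hw : 0 < ‖w‖ := norm_pos_iff.2 h.w_ne
  have h1 := norm_le_aux h
  have h2 := norm_le_aux h.inv
  rw [norm_inv] at h2
  set M : ℝ := ‖D.Q.eval x‖ + 1 with hM
  have hM1 : 1 ≤ M := by
    have : 0 ≤ ‖D.Q.eval x‖ := norm_nonneg _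
    linarith
  obtain ⟨u, hu, hf⟩ := exists_unit D.κ D.hκ
  have h3 : w ^ 2 - (D.κ : ℂ) * w + 1 = w * D.R.eval x := by
    have := h.2
    rw [Dat.Q_eval] at this
    linear_combination this
  have h4 : ‖w - u‖ * ‖w - (starRingEnd ℂ) u‖ = ‖w‖ * ‖D.R.eval x‖ := by
    rw [← norm_mul, hf w, h3, norm_mul]
  have h5 : |‖w‖ - 1| ≤ ‖w - u‖ := by
    have := abs_norm_sub_norm_le w u
    rwa [hu] at this
  have h6 : |‖w‖ - 1| ≤ ‖w - (starRingEnd ℂ) u‖ := by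
    have := abs_norm_sub_norm_le w ((starRingEnd ℂ) u)
    rwa [Complex.norm_conj, hu] at this
  have h7 : (‖w‖ - 1) ^ 2 ≤ M * ‖D.R.eval x‖ := by
    calc (‖w‖ - 1) ^ 2 = |‖w‖ - 1| * |‖w‖ - 1| := by rw [← sq_abs, sq]
      _ ≤ ‖w - u‖ * ‖w - (starRingEnd ℂ) u‖ := mul_le_mul h5 h6 (abs_nonneg _) (norm_nonneg _)
      _ = ‖w‖ * ‖D.R.eval x‖ := h4
      _ ≤ M * ‖D.R.eval x‖ := mul_le_mul_of_nonneg_right h1 (norm_nonneg _)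
  have h8 : |‖w‖ - 1| ≤ √(M * ‖D.R.eval x‖) := Real.abs_le_sqrt h7
  have h9 : |Real.log ‖w‖| ≤ M * |‖w‖ - 1| := by
    rcases le_total 1 ‖w‖ with h10 | h10
    · rw [abs_of_nonneg (Real.log_nonneg h10), abs_of_nonneg (by linarith)]
      have := Real.log_le_sub_one_of_pos hw
      nlinarith
    · rw [abs_of_nonpos (Real.log_nonpos hw.le h10), abs_of_nonpos (by linarith)]
      have h11 := Real.log_le_sub_one_of_pos (inv_pos.2 hw)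
      rw [Real.log_inv] at h11
      have h12 : ‖w‖⁻¹ - 1 = ‖w‖⁻¹ * (1 - ‖w‖) := by
        field_simp
      have h13 : ‖w‖⁻¹ * (1 - ‖w‖) ≤ M * (1 - ‖w‖) := mul_le_mul_of_nonneg_right h2 (by linarith)
      linarith
  have h14 : √M ≤ M := by
    rw [Real.sqrt_le_left (by linarith)]
    nlinarith
  have h15 : 0 ≤ √‖D.R.eval x‖ := Real.sqrt_nonneg _
  calc |Real.log ‖w‖| ≤ M * |‖w‖ - 1| := h9
    _ ≤ M * √(M * ‖D.R.eval x‖) := mul_le_mul_of_nonneg_left h8 (by linarith)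
    _ = M * (√M * √‖D.R.eval x‖) := by rw [Real.sqrt_mul (by linarith)]
    _ ≤ M * (M * √‖D.R.eval x‖) := mul_le_mul_of_nonneg_left (mul_le_mul_of_nonneg_right h14 h15) (by linarith)
    _ = M ^ 2 * √‖D.R.eval x‖ := by ring

end Dat

end Pool.Agent.RHE
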