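import Pool.Agent.RHE.Basic

/-! # RHE-Loc: local holomorphic sections `W` of `w² - Q(x) w + 1 = 0`

`W x = (Q(x) + s₀ * exp (log (Δ(x)/Δ(x₀)) / 2)) / 2`, `s₀ = w₀ - w₀⁻¹`. -/

namespace Pool.Agent.RHE

open Polynomial

namespace Dat

variable {D : Dat}

theorem exists_sec {x₀ w₀ : ℂ} (h : D.Pt x₀ w₀) :
    ∃ (δ : ℝ) (W : ℂ → ℂ), D.Sec x₀ δ W ∧ W x₀ = w₀ := by
  have hΔ0 := h.Δ_ne
  have hg : Continuous fun x => D.Δ.eval x / D.Δ.eval x₀ := D.Δ.continuous.div_const _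
  have hopen : IsOpen ((fun x => D.Δ.eval x / D.Δ.eval x₀) ⁻¹' Complex.slitPlane ∩ (D.S : Set ℂ)ᶜ) :=
    (Complex.isOpen_slitPlane.preimage hg).inter D.isOpen_compl_S
  have hmem : x₀ ∈ (fun x => D.Δ.eval x / D.Δ.eval x₀) ⁻¹' Complex.slitPlane ∩ (D.S : Set ℂ)ᶜ := by
    refine ⟨?_, h.1⟩
    rw [Set.mem_preimage, div_self hΔ0]
    exact Complex.one_mem_slitPlane
  obtain ⟨δ, hδ, hball⟩ := Metric.isOpen_iff.1 hopen x₀ hmem
  refine ⟨δ, fun x => (D.Q.eval x + (w₀ - w₀⁻¹) *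
    Complex.exp (Complex.log (D.Δ.eval x / D.Δ.eval x₀) / 2)) / 2, ⟨hδ, ?_, ?_⟩, ?_⟩
  · intro x hx
    have h1 : D.Δ.eval x / D.Δ.eval x₀ ∈ Complex.slitPlane := (hball hx).1
    have h2 : DifferentiableAt ℂ (fun x => D.Δ.eval x / D.Δ.eval x₀) x :=
      D.Δ.differentiable.differentiableAt.div_const _
    have h3 : DifferentiableAt ℂ (fun x => Complex.log (D.Δ.eval x / D.Δ.eval x₀)) x :=
      h2.clog h1
    have h4 : DifferentiableAt ℂ (fun x => D.Q.eval x) x := D.Q.differentiable.differentiableAt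
    exact ((h4.add ((h3.div_const 2).cexp.const_mul _)).div_const 2).differentiableWithinAt
  · intro x hx
    refine ⟨(hball hx).2, ?_⟩
    have h1 : D.Δ.eval x / D.Δ.eval x₀ ∈ Complex.slitPlane := (hball hx).1
    have h2 : Complex.exp (Complex.log (D.Δ.eval x / D.Δ.eval x₀) / 2) ^ 2 =
        D.Δ.eval x / D.Δ.eval x₀ := by
      rw [← Complex.exp_nat_mul]
      have h3 : ((2 : ℕ) : ℂ) * (Complex.log (D.Δ.eval x / D.Δ.eval x₀) / 2) =
          Complex.log (D.Δ.eval x / D.Δ.eval x₀) := by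
        push_cast
        ring
      rw [h3, Complex.exp_log (Complex.slitPlane_ne_zero h1)]
    have h4 : ((w₀ - w₀⁻¹) * Complex.exp (Complex.log (D.Δ.eval x / D.Δ.eval x₀) / 2)) ^ 2 =
        (D.Q.eval x) ^ 2 - 4 := by
      rw [mul_pow, h.disc, h2, mul_div_cancel₀ _ hΔ0, Δ_eval]
    linear_combination h4 / 4
  · show (D.Q.eval x₀ + (w₀ - w₀⁻¹) *
      Complex.exp (Complex.log (D.Δ.eval x₀ / D.Δ.eval x₀) / 2)) / 2 = w₀
    rw [div_self hΔ0, Complex.log_one, zero_div, Complex.exp_zero, h.Q_eq]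
    ring

theorem Sec.logDeriv {x₀ : ℂ} {δ : ℝ} {W : ℂ → ℂ} (hS : D.Sec x₀ δ W) {x : ℂ}
    (hx : x ∈ Metric.ball x₀ δ) :
    deriv W x / W x = D.R.derivative.eval x / (W x - (W x)⁻¹) := by
  have hp := hS.pt x hx
  have hW : HasDerivAt W (deriv W x) x :=
    ((hS.hW x hx).differentiableAt (Metric.isOpen_ball.mem_nhds hx)).hasDerivAt
  have hQ : HasDerivAt (fun y => D.Q.eval y) (D.Q.derivative.eval x) x := D.Q.hasDerivAt x
  have h1 : HasDerivAt (fun y => W y ^ 2 - D.Q.eval y * W y + 1)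
      (((2 : ℕ) : ℂ) * W x ^ (2 - 1) * deriv W x -
        (D.Q.derivative.eval x * W x + D.Q.eval x * deriv W x)) x :=
    ((hW.pow 2).sub (hQ.mul hW)).add_const 1
  have h2 : (fun y => W y ^ 2 - D.Q.eval y * W y + 1) =ᶠ[nhds x] fun _ => 0 := by
    filter_upwards [Metric.isOpen_ball.mem_nhds hx] with y hy
    exact (hS.pt y hy).2
  have h3 : HasDerivAt (fun y => W y ^ 2 - D.Q.eval y * W y + 1) 0 x :=
    (hasDerivAt_const x (0 : ℂ)).congr_of_eventuallyEq h2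
  have h4 := h1.unique h3
  have h5 : D.Q.derivative = D.R.derivative := by
    rw [Q, derivative_add, derivative_C, add_zero]
  rw [h5, hp.Q_eq] at h4
  rw [div_eq_div_iff hp.w_ne hp.sub_inv_ne]
  push_cast at h4
  linear_combination h4

end Dat

end Pool.Agent.RHE
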