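import Pool.Agent.RHE.Basic

/-! # RHE-NodA: a sufficient condition for `Good` -/

namespace Pool.Agent.RHE

open Polynomial

namespace Dat

variable (D : Dat)

private theorem nodA_key (s : ℂ) (m : ℕ) (V : ℂ[X]) (hV : ∀ x, D.Δ.eval x = (x - s) ^ (m + 1) * V.eval x)
    (hs : V.eval s ≠ 0) (hF : ∃ C1 : ℝ, ∀ᶠ x in nhds s, ‖D.F x‖ ≤ C1 * ‖x - s‖ ^ m) :
    ∃ C : ℝ, ∃ δ > (0 : ℝ), ∀ x : ℂ, 0 < ‖x - s‖ →
      ‖x - s‖ < δ → ‖D.F x‖ ^ 2 * ‖x - s‖ ≤ C * ‖D.Δ.eval x‖ := by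
  obtain ⟨C1, hC1⟩ := hF
  have hc : 0 < ‖V.eval s‖ / 2 := half_pos (norm_pos_iff.2 hs)
  have h1 : ∀ᶠ x in nhds s, ‖V.eval s‖ / 2 < ‖V.eval x‖ := by
    have h2 : Filter.Tendsto (fun x => ‖V.eval x‖) (nhds s) (nhds ‖V.eval s‖) :=
      (V.continuous.norm).continuousAt
    exact h2.eventually_const_lt (half_lt_self (norm_pos_iff.2 hs))
  obtain ⟨ε, hε, hε'⟩ := Metric.eventually_nhds_iff.1 (hC1.and h1)
  refine ⟨C1 ^ 2 / (‖V.eval s‖ / 2), min ε 1, lt_min hε one_pos, fun x hx0 hx => ?_⟩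
  obtain ⟨h3, h4⟩ := hε' (by rw [dist_eq_norm]; exact lt_of_lt_of_le hx (min_le_left _ _))
  have hx1 : ‖x - s‖ ≤ 1 := (lt_of_lt_of_le hx (min_le_right _ _)).le
  have h5 : ‖D.F x‖ ^ 2 ≤ (C1 * ‖x - s‖ ^ m) ^ 2 := pow_le_pow_left₀ (norm_nonneg _) h3 2
  have h6 : ‖x - s‖ ^ (m + 1) * (‖V.eval s‖ / 2) ≤ ‖D.Δ.eval x‖ := by
    rw [hV, norm_mul, norm_pow]
    exact mul_le_mul_of_nonneg_left h4.le (by positivity)
  have h7 : ‖x - s‖ ^ (2 * m + 1) ≤ ‖x - s‖ ^ (m + 1) :=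
    pow_le_pow_of_le_one (norm_nonneg _) hx1 (by omega)
  calc ‖D.F x‖ ^ 2 * ‖x - s‖ ≤ (C1 * ‖x - s‖ ^ m) ^ 2 * ‖x - s‖ :=
        mul_le_mul_of_nonneg_right h5 (norm_nonneg _)
    _ = C1 ^ 2 * ‖x - s‖ ^ (2 * m + 1) := by ring
    _ ≤ C1 ^ 2 * ‖x - s‖ ^ (m + 1) := mul_le_mul_of_nonneg_left h7 (sq_nonneg _)
    _ = C1 ^ 2 / (‖V.eval s‖ / 2) * (‖x - s‖ ^ (m + 1) * (‖V.eval s‖ / 2)) := by
        field_simp
    _ ≤ C1 ^ 2 / (‖V.eval s‖ / 2) * ‖D.Δ.eval x‖ :=
        mul_le_mul_of_nonneg_left h6 (by positivity)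

theorem good_of (h : ∀ s : ℂ, D.Δ.eval s = 0 → D.R.eval s ≠ 0 → D.R.derivative.eval s ≠ 0 ∨
    (D.F s = 0 ∧ D.R.derivative.derivative.eval s ≠ 0)) : D.Good := by
  intro s hs hR
  have hQ : D.Q.eval s ≠ 0 := by
    intro h0
    rw [Δ_eval, h0] at hs
    norm_num at hs
  have hdQ : derivative D.Q = derivative D.R := by
    rw [Q, derivative_add, derivative_C, add_zero]
  have hdΔ : derivative D.Δ = C 2 * (D.Q * derivative D.R) := by
    rw [Δ, derivative_sub, derivative_C, sub_zero, pow_two, derivative_mul, hdQ]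
    have h2 : (C 2 : ℂ[X]) = 2 := rfl
    rw [h2]
    ring
  have hFd : DifferentiableAt ℂ D.F s := by
    unfold F
    refine DifferentiableAt.fun_sum fun i _ => ?_
    refine (differentiableAt_const _).div (differentiableAt_id.sub_const _) ?_
    intro h0
    exact hR (D.R_eval_eq_zero.2 ⟨i, sub_eq_zero.1 h0⟩)
  obtain ⟨U, hU⟩ := dvd_iff_isRoot.2 (show D.Δ.IsRoot s from hs)
  have hU1 : U.eval s = (derivative D.Δ).eval s := by
    rw [hU]
    simp [derivative_mul]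
  by_cases h1 : (derivative D.R).eval s = 0
  · rcases h s hs hR with h2 | ⟨hF0, h2⟩
    · exact absurd h1 h2
    have hU0 : U.eval s = 0 := by
      rw [hU1, hdΔ, eval_mul, eval_mul, h1, mul_zero, mul_zero]
    obtain ⟨V, hV⟩ := dvd_iff_isRoot.2 (show U.IsRoot s from hU0)
    have hV1 : 2 * V.eval s = (derivative (derivative D.Δ)).eval s := by
      rw [hU, hV]
      simp only [derivative_mul, derivative_sub, derivative_X, derivative_C, derivative_add, eval_add, eval_mul,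
        eval_sub, eval_X, eval_C, sub_self, zero_mul, mul_zero, add_zero, zero_add, sub_zero, one_mul, mul_one,
        derivative_one, eval_one, eval_zero]
      ring
    have hV2 : (derivative (derivative D.Δ)).eval s = 2 * (D.Q.eval s * (derivative (derivative D.R)).eval s) := by
      rw [hdΔ, derivative_mul, derivative_C, zero_mul, zero_add, derivative_mul, hdQ, eval_mul, eval_add, eval_mul,
        eval_mul, h1, eval_C]
      ring
    have hV0 : V.eval s ≠ 0 := by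
      intro h0
      rw [h0, mul_zero, hV2] at hV1
      have h3 := mul_eq_zero.1 hV1.symm
      rcases h3 with h3 | h3
      · norm_num at h3
      · rcases mul_eq_zero.1 h3 with h4 | h4
        · exact hQ h4
        · exact h2 h4
    refine D.nodA_key s 1 V (fun x => ?_) hV0 ?_
    · rw [hU, hV, eval_mul, eval_mul, eval_sub, eval_X, eval_C]
      ring
    · have h3 := hFd.hasDerivAt.isBigO_sub
      obtain ⟨C1, hC1⟩ := h3.bound
      refine ⟨C1, hC1.mono fun x hx => ?_⟩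
      rw [hF0, sub_zero] at hx
      rw [pow_one]
      exact hx
  · have hU0 : U.eval s ≠ 0 := by
      rw [hU1, hdΔ, eval_mul, eval_mul, eval_C]
      exact mul_ne_zero two_ne_zero (mul_ne_zero hQ h1)
    refine D.nodA_key s 0 U (fun x => ?_) hU0 ?_
    · rw [hU, eval_mul, eval_sub, eval_X, eval_C]
      ring
    · refine ⟨‖D.F s‖ + 1, ?_⟩
      have h3 : Filter.Tendsto (fun x => ‖D.F x‖) (nhds s) (nhds ‖D.F s‖) := hFd.continuousAt.norm
      have h4 := h3.eventually_lt_const (show ‖D.F s‖ < ‖D.F s‖ + 1 by linarith)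
      refine h4.mono fun x hx => ?_
      rw [pow_zero, mul_one]
      exact hx.le

end Dat

end Pool.Agent.RHE
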