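import Pool.Agent.Helper11.Hom

/-! # RHE-Nsq: `f² - 4` is not a square if `f` is not constant

PLAN. `Pool.Agent.Helper11.NotSq f : ∀ A B, A² + A B f + B² = 0 → A = 0 ∧ B = 0`. If `B = 0` then `A = 0`. Otherwise
`(2A + B f)² = B² (f² - 4)`, so `B² ∣ (2A + B f)²`, `B ∣ 2A + B f` (`pow_dvd_pow_iff`), `2A + B f = B g`,
`g² = f² - 4`, `(f - g)(f + g) = 4`, so `f - g`, `f + g` are units of `ℚ[X]`, so constants, so `2 f` is
constant: contradiction with the degree. -/

namespace Pool.Agent.RHE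

open Polynomial Pool.Agent.Helper11

theorem notSq_of_natDegree {f : ℚ[X]} (hf : 0 < f.natDegree) : NotSq f := by
  intro A B hAB
  by_cases hB : B = 0
  · refine ⟨?_, hB⟩
    rw [hB, mul_zero, zero_mul, add_zero, zero_pow two_ne_zero, add_zero] at hAB
    exact pow_eq_zero_iff two_ne_zero |>.1 hAB
  exfalso
  have h1 : (2 * A + B * f) ^ 2 = B ^ 2 * (f ^ 2 - 4) := by
    linear_combination 4 * hAB
  have h2 : B ∣ 2 * A + B * f := by
    exact (IsIntegrallyClosed.pow_dvd_pow_iff two_ne_zero).1 ⟨f ^ 2 - 4, h1⟩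
  obtain ⟨g, hg⟩ := h2
  have h3 : g ^ 2 = f ^ 2 - 4 := by
    have h4 : B ^ 2 * (g ^ 2 - (f ^ 2 - 4)) = 0 := by
      rw [hg] at h1
      linear_combination h1
    rcases mul_eq_zero.1 h4 with h5 | h5
    · exact absurd (pow_eq_zero_iff two_ne_zero |>.1 h5) hB
    · exact sub_eq_zero.1 h5
  have h4 : (f - g) * (f + g) = C 4 := by
    have : (C (4 : ℚ) : ℚ[X]) = 4 := map_ofNat C 4
    rw [this]
    linear_combination -h3
  have hne : (C (4 : ℚ) : ℚ[X]) ≠ 0 := by
    rw [Ne, C_eq_zero]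
    norm_num
  have ha : f - g ≠ 0 := by
    intro h
    rw [h, zero_mul] at h4
    exact hne h4.symm
  have hb : f + g ≠ 0 := by
    intro h
    rw [h, mul_zero] at h4
    exact hne h4.symm
  have h5 := natDegree_mul ha hb
  rw [h4, natDegree_C] at h5
  have h6 : (f - g) + (f + g) = 2 * f := by ring
  have h7 : (2 * f : ℚ[X]).natDegree = f.natDegree := by
    have : (2 : ℚ[X]) = C 2 := (map_ofNat C 2).symm
    rw [this, natDegree_C_mul (by norm_num)]
  have h8 := natDegree_add_le (f - g) (f + g)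
  rw [h6, h7] at h8
  have h9 : max (f - g).natDegree (f + g).natDegree = 0 := by
    rw [Nat.max_eq_zero_iff]
    omega
  omega

end Pool.Agent.RHE
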