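import Pool.Agent.RHE.Cat
import Pool.Agent.RHE.Cls

/-! # RHE-Prim: if all loops have regulator zero, path integrals depend on the end points only -/

namespace Pool.Agent.RHE

namespace Dat

variable {D : Dat}

/-- there is a flat path from `P` to `P'` with integral `v` -/
private def Jp (D : Dat) (P P' : ℂ × ℂ) (v : ℝ) : Prop :=
  ∃ ξ ω : ℝ → ℂ, D.Flat ξ ω ∧ ξ 0 = P.1 ∧ ω 0 = P.2 ∧ ξ 1 = P'.1 ∧ ω 1 = P'.2 ∧ ∫ t in (0 : ℝ)..1, D.ρ ξ ω t = v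

private theorem jp_rev {P P' : ℂ × ℂ} {v : ℝ} (h : Jp D P P' v) : Jp D P' P (-v) := by
  obtain ⟨ξ, ω, hf, h1, h2, h3, h4, h5⟩ := h
  refine ⟨_, _, hf.rev.1, ?_, ?_, ?_, ?_, ?_⟩
  · rw [sub_zero]
    exact h3
  · rw [sub_zero]
    exact h4
  · rw [sub_self]
    exact h1
  · rw [sub_self]
    exact h2
  · rw [hf.rev.2, h5]

private theorem jp_cat {P P' P'' : ℂ × ℂ} {v v' : ℝ} (h : Jp D P P' v) (h' : Jp D P' P'' v') :
    Jp D P P'' (v + v') := by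
  obtain ⟨ξ, ω, hf, h1, h2, h3, h4, h5⟩ := h
  obtain ⟨ξ', ω', hf', h1', h2', h3', h4', h5'⟩ := h'
  obtain ⟨η, θ, g, g1, g2, g3, g4, g5⟩ := hf.cat hf' (h3.trans h1'.symm) (h4.trans h2'.symm)
  exact ⟨η, θ, g, g1.trans h1, g2.trans h2, g3.trans h3', g4.trans h4', by rw [g5, h5, h5']⟩

private theorem jp_uniq (hL : D.LoopsZero) {P P' : ℂ × ℂ} {v v' : ℝ} (h : Jp D P P' v) (h' : Jp D P P' v') :
    v = v' := by
  obtain ⟨ξ, ω, hf, h1, h2, h3, h4, h5⟩ := jp_cat h (jp_rev h')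
  obtain ⟨η, θ, g1, g2⟩ := hf.closed (h1.trans h3.symm) (h2.trans h4.symm)
  have h6 := hL η θ g1
  rw [g2, h5] at h6
  linarith

theorem exists_fun (hL : D.LoopsZero) : ∃ h : ℂ → ℂ → ℝ, ∀ ξ ω : ℝ → ℂ, D.Flat ξ ω →
    ∫ t in (0 : ℝ)..1, D.ρ ξ ω t = h (ξ 1) (ω 1) - h (ξ 0) (ω 0) := by
  classical
  let S : Setoid (ℂ × ℂ) :=
    { r := fun P P' => P = P' ∨ ∃ v, Jp D P P' v
      iseqv :=
        { refl := fun P => Or.inl rfl
          symm := by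
            rintro P P' (h | ⟨v, h⟩)
            · exact Or.inl h.symm
            · exact Or.inr ⟨_, jp_rev h⟩
          trans := by
            rintro P P' P'' (h | ⟨v, h⟩) (h' | ⟨v', h'⟩)
            · exact Or.inl (h.trans h')
            · rw [h]
              exact Or.inr ⟨v', h'⟩
            · rw [← h']
              exact Or.inr ⟨v, h⟩
            · exact Or.inr ⟨_, jp_cat h h'⟩ } }
  let b : ℂ × ℂ → ℂ × ℂ := fun P => (Quotient.mk S P).out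
  have hb : ∀ P, b P = P ∨ ∃ v, Jp D (b P) P v := fun P =>
    Quotient.exact (s := S) (Quotient.out_eq (Quotient.mk S P))
  have hbb : ∀ P P' v, Jp D P P' v → b P = b P' := by
    intro P P' v h
    have h1 : Quotient.mk S P = Quotient.mk S P' := Quotient.sound (s := S) (Or.inr ⟨v, h⟩)
    show (Quotient.mk S P).out = (Quotient.mk S P').out
    rw [h1]
  let h : ℂ × ℂ → ℝ := fun P => if H : ∃ v, Jp D (b P) P v then Classical.choose H else 0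
  have hh : ∀ P v, Jp D (b P) P v → h P = v := by
    intro P v hv
    have H : ∃ v, Jp D (b P) P v := ⟨v, hv⟩
    have h1 : h P = Classical.choose H := dif_pos H
    rw [h1]
    exact jp_uniq hL (Classical.choose_spec H) hv
  refine ⟨fun x w => h (x, w), fun ξ ω hf => ?_⟩
  have hJ : Jp D (ξ 0, ω 0) (ξ 1, ω 1) (∫ t in (0 : ℝ)..1, D.ρ ξ ω t) := ⟨ξ, ω, hf, rfl, rfl, rfl, rfl, rfl⟩
  obtain ⟨v, hv⟩ : ∃ v, Jp D (b (ξ 0, ω 0)) (ξ 0, ω 0) v := by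
    rcases hb (ξ 0, ω 0) with h1 | h1
    · rw [h1]
      exact ⟨_, jp_cat hJ (jp_rev hJ)⟩
    · exact h1
  have h1 := hh _ _ hv
  have h2 := jp_cat hv hJ
  rw [hbb _ _ _ hJ] at h2
  have h3 := hh _ _ h2
  show ∫ t in (0 : ℝ)..1, D.ρ ξ ω t = h (ξ 1, ω 1) - h (ξ 0, ω 0)
  rw [h1, h3]
  ring

end Dat

end Pool.Agent.RHE
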